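import Pool.Agent.Work.MP_768e99_four.Interface

/-! # Block ALL4: induction on the number of vertices of the region -/

set_option autoImplicit false

namespace Pool.K4

open Pool.Agent.Work.MP_768e99_co Pool.K3F

theorem ALL4_ind (hS24 : Stmt_S24) (hS14 : Stmt_S14) (V : Type) [Fintype V] (G : SimpleGraph V)
    (d : ℕ) (hd : 11 ≤ d) (hF : Free G (d + 2)) (n : ℕ) :
    (∀ (C' O' Y' SO' SY' Dl' : Set V) (c' : V → Fin 4), C'.ncard < n →
      T2 G C' O' Y' SO' SY' Dl' c' → ∃ c, Gd G d C' (SO' ∪ SY') c' c) ∧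
    (∀ (C' A W B : Set V) (c' : V → Fin 4), C'.ncard < n → T1 G C' A W B c' →
      ∃ c, Gd G d C' W c' c) := by
  induction n with
  | zero =>
    exact ⟨fun _ _ _ _ _ _ _ h => absurd h (Nat.not_lt_zero _),
      fun _ _ _ _ _ h => absurd h (Nat.not_lt_zero _)⟩
  | succ n ih =>
    constructor
    · intro C O Y SO SY Dl c₀ hC hst
      refine hS24 V G d C O Y SO SY Dl c₀ hd hF hst ?_ ?_
      · intro C' O' Y' SO' SY' Dl' c' h hst'
        exact ih.1 C' O' Y' SO' SY' Dl' c' (by omega) hst'
      · intro C' A W B c' h hst'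
        exact ih.2 C' A W B c' (by omega) hst'
    · intro C A W B c₀ hC hst
      refine hS14 V G d C A W B c₀ hst ?_ ?_
      · intro C' O' Y' SO' SY' Dl' c' h hst'
        exact ih.1 C' O' Y' SO' SY' Dl' c' (by omega) hst'
      · intro C' A' W' B' c' h hst'
        exact ih.2 C' A' W' B' c' (by omega) hst'

theorem p_ALL4 (hS24 : Stmt_S24) (hS14 : Stmt_S14) (hGL : Stmt_GL4) (_hTR : Stmt_TR4)
    (hCMP : Stmt_CMP) : Stmt_ALL4 := by
  intro V _ G d hd hF
  have key : ∀ F, IsCmp G Set.univ F → ∃ c₁, Gd G d F ∅ (fun _ : V => (0 : Fin 4)) c₁ := by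
    intro F hFc
    refine (ALL4_ind hS24 hS14 V G d hd hF (F.ncard + 1)).2 F ∅ ∅ ∅ _ (Nat.lt_succ_self _) ?_
    refine
      { conn := hFc.1
        connA := Or.inl rfl
        connB := Or.inl rfl
        dCA := Set.disjoint_empty _
        dCB := Set.disjoint_empty _
        dAB := Set.disjoint_empty _
        dW := Set.empty_disjoint _
        out := fun x hx u hu => Or.inl (hFc.2.2 x hx u (Set.mem_univ u) hu)
        cA := ⟨0, by decide, fun x _ u hu => absurd hu (Set.notMem_empty u)⟩
        cW := fun u hu => absurd hu (Set.notMem_empty u)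
        cB := fun x _ u hu => absurd hu (Set.notMem_empty u)
        sA := fun w hw => absurd hw (Set.notMem_empty w)
        tAB := fun h => absurd h Set.not_nonempty_empty
        few := fun v _ => ?_ }
    have h0 : nb G v (∅ : Set V) = ∅ := by
      ext y
      simp [nb]
    rw [h0, Set.ncard_empty]
    exact Nat.zero_le _
  classical
  let cF : Set V → V → Fin 4 := fun F =>
    if h : IsCmp G Set.univ F then (key F h).choose else fun _ => 0
  have hcF : ∀ F, IsCmp G Set.univ F → Gd G d F ∅ (fun _ : V => (0 : Fin 4)) (cF F) := by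
    intro F h
    have h1 : cF F = (key F h).choose := by
      show (if h : IsCmp G Set.univ F then (key F h).choose else fun _ => 0) = _
      rw [dif_pos h]
    rw [h1]
    exact (key F h).choose_spec
  obtain ⟨col, -, hcol⟩ := hGL V G Set.univ (fun _ => 0) cF
  refine ⟨col, fun v => ?_⟩
  obtain ⟨h1, h2⟩ := (hCMP V G Set.univ).1 v (Set.mem_univ v)
  have h3 := (hcF _ h1).defect v h2
  refine le_trans (le_of_eq ?_) h3
  congr 1
  ext w
  constructor
  · rintro ⟨ha, hb⟩
    have hw := h1.2.2 v h2 w (Set.mem_univ w) ha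
    rw [hcol _ h1 w hw, hcol _ h1 v h2] at hb
    exact ⟨ha, hb⟩
  · rintro ⟨ha, hb⟩
    have hw := h1.2.2 v h2 w (Set.mem_univ w) ha
    refine ⟨ha, ?_⟩
    rw [hcol _ h1 w hw, hcol _ h1 v h2]
    exact hb

end Pool.K4
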