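import Pool.Agent.Work.MP_768e99_four.Interface

set_option autoImplicit false

namespace Pool.K4

open Pool.Agent.Work.MP_768e99_co Pool.K3F

theorem BAS_conn {V : Type} (G : SimpleGraph V) (Q S : Set V) (hQ : Conn G Q)
    (hS : ∀ x ∈ S, Tch G {x} Q) : Conn G (Q ∪ S) := by
  refine ⟨hQ.1.mono Set.subset_union_left, ?_⟩
  intro T hT hTne hcl
  have hmeet : (T ∩ Q).Nonempty := by
    obtain ⟨x, hx⟩ := hTne
    rcases hT hx with hxQ | hxS
    · exact ⟨x, hx, hxQ⟩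
    · obtain ⟨a, ha, q, hq, hadj⟩ := hS x hxS
      rw [Set.mem_singleton_iff] at ha
      subst ha
      exact ⟨q, hcl _ hx q (Or.inl hq) hadj, hq⟩
  have hQT : Q ⊆ T ∩ Q := by
    apply hQ.2 (T ∩ Q) Set.inter_subset_right hmeet
    intro x hx y hy hadj
    exact ⟨hcl x hx.1 y (Or.inl hy) hadj, hy⟩
  intro x hx
  rcases hx with hxQ | hxS
  · exact (hQT hxQ).1
  · obtain ⟨a, ha, q, hq, hadj⟩ := hS x hxS
    rw [Set.mem_singleton_iff] at ha
    subst ha
    exact hcl q (hQT hq).1 _ (Or.inr hxS) hadj.symm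

theorem p_BAS (_hCMP : Stmt_CMP) (hDJ : Stmt_DJ) (hNBF : Stmt_NBF) (hELT : Stmt_ELT) :
    Stmt_BAS := by
  intro V G d C O Y SO SY Dl H R P c hT hN
  obtain ⟨hE1, hE2, hE3⟩ := hELT V G d C O Y SO SY Dl H R P c hT hN
  have hUO : Disjoint (C ∪ SO ∪ SY) O := by
    have h1 := hT.dSO
    have h2 := hT.dSY
    have h3 := hT.dCO
    simp only [Set.disjoint_union_right, Set.disjoint_union_left] at h1 h2 ⊢
    exact ⟨⟨h3, h1.1.2⟩, h2.1.2⟩
  have hUY : Disjoint (C ∪ SO ∪ SY) Y := by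
    have h1 := hT.dSO
    have h2 := hT.dSY
    have h3 := hT.dCY
    simp only [Set.disjoint_union_right, Set.disjoint_union_left] at h1 h2 ⊢
    exact ⟨⟨h3, h1.2⟩, h2.2⟩
  have hSd : ∀ Z, Sd G (C ∪ SO ∪ SY) H Z ⊆ (C ∪ SO ∪ SY) \ H := fun Z v hv => hv.1
  have hM : (H ∩ C) \ R ⊆ C ∪ SO ∪ SY := fun v hv => Or.inl (Or.inl hv.1.2)
  have h2 : Disjoint O (Nw G C SO SY H R Y) := by
    unfold Nw
    rw [Set.disjoint_union_right, Set.disjoint_union_right]
    refine ⟨⟨hT.dOY, ?_⟩, ?_⟩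
    · exact (hUO.mono_left (fun v hv => (hSd Y hv).1)).symm
    · exact (hUO.mono_left hM).symm
  have h3 : Disjoint (Sd G (C ∪ SO ∪ SY) H O) (Nw G C SO SY H R Y) := by
    unfold Nw
    rw [Set.disjoint_union_right, Set.disjoint_union_right]
    refine ⟨⟨?_, ?_⟩, ?_⟩
    · exact hUY.mono_left (fun v hv => (hSd O hv).1)
    · exact hDJ V G (C ∪ SO ∪ SY) O Y H P hN.cut
    · rw [Set.disjoint_left]
      intro v hv hv'
      exact (hSd O hv).2 hv'.1.1
  refine ⟨?_, h2, h3, ?_⟩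
  · unfold Nw
    apply BAS_conn G _ _ hN.sideY.1
    intro x hx
    exact hN.sideY.2 x hx.1.1
  · intro F hF hFO
    have h4 : Disjoint F (Nw G C SO SY H R Y) := h3.mono_left hFO
    refine ⟨h4, ?_⟩
    intro x hx u hu hadj
    rcases hNBF V G d C O Y SO SY Dl H R P c hT hN F hF hFO x hx u hadj with
      h | h | h | h | h | h | h | h
    · exact absurd hu (Set.disjoint_left.mp h4 h)
    · exact absurd hu (Set.disjoint_left.mp h2 h)
    · exact h
    · exact absurd hu (hE1 u (Or.inl h.1))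
    · exact absurd hu (hE1 u (Or.inr (Or.inl h)))
    · exact absurd hu (hE1 u (Or.inl h.2))
    · exact absurd hu (hE1 u (Or.inr (Or.inr h)))
    · obtain ⟨K, _, huK, hK, _, _⟩ := hT.cl u h
      exact absurd hu (Set.disjoint_left.mp (hE3 K hK) huK)

end Pool.K4
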