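import Pool.Agent.Work.MP_768e99_four.Interface

set_option autoImplicit false

namespace Pool.K4

open Pool.Agent.Work.MP_768e99_co Pool.K3F

theorem CJ2_single {V : Type} (G : SimpleGraph V) (u : V) : Conn G ({u} : Set V) := by
  refine ⟨⟨u, rfl⟩, ?_⟩
  rintro T hT ⟨x, hx⟩ _ y hy
  rw [Set.mem_singleton_iff] at hy
  have hx' : x = u := hT hx
  rw [hy, ← hx']
  exact hx

theorem CJ2_OB_H {V : Type} {G : SimpleGraph V} {d : ℕ} {C O Y SO SY Dl H R F : Set V}
    {P : V → Set V} (nd : Nd G d C O Y SO SY Dl H R P) :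
    ∀ w ∈ OB G C SO SY H R O Y F, w ∈ H := by
  rintro w ⟨h | h, _⟩
  · exact (nd.sub h).1
  · exact h.1

theorem p_CJ2 (hBAS : Stmt_BAS) (hELT : Stmt_ELT) (hNBF : Stmt_NBF) (hTSA : Stmt_TSA)
    (hFEW4 : Stmt_FEW4) (hLK2 : Stmt_LK2) (hCN2 : Stmt_CN2) : Stmt_CJ2 := by
  classical
  intro V _ G d C O Y SO SY Dl H R P c f hfree st nd hf3 F hF hFA hFO
  obtain ⟨bas1, bas2, bas3, bas4⟩ := hBAS V G d C O Y SO SY Dl H R P c st nd
  obtain ⟨dFY, seeY⟩ := bas4 F hF hFA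
  obtain ⟨elt1, elt2, elt3⟩ := hELT V G d C O Y SO SY Dl H R P c st nd
  have nbf := hNBF V G d C O Y SO SY Dl H R P c st nd F hF hFA
  obtain ⟨tsa1, tsa2, tsa3⟩ := hTSA V G d C O Y SO SY Dl H R P c st nd F hF hFA
  have few4 := hFEW4 V G d C O Y SO SY Dl H R P c hfree st nd F hF hFA
  have lk2 := hLK2 V G d C O Y SO SY Dl H R P c st nd F hF hFA hFO
  have hFC : ∀ x ∈ F, x ∈ C ∧ x ∉ H := fun x hx => hF.2.1 hx
  have hRC : ∀ x ∈ R, x ∈ H ∧ x ∈ C := fun x hx => nd.sub hx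
  have notCSO : ∀ u ∈ SO, u ∉ C ∧ u ∉ O := by
    intro u hu
    have := Set.disjoint_left.1 st.dSO hu
    simp only [Set.mem_union, not_or] at this
    exact ⟨this.1.1, this.1.2⟩
  have notCSY : ∀ u ∈ SY, u ∉ C ∧ u ∉ O := by
    intro u hu
    have := Set.disjoint_left.1 st.dSY hu
    simp only [Set.mem_union, not_or] at this
    exact ⟨this.1.1, this.1.2⟩
  have notCDl : ∀ u ∈ Dl, u ∉ C := by
    intro u hu
    obtain ⟨K, _, hK2, hK3, _⟩ := st.cl u hu
    have := Set.disjoint_left.1 hK3 hK2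
    simp only [Set.mem_union, not_or] at this
    exact this.1.1.1.1
  have notCO : ∀ u ∈ C, u ∉ O := fun u hu => Set.disjoint_left.1 st.dCO hu
  set Y' : Set V := Nw G C SO SY H R Y with hY'
  set OBs : Set V := OB G C SO SY H R O Y F with hOBs
  set Fam : Set (Set V) := {K | Conn G K ∧ Disjoint K (F ∪ O ∪ Y' ∪ OBs) ∧ Tch G K O} with hFam
  have hOBH : ∀ w ∈ OBs, w ∈ H := CJ2_OB_H nd
  have inFam : ∀ K : Set V, Conn G K → Disjoint K (F ∪ O ∪ Y') → Tch G K O → Tch G K Y' →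
      K ∈ Fam := by
    intro K h1 h2 h3 h4
    refine ⟨h1, ?_, h3⟩
    rw [Set.disjoint_union_right]
    refine ⟨h2, ?_⟩
    rw [Set.disjoint_left]
    intro w hw hwB
    exact hwB.2.2 ⟨K, h1, hw, h2, h3, h4⟩
  have tsB : ∀ z, TS G F O Y' z → z ∈ O ∪ ⋃₀ Fam := by
    rintro z ⟨K, h1, hz, h2, h3, h4⟩
    exact Or.inr ⟨K, inFam K h1 h2 h3 h4, hz⟩
  have soB : ∀ z ∈ SO \ H, z ∈ O ∪ ⋃₀ Fam := by
    intro z hz
    refine Or.inr ⟨{z}, ⟨CJ2_single G z, ?_, (st.sO z hz.1).2.1.symm⟩, rfl⟩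
    rw [Set.disjoint_singleton_left]
    rintro (((h | h) | h) | h)
    · exact (notCSO z hz.1).1 (hFC z h).1
    · exact (notCSO z hz.1).2 h
    · exact elt1 z (Or.inl hz.1) h
    · exact hz.2 (hOBH z h)
  have dFB : Disjoint F (O ∪ ⋃₀ Fam) := by
    rw [Set.disjoint_left]
    rintro x hx (h | ⟨K, hK, hxK⟩)
    · exact notCO x (hFC x hx).1 h
    · exact Set.disjoint_left.1 hK.2.1 hxK (Or.inl (Or.inl (Or.inl hx)))
  have dAB : Disjoint Y' (O ∪ ⋃₀ Fam) := by
    rw [Set.disjoint_left]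
    rintro x hx (h | ⟨K, hK, hxK⟩)
    · exact Set.disjoint_left.1 bas2 h hx
    · exact Set.disjoint_left.1 hK.2.1 hxK (Or.inl (Or.inr hx))
  have p3 : ∀ u, u ∉ C → c u = 3 → paint c (H ∩ C) R f u = 3 := by
    intro u hu hc
    unfold paint
    split_ifs with h1 h2
    · rfl
    · exact absurd h2.2 hu
    · exact hc
  have pR : ∀ u ∈ R, paint c (H ∩ C) R f u = 3 := by
    intro u hu
    unfold paint
    rw [if_pos hu]
  refine ⟨O ∪ ⋃₀ Fam, ?_⟩
  constructor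
  · exact hF.1
  · exact Or.inr bas1
  · right
    exact hCN2 V G O Fam st.connO (fun S hS => ⟨hS.1, Or.inl hS.2.2⟩)
  · exact dFY
  · exact dFB
  · exact dAB
  · rw [Set.disjoint_left]
    rintro w hw ((h | h) | (h | ⟨K, hK, hwK⟩))
    · exact (hFC w h).2 (hOBH w hw)
    · rcases hw.1 with h1 | h1
      · exact elt1 w (Or.inr (Or.inl h1)) h
      · exact elt1 w (Or.inr (Or.inr h1)) h
    · rcases hw.1 with h1 | h1
      · exact notCO w (hRC w h1).2 h
      · exact (notCSY w h1.2).2 h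
    · exact Set.disjoint_left.1 hK.2.1 hwK (Or.inr hw)
  · intro x hx u hxu
    have tF : Tch G F {u} := ⟨x, hx, u, rfl, hxu⟩
    rcases nbf x hx u hxu with h | h | h | h | h | h | h | h
    · exact Or.inl h
    · exact absurd ⟨x, hx, u, h, hxu⟩ hFO
    · exact Or.inr (Or.inl (Or.inr h))
    · exact Or.inr (Or.inr (Or.inr (soB u h)))
    · by_cases hts : TS G F O Y' u
      · exact Or.inr (Or.inr (Or.inr (tsB u hts)))
      · exact Or.inr (Or.inr (Or.inl ⟨Or.inl h, tF, hts⟩))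
    · exact Or.inr (Or.inr (Or.inr (tsB u (tsa2 u h))))
    · by_cases hts : TS G F O Y' u
      · exact Or.inr (Or.inr (Or.inr (tsB u hts)))
      · exact Or.inr (Or.inr (Or.inl ⟨Or.inr h, tF, hts⟩))
    · exact Or.inr (Or.inr (Or.inr (tsB u (tsa1 u h))))
  · refine ⟨f, hf3, ?_⟩
    intro x hx u hu hxu
    have h := seeY x hx u hu hxu
    unfold paint
    rw [if_neg h.2, if_pos h.1]
  · intro u hu
    rcases hu.1 with h | h
    · exact pR u h
    · exact p3 u (notCSY u h.2).1 (st.cS u (Or.inr (Or.inl h.2)))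
  · intro x hx u hu hxu
    rcases nbf x hx u hxu with h | h | h | h | h | h | h | h
    · exact absurd hu (Set.disjoint_left.1 dFB h)
    · exact absurd ⟨x, hx, u, h, hxu⟩ hFO
    · exact absurd hu (Set.disjoint_left.1 dAB (Or.inr h))
    · exact p3 u (notCSO u h.1).1 (st.cS u (Or.inl h.1))
    · exact pR u h
    · exact p3 u (notCSO u h.2).1 (st.cS u (Or.inl h.2))
    · exact p3 u (notCSY u h.2).1 (st.cS u (Or.inr (Or.inl h.2)))
    · exact p3 u (notCDl u h) (st.cS u (Or.inr (Or.inr h)))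
  · intro w hw
    exact (elt2 w (hOBH w hw)).symm
  · intro _ _
    rcases lk2 with h | ⟨K, h1, h2, h3, h4⟩
    · exact h.mono Set.subset_union_left (le_refl _)
    · exact h4.mono (Set.subset_union_of_subset_right
        (Set.subset_sUnion_of_mem (inFam K h1 h2 h3 h4)) _) (le_refl _)
  · intro v hv
    exact (few4 v hv).2

end Pool.K4
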