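import Pool.Agent.Work.MP_768e99_four.Interface

/-!
# Block CM: the children on neither side
-/

set_option autoImplicit false

namespace Pool.K4

open Pool.Agent.Work.MP_768e99_co Pool.K3F

/-- The component of a vertex of `A_O` in `U - H` lies in `A_O`. -/
theorem CM_sub (hCMP : Pool.K3F.Stmt_CMP) {V : Type} {G : SimpleGraph V} {U H O : Set V} {a : V}
    (ha : a ∈ Sd G U H O) : Cmp G (U \ H) a ⊆ Sd G U H O := by
  obtain ⟨h1, h2, _, _⟩ := hCMP V G (U \ H)
  obtain ⟨hF, _⟩ := h1 a ha.1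
  intro w hw
  refine ⟨hF.2.1 hw, ?_⟩
  rw [h2 _ hF w hw]
  exact ha.2

theorem p_CM (hBAS : Stmt_BAS) (hELT : Stmt_ELT) (hNBM : Stmt_NBM) (hSDF : Stmt_SDF)
    (hCMP : Pool.K3F.Stmt_CMP) (hCN2 : Pool.K3F.Stmt_CN2) (hCN1 : Pool.K3F.Stmt_CN1) : Stmt_CM := by
  intro V _ G d C O Y SO SY Dl H R P c f hT hN hf F hF h1 h2
  obtain ⟨hb1, hb2, hb3, _⟩ := hBAS V G d C O Y SO SY Dl H R P c hT hN
  obtain ⟨he1, he2, he3⟩ := hELT V G d C O Y SO SY Dl H R P c hT hN
  have hnb := hNBM V G d C O Y SO SY Dl H R P c hT hN F hF h1 h2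
  have hd1 : Disjoint F (Sd G (C ∪ SO ∪ SY) H O) :=
    ((hSDF V G d C O Y SO SY Dl H R P c hT hN F hF).1).resolve_left h1
  have hd2 : Disjoint F (Sd G (C ∪ SO ∪ SY) H Y) := by
    have h3 := ((hSDF V G d C Y O SY SO Dl H R P c hT.symm hN.symm F hF).1).resolve_left h2
    rwa [Set.union_right_comm] at h3
  set Y' := Nw G C SO SY H R Y with hY'
  have hFC : F ⊆ C := fun x hx => (hF.2.1 hx).1
  have hFH : ∀ x ∈ F, x ∉ H := fun x hx => (hF.2.1 hx).2
  have hFY : Disjoint F Y' := by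
    rw [Set.disjoint_left]
    intro x hx hx'
    rcases hx' with (h | h) | h
    · exact Set.disjoint_left.1 hT.dCY (hFC hx) h
    · exact Set.disjoint_left.1 hd2 hx h
    · exact hFH x hx h.1.1
  have hFO : Disjoint F O := Set.disjoint_left.2 fun x hx hx' =>
    Set.disjoint_left.1 hT.dCO (hFC hx) hx'
  have hUO : Disjoint (C ∪ SO ∪ SY) O := by
    rw [Set.disjoint_left]
    intro x hx hx'
    rcases hx with (h | h) | h
    · exact Set.disjoint_left.1 hT.dCO h hx'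
    · exact Set.disjoint_left.1 hT.dSO h (Or.inl (Or.inr hx'))
    · exact Set.disjoint_left.1 hT.dSY h (Or.inl (Or.inr hx'))
  set 𝓚 : Set (Set V) := {K | Conn G K ∧ Disjoint K (F ∪ O ∪ Y') ∧ Tch G K O} with h𝓚
  set B := O ∪ ⋃₀ 𝓚 with hB
  have hOB : O ⊆ B := Set.subset_union_left
  have hKB : ∀ K ∈ 𝓚, K ⊆ B := fun K hK =>
    (Set.subset_sUnion_of_mem hK).trans Set.subset_union_right
  have hBF : Disjoint F B := by
    rw [Set.disjoint_left]
    rintro x hx (h | ⟨K, hK, h⟩)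
    · exact Set.disjoint_left.1 hFO hx h
    · exact Set.disjoint_left.1 hK.2.1 h (Or.inl (Or.inl hx))
  have hBY : Disjoint Y' B := by
    rw [Set.disjoint_left]
    rintro x hx (h | ⟨K, hK, h⟩)
    · exact Set.disjoint_left.1 hb2 h hx
    · exact Set.disjoint_left.1 hK.2.1 h (Or.inr hx)
  -- the components in `A_O`
  have hcmp : ∀ a ∈ Sd G (C ∪ SO ∪ SY) H O, Conn G (Cmp G ((C ∪ SO ∪ SY) \ H) a) ∧
      a ∈ Cmp G ((C ∪ SO ∪ SY) \ H) a ∧
      Disjoint (Cmp G ((C ∪ SO ∪ SY) \ H) a) (F ∪ O ∪ Y') ∧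
      Tch G (Cmp G ((C ∪ SO ∪ SY) \ H) a) O := by
    intro a ha
    obtain ⟨h3, h4⟩ := (hCMP V G ((C ∪ SO ∪ SY) \ H)).1 a ha.1
    have h5 := CM_sub hCMP ha
    refine ⟨h3.1, h4, ?_, ha.2⟩
    rw [Set.disjoint_left]
    rintro x hx ((h | h) | h)
    · exact Set.disjoint_left.1 hd1 h (h5 hx)
    · exact Set.disjoint_left.1 hUO (h3.2.1 hx).1 h
    · exact Set.disjoint_left.1 hb3 (h5 hx) h
  -- the elements of the cut outside `Y'`
  have hz : ∀ z ∈ H, z ∉ Y' → z ∈ B := by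
    intro z hzH hzY
    have hzF : z ∉ F := fun h => hFH z h hzH
    have hzO : z ∉ O := fun h => Set.disjoint_left.1 hUO (hN.cut.sub hzH) h
    have hzd : Disjoint ({z} : Set V) (F ∪ O ∪ Y') := by
      rw [Set.disjoint_left]
      rintro x hx ((h | h) | h)
      · exact hzF (hx ▸ h)
      · exact hzO (hx ▸ h)
      · exact hzY (hx ▸ h)
    obtain ⟨x, hx, y, hy, hxy⟩ := hN.sideO.2 z hzH
    have hx' : x = z := hx
    subst hx'
    rcases hy with hy | hy
    · exact hKB {x} ⟨Conn.singleton x, hzd, ⟨x, rfl, y, hy, hxy⟩⟩ rfl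
    · obtain ⟨k1, k2, k3, k4⟩ := hcmp y hy
      have k5 : Conn G ({x} ∪ Cmp G ((C ∪ SO ∪ SY) \ H) y) :=
        hCN1 V G _ _ (Conn.singleton x) k1 (Or.inl ⟨x, rfl, y, k2, hxy⟩)
      have k6 : Disjoint ({x} ∪ Cmp G ((C ∪ SO ∪ SY) \ H) y) (F ∪ O ∪ Y') :=
        Set.disjoint_union_left.2 ⟨hzd, k3⟩
      exact hKB _ ⟨k5, k6, k4.mono Set.subset_union_right subset_rfl⟩ (Or.inl rfl)
  have hdl : ∀ u ∈ Dl, u ∈ B ∧ u ∉ C := by
    intro u hu
    obtain ⟨K, k1, k2, k3, k4, _⟩ := hT.cl u hu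
    have k5 := he3 K k3
    refine ⟨hKB K ⟨k1, ?_, k4⟩ k2, ?_⟩
    · rw [Set.disjoint_left]
      rintro x hx ((h | h) | h)
      · exact Set.disjoint_left.1 k3 hx (Or.inl (Or.inl (Or.inl (Or.inl (hFC h)))))
      · exact Set.disjoint_left.1 k3 hx (Or.inl (Or.inl (Or.inl (Or.inr h))))
      · exact Set.disjoint_left.1 k5 hx h
    · intro h
      exact Set.disjoint_left.1 k3 k2 (Or.inl (Or.inl (Or.inl (Or.inl h))))
  have hcol : ∀ u, u ∉ C → c u = 3 → paint c (H ∩ C) R f u = 3 := by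
    intro u hu hc
    unfold paint
    by_cases h3 : u ∈ R
    · rw [if_pos h3]
    · rw [if_neg h3, if_neg (fun h4 => hu h4.2)]
      exact hc
  refine ⟨B, ?_⟩
  refine
    { conn := hF.1
      connA := Or.inr hb1
      connB := Or.inr (hCN2 V G O 𝓚 hT.connO fun K hK => ⟨hK.1, Or.inl hK.2.2⟩)
      dCA := hFY
      dCB := hBF
      dAB := hBY
      dW := Set.empty_disjoint _
      out := ?_
      cA := ⟨f, hf, ?_⟩
      cW := fun u hu => absurd hu (Set.notMem_empty u)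
      cB := ?_
      sA := fun u hu => absurd hu (Set.notMem_empty u)
      tAB := ?_
      few := ?_ }
  · intro x hx u hu
    rcases hnb x hx u hu with h | h | h | h | h | h
    · exact Or.inl h
    · exact Or.inr (Or.inl (Or.inr h))
    · exact Or.inr (Or.inr (Or.inr (hz u (hN.sub h).1 (he1 u (Or.inr (Or.inl h))))))
    · exact Or.inr (Or.inr (Or.inr (hz u h.1 (he1 u (Or.inl h.2)))))
    · exact Or.inr (Or.inr (Or.inr (hz u h.1 (he1 u (Or.inr (Or.inr h))))))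
    · exact Or.inr (Or.inr (Or.inr (hdl u h).1))
  · intro x hx u huY hu
    rcases hnb x hx u hu with h | h | h | h | h | h
    · exact absurd huY (Set.disjoint_left.1 hFY h)
    · unfold paint
      rw [if_neg h.2, if_pos h.1]
    · exact absurd huY (he1 u (Or.inr (Or.inl h)))
    · exact absurd huY (he1 u (Or.inl h.2))
    · exact absurd huY (he1 u (Or.inr (Or.inr h)))
    · exact absurd (hdl u h).1 (Set.disjoint_left.1 hBY huY)
  · intro x hx u huB hu
    rcases hnb x hx u hu with h | h | h | h | h | h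
    · exact absurd huB (Set.disjoint_left.1 hBF h)
    · exact absurd huB (Set.disjoint_left.1 hBY (Or.inr h))
    · unfold paint
      rw [if_pos h]
    · exact hcol u (fun h3 => Set.disjoint_left.1 hT.dSO h.2 (Or.inl (Or.inl h3)))
        (hT.cS u (Or.inl h.2))
    · exact hcol u (fun h3 => Set.disjoint_left.1 hT.dSY h.2 (Or.inl (Or.inl h3)))
        (hT.cS u (Or.inr (Or.inl h.2)))
    · exact hcol u (hdl u h).2 (hT.cS u (Or.inr (Or.inr h)))
  · intro _ _
    obtain ⟨z, hzH, hzC⟩ := hN.ne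
    by_cases hzR : z ∈ R
    · have k1 : z ∈ B := hz z hzH (he1 z (Or.inr (Or.inl hzR)))
      exact (he2 z hzH).mono (Set.singleton_subset_iff.2 k1) subset_rfl
    · have k1 : z ∈ Y' := Or.inr ⟨⟨hzH, hzC⟩, hzR⟩
      obtain ⟨x, hx, y, hy, hxy⟩ := hN.sideO.2 z hzH
      have hx' : x = z := hx
      subst hx'
      rcases hy with hy | hy
      · exact ⟨y, hOB hy, x, k1, hxy.symm⟩
      · obtain ⟨k2, k3, k4, k5⟩ := hcmp y hy
        exact ⟨y, hKB _ ⟨k2, k4, k5⟩ k3, x, k1, hxy.symm⟩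
  · intro v _
    have h3 : nb G v ∅ = ∅ := by
      ext y
      simp [nb]
    rw [h3]
    simp

end Pool.K4
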