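import Pool.Agent.Work.MP_768e99_four.Interface

/-!
# Block DJ of the four colour theorem

The two sides of a cut are disjoint.
-/

set_option autoImplicit false

namespace Pool.K4

open Pool.Agent.Work.MP_768e99_co Pool.K3F

theorem p_DJ (hCMP : Stmt_CMP) : Stmt_DJ := by
  intro V G U O Y H P hcut
  rw [Set.disjoint_left]
  rintro v ⟨hv, hO⟩ ⟨_, hY⟩
  obtain ⟨⟨hc, hs, _⟩, _⟩ := (hCMP V G (U \ H)).1 v hv
  exact hcut.sep _ hs hc ⟨hO, hY⟩

end Pool.K4
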