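import Pool.Agent.Work.MP_768e99_four.Interface

/-! # Block ELT -/

set_option autoImplicit false

namespace Pool.K4

open Pool.Agent.Work.MP_768e99_co Pool.K3F

theorem p_ELT (h1 : Stmt_DJ) (h2 : Pool.K3F.Stmt_CMP) : Stmt_ELT := by
  intro V G d C O Y SO SY Dl H R P c hT hN
  refine ⟨?_, ?_, ?_⟩
  · intro z hz hzN
    rcases hz with hz | hz | ⟨hzH, hz⟩
    · have hd := hT.dSO
      rcases hzN with (hzY | hzS) | ⟨hzC, _⟩
      · exact Set.disjoint_left.1 hd hz (Or.inr hzY)
      · have hzO : z ∈ Sd G (C ∪ SO ∪ SY) H O := by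
          refine ⟨hzS.1, ?_⟩
          obtain ⟨a, haO, b, hb, hab⟩ := (hT.sO z hz).2.1
          rw [Set.mem_singleton_iff] at hb
          subst hb
          exact ⟨b, ((h2 V G ((C ∪ SO ∪ SY) \ H)).1 b hzS.1).2, a, haO, hab.symm⟩
        exact Set.disjoint_left.1 (h1 V G _ O Y H P hN.cut) hzO hzS
      · exact Set.disjoint_left.1 hd hz (Or.inl (Or.inl hzC.2))
    · have hzHC := hN.sub hz
      rcases hzN with (hzY | hzS) | ⟨_, hzR⟩
      · exact Set.disjoint_left.1 hT.dCY hzHC.2 hzY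
      · exact hzS.1.2 hzHC.1
      · exact hzR hz
    · have hd := hT.dSY
      rcases hzN with (hzY | hzS) | ⟨hzC, _⟩
      · exact Set.disjoint_left.1 hd hz (Or.inr hzY)
      · exact hzS.1.2 hzH
      · exact Set.disjoint_left.1 hd hz (Or.inl (Or.inl hzC.2))
  · intro z hz
    exact (hN.sideY.2 z hz).mono subset_rfl Set.subset_union_left
  · intro K hK
    refine hK.mono_right ?_
    rintro x ((hx | hx) | hx)
    · exact Or.inl (Or.inl (Or.inr hx))
    · rcases hx.1.1 with (hx | hx) | hx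
      · exact Or.inl (Or.inl (Or.inl (Or.inl hx)))
      · exact Or.inl (Or.inr hx)
      · exact Or.inr hx
    · exact Or.inl (Or.inl (Or.inl (Or.inl hx.1.2)))

end Pool.K4
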