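import Pool.Agent.Work.MP_768e99_four.Interface

/-!
# Four colours for `K_{3,s}`-minor-free graphs: block FEW4
-/

set_option autoImplicit false

namespace Pool.K4

open Pool.Agent.Work.MP_768e99_co Pool.K3F

theorem FEW4_pair {V : Type} (G : SimpleGraph V) (r v : V) (h : G.Adj r v) :
    Conn G ({r, v} : Set V) := by
  refine ⟨⟨r, Or.inl rfl⟩, ?_⟩
  intro T hT hne hcl x hx
  obtain ⟨z, hz⟩ := hne
  rcases hT hz with rfl | hzv
  · rcases hx with rfl | hxv
    · exact hz
    · rw [Set.mem_singleton_iff] at hxv
      subst hxv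
      exact hcl _ hz _ (Or.inr rfl) h
  · rw [Set.mem_singleton_iff] at hzv
    subst hzv
    rcases hx with rfl | hxv
    · exact hcl _ hz _ (Or.inl rfl) h.symm
    · rw [Set.mem_singleton_iff] at hxv
      subst hxv
      exact hz

theorem p_FEW4 (hK3 : Pool.K3F.Stmt_K3) : Stmt_FEW4 := by
  intro V _ G d C O Y SO SY Dl H R P c hfree st nd F hF hFS v hv
  have hvCH : v ∈ C \ H := hF.2.1 hv
  have hvC : v ∈ C := hvCH.1
  constructor
  · refine le_trans (Set.ncard_le_ncard ?_ (Set.toFinite _)) (st.few v hvC).1
    rintro z ⟨⟨hz, -, -⟩, hadj⟩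
    exact ⟨hz.1, hadj⟩
  · by_contra hcon
    rw [not_le] at hcon
    by_cases hR : ∃ r ∈ R, G.Adj v r
    · obtain ⟨r, hrR, hvr⟩ := hR
      have hrHC : r ∈ H ∩ C := nd.sub hrR
      -- two further neighbours
      set B : Set V := nb G v (OB G C SO SY H R O Y F) with hB
      have hB2 : 1 < (B \ {r}).ncard := by
        have h1 : B.ncard ≤ (B \ {r}).ncard + ({r} : Set V).ncard := by
          have h2 : B ⊆ (B \ {r}) ∪ {r} := by
            intro z hz
            by_cases hzr : z = r
            · exact Or.inr hzr
            · exact Or.inl ⟨hz, hzr⟩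
          exact (Set.ncard_le_ncard h2 (Set.toFinite _)).trans (Set.ncard_union_le _ _)
        rw [Set.ncard_singleton] at h1
        omega
      obtain ⟨u₁, hu₁, u₂, hu₂, hne⟩ := (Set.one_lt_ncard (Set.toFinite _)).1 hB2
      have hmem : ∀ u ∈ B \ {r}, u ∈ H ∧ G.Adj v u ∧ ¬ G.Adj r u ∧ u ≠ r := by
        rintro u ⟨⟨⟨hu, -, -⟩, hadj⟩, hur⟩
        rcases hu with hu | hu
        · exact ⟨(nd.sub hu).1, hadj, nd.ind r hrR u hu, hur⟩
        · refine ⟨hu.1, hadj, ?_, hur⟩
          intro hru
          have hC := nd.noS r hrR u hu.1 hru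
          exact Set.disjoint_left.1 st.dSY hu.2 (Or.inl (Or.inl hC))
      obtain ⟨a1, a2, a3, a4⟩ := hmem u₁ hu₁
      obtain ⟨b1, b2, b3, b4⟩ := hmem u₂ hu₂
      set J : Set V := nb G r (H ∩ C) ∪ {u₁, u₂} with hJ
      have hJH : ∀ y ∈ J, y ∈ H := by
        rintro y (hy | hy)
        · exact hy.1.1
        · rcases hy with rfl | hy
          · exact a1
          · rw [Set.mem_singleton_iff] at hy
            subst hy
            exact b1
      have hJr : ∀ y ∈ J, y ≠ r := by
        rintro y (hy | hy) rfl
        · exact G.irrefl hy.2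
        · rcases hy with h | h
          · exact a4 h.symm
          · exact b4 (Set.mem_singleton_iff.1 h).symm
      have hJc : d + 3 ≤ J.ncard := by
        have hdisj : Disjoint (nb G r (H ∩ C)) ({u₁, u₂} : Set V) := by
          rw [Set.disjoint_left]
          rintro y hy (rfl | h)
          · exact a3 hy.2
          · rw [Set.mem_singleton_iff] at h
            subst h
            exact b3 hy.2
        rw [hJ, Set.ncard_union_eq hdisj (Set.toFinite _) (Set.toFinite _),
          Set.ncard_pair hne]
        have := nd.degR r hrR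
        omega
      set I : Set V := J \ {y | v ∈ P y} with hI
      have hone : (J ∩ {y | v ∈ P y}).ncard ≤ 1 := by
        rw [Set.ncard_le_one (Set.toFinite _)]
        rintro a ⟨ha, hva⟩ b ⟨hb, hvb⟩
        by_contra hab
        exact Set.disjoint_left.1 (nd.cut.dj a (hJH a ha) b (hJH b hb) hab) hva hvb
      have hIc : d + 2 ≤ I.ncard := by
        have h1 : J.ncard ≤ I.ncard + (J ∩ {y | v ∈ P y}).ncard := by
          have h2 : J ⊆ I ∪ (J ∩ {y | v ∈ P y}) := by
            intro z hz
            by_cases hzv : v ∈ P z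
            · exact Or.inr ⟨hz, hzv⟩
            · exact Or.inl ⟨hz, hzv⟩
          exact (Set.ncard_le_ncard h2 (Set.toFinite _)).trans (Set.ncard_union_le _ _)
        omega
      have hUO : Disjoint (C ∪ SO ∪ SY) O := by
        rw [Set.disjoint_left]
        rintro z ((hz | hz) | hz) hzO
        · exact Set.disjoint_left.1 st.dCO hz hzO
        · exact Set.disjoint_left.1 st.dSO hz (Or.inl (Or.inr hzO))
        · exact Set.disjoint_left.1 st.dSY hz (Or.inl (Or.inr hzO))
      have hUY : Disjoint (C ∪ SO ∪ SY) Y := by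
        rw [Set.disjoint_left]
        rintro z ((hz | hz) | hz) hzY
        · exact Set.disjoint_left.1 st.dCY hz hzY
        · exact Set.disjoint_left.1 st.dSO hz (Or.inr hzY)
        · exact Set.disjoint_left.1 st.dSY hz (Or.inr hzY)
      have hA : ({r, v} : Set V) ⊆ C := by
        rintro z (rfl | hz)
        · exact hrHC.2
        · rw [Set.mem_singleton_iff] at hz
          subst hz
          exact hvC
      refine hfree (hK3 V G (d + 2) {r, v} O Y V I P (FEW4_pair G r v hvr.symm) st.connO
        st.connY (st.dCO.mono_left hA) (st.dCY.mono_left hA) st.dOY ?_ ?_ hIc)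
      · intro y hy
        have hyH := hJH y hy.1
        obtain ⟨p1, p2, p3, p4, p5, p6⟩ := nd.cut.path y hyH
        refine ⟨p1, ?_, (hUO.mono_left p3).symm, (hUY.mono_left p3).symm, ?_, p5, p6⟩
        · rw [Set.disjoint_left]
          rintro z (rfl | hz) hzP
          · have h1 : z ∈ P y ∩ H := ⟨hzP, hrHC.1⟩
            rw [p4, Set.mem_singleton_iff] at h1
            exact hJr y hy.1 h1.symm
          · rw [Set.mem_singleton_iff] at hz
            subst hz
            exact hy.2 hzP
        · rcases hy.1 with h | h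
          · exact ⟨y, p2, r, Or.inl rfl, h.2.symm⟩
          · have hvy : G.Adj v y := by
              rcases h with rfl | h
              · exact a2
              · rw [Set.mem_singleton_iff] at h
                subst h
                exact b2
            exact ⟨y, p2, v, Or.inr rfl, hvy.symm⟩
      · intro y hy y' hy' hyy
        exact nd.cut.dj y (hJH y hy.1) y' (hJH y' hy'.1) hyy
    · have h1 : (nb G v (OB G C SO SY H R O Y F)).ncard ≤ (nb G v SY).ncard := by
        refine Set.ncard_le_ncard ?_ (Set.toFinite _)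
        rintro z ⟨⟨hz, -, -⟩, hadj⟩
        rcases hz with hz | hz
        · exact absurd ⟨z, hz, hadj⟩ hR
        · exact ⟨hz.2, hadj⟩
      have := (st.few v hvC).2
      omega

end Pool.K4
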