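import Pool.Agent.Work.MP_768e99_four.Interface

/-!
# Four colours for `K_{3,s}`-minor-free graphs: block FIN4
-/

set_option autoImplicit false

namespace Pool.K4

open Pool.Agent.Work.MP_768e99_co Pool.K3F

theorem p_FIN4 (h : Stmt_ALL4) : Stmt_FIN4 := by
  intro d hd V _ G hG
  exact h V G d hd (not_KM_of_not_minor hG)

end Pool.K4
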