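import Pool.Agent.Work.MP_768e99_four.Interface

/-!
# Four colours for `K_{3,s}`-minor-free graphs: block `GL4`
-/

set_option autoImplicit false

namespace Pool.K4

open Pool.Agent.Work.MP_768e99_co Pool.K3F

theorem p_GL4 (hCMP : Stmt_CMP) : Stmt_GL4 := by
  classical
  intro V G S c₁ cF
  obtain ⟨-, h2, -, -⟩ := hCMP V G S
  refine ⟨fun v => if v ∈ S then cF (Cmp G S v) v else c₁ v, ?_, ?_⟩
  · intro v hv
    exact if_neg hv
  · intro F hF v hv
    have hvS : v ∈ S := hF.2.1 hv
    show (if v ∈ S then cF (Cmp G S v) v else c₁ v) = cF F v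
    rw [if_pos hvS, h2 F hF v hv]

end Pool.K4
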