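import Pool.Agent.Work.MP_768e99_four.Interface

/-! # Block GN (helper79): gluing to a `Nod` -/

set_option autoImplicit false

namespace Pool.K4

open Pool.Agent.Work.MP_768e99_co Pool.K3F

theorem GN_conn {V : Type} {G : SimpleGraph V} {S : Set V} {v : V} (hv : (Cmp G S v).Nonempty) :
    Conn G (Cmp G S v) := by
  refine ⟨hv, ?_⟩
  intro A hA hne hcl w hw
  have hT : ∀ T : Set V, T ⊆ S → Conn G T → v ∈ T → (A ∩ T).Nonempty → T ⊆ A := by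
    intro T hTS hTc hvT hAT
    have hTC : T ⊆ Cmp G S v := fun x hx => ⟨T, hTS, hTc, hvT, hx⟩
    have h1 := hTc.2 (A ∩ T) Set.inter_subset_right hAT (fun a ha b hb hab =>
      ⟨hcl a ha.1 b (hTC hb) hab, hb⟩)
    exact fun x hx => (h1 hx).1
  obtain ⟨a, ha⟩ := hne
  obtain ⟨T, hTS, hTc, hvT, haT⟩ := hA ha
  have hvA : v ∈ A := hT T hTS hTc hvT ⟨a, ha, haT⟩ hvT
  obtain ⟨T', hTS', hTc', hvT', hwT'⟩ := hw
  exact hT T' hTS' hTc' hvT' ⟨v, hvA, hvT'⟩ hwT'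

theorem GN_not_both {V : Type} {G : SimpleGraph V} {C O Y SO SY H : Set V} {P : V → Set V}
    (hcut : IsCut G O Y (C ∪ SO ∪ SY) H P) {F : Set V} (hF : F.Nonempty)
    (h1 : F ⊆ Sd G (C ∪ SO ∪ SY) H O) (h2 : F ⊆ Sd G (C ∪ SY ∪ SO) H Y) : False := by
  obtain ⟨v, hv⟩ := hF
  obtain ⟨_, h3⟩ := h1 hv
  obtain ⟨_, h4⟩ := h2 hv
  rw [Set.union_right_comm] at h4
  have hne : (Cmp G ((C ∪ SO ∪ SY) \ H) v).Nonempty := by
    obtain ⟨x, hx, _⟩ := h3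
    exact ⟨x, hx⟩
  refine hcut.sep _ ?_ (GN_conn hne) ⟨h3, h4⟩
  rintro w ⟨T, hT, _, _, hw⟩
  exact hT hw

theorem GN_side (hCN : Stmt_CN) (hCJ1 : Stmt_CJ1) (hCJ2 : Stmt_CJ2) {V : Type} [Fintype V]
    {G : SimpleGraph V} {d : ℕ} {C O Y SO SY Dl H R : Set V} {P : V → Set V} {c₀ : V → Fin 4}
    {f : Fin 4} (hfree : Free G (d + 2)) (hT : T2 G C O Y SO SY Dl c₀)
    (hN : Nd G d C O Y SO SY Dl H R P) (hf : f ≠ 3)
    (ih1 : ∀ (C' O' Y' SO' SY' Dl' : Set V) (c' : V → Fin 4), C'.ncard < C.ncard →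
      T2 G C' O' Y' SO' SY' Dl' c' → ∃ c, Gd G d C' (SO' ∪ SY') c' c)
    (ih2 : ∀ (C' A W B : Set V) (c' : V → Fin 4), C'.ncard < C.ncard → T1 G C' A W B c' →
      ∃ c, Gd G d C' W c' c)
    {F : Set V} (hF : IsCmp G (C \ H) F) (hFO : F ⊆ Sd G (C ∪ SO ∪ SY) H O)
    (hlt : F.ncard < C.ncard) :
    ∃ (S : Set V) (c' : V → Fin 4), S ⊆ OA G C SO SY H R O Y F ∪ OB G C SO SY H R O Y F ∧
      Gd G d F S (paint c₀ (H ∩ C) R f) c' := by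
  by_cases h1 : Tch G F O
  · by_cases h2 : Tch G F ((H ∩ C) \ R)
    · obtain ⟨c', hc'⟩ := ih1 _ _ _ _ _ _ _ hlt
        (hCN V G d C O Y SO SY Dl H R P c₀ f hfree hT hN hf F hF hFO h1 h2)
      exact ⟨_, c', subset_rfl, hc'⟩
    · obtain ⟨B, hB⟩ := hCJ1 V G d C O Y SO SY Dl H R P c₀ f hfree hT hN hf F hF hFO h1 h2
      obtain ⟨c', hc'⟩ := ih2 _ _ _ _ _ hlt hB
      exact ⟨_, c', Set.subset_union_left, hc'⟩
  · obtain ⟨B, hB⟩ := hCJ2 V G d C O Y SO SY Dl H R P c₀ f hfree hT hN hf F hF hFO h1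
    obtain ⟨c', hc'⟩ := ih2 _ _ _ _ _ hlt hB
    exact ⟨_, c', Set.subset_union_right, hc'⟩

theorem GN_out {V : Type} {G : SimpleGraph V} {d : ℕ} {C O Y SO SY Dl H R : Set V} {P : V → Set V}
    {c₀ : V → Fin 4} (hT : T2 G C O Y SO SY Dl c₀) (hN : Nd G d C O Y SO SY Dl H R P) {F : Set V}
    {u : V} (hu : u ∈ OA G C SO SY H R O Y F ∪ OB G C SO SY H R O Y F) : u ∉ C \ H := by
  rintro ⟨huC, huH⟩
  rcases hu with hu | hu
  · exact Set.disjoint_left.1 hT.dSO hu.1.1 (Or.inl (Or.inl huC))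
  · rcases hu.1 with h | h
    · exact huH (hN.sub h).1
    · exact huH h.1

theorem GN_tr (hTR4 : Stmt_TR4) {V : Type} {G : SimpleGraph V} {d : ℕ} {C H F S S' : Set V}
    {c₁ c' c : V → Fin 4} (hF : IsCmp G (C \ H) F) (hS : S ⊆ S') (hS' : ∀ u ∈ S', u ∉ C \ H)
    (hg : Gd G d F S c₁ c') (h1 : ∀ v, v ∉ C \ H → c v = c₁ v) (h2 : ∀ v ∈ F, c v = c' v) :
    Gd G d F S' c c := by
  have h3 : ∀ u, u ∉ C \ H → c u = c' u := fun u hu => by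
    rw [h1 u hu, hg.off u (fun h => hu (hF.2.1 h))]
  refine hTR4 V G d F S S' c₁ c' c h2 ?_ (fun u hu => h3 u (hS' u hu)) hS ?_ hg
  · intro x hx u hxu
    by_cases hu : u ∈ C \ H
    · exact h2 u (hF.2.2 x hx u hu hxu)
    · exact h3 u hu
  · exact Set.disjoint_left.2 fun u hu huF => hS' u hu (hF.2.1 huF)

theorem p_GN (hCN : Stmt_CN) (hCJ1 : Stmt_CJ1) (hCJ2 : Stmt_CJ2) (hCM : Stmt_CM)
    (hGL4 : Stmt_GL4) (hTR4 : Stmt_TR4) : Stmt_GN := by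
  intro V _ G d C O Y SO SY Dl H R P c₀ f hfree hT hN hf hfvis ih1 ih2
  have hlt : ∀ F, IsCmp G (C \ H) F → F.ncard < C.ncard := by
    intro F hF
    refine Set.ncard_lt_ncard ⟨fun x hx => (hF.2.1 hx).1, fun hCF => ?_⟩ (Set.toFinite _)
    obtain ⟨h, hh⟩ := hN.ne
    exact (hF.2.1 (hCF hh.2)).2 hh.1
  have hnb : ∀ F, IsCmp G (C \ H) F → F ⊆ Sd G (C ∪ SO ∪ SY) H O →
      F ⊆ Sd G (C ∪ SY ∪ SO) H Y → False := fun F hF h1 h2 => GN_not_both hN.cut hF.1.1 h1 h2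
  have key : ∀ F, ∃ c' : V → Fin 4, IsCmp G (C \ H) F →
      (F ⊆ Sd G (C ∪ SO ∪ SY) H O →
        ∃ S, S ⊆ OA G C SO SY H R O Y F ∪ OB G C SO SY H R O Y F ∧
          Gd G d F S (paint c₀ (H ∩ C) R f) c') ∧
      (F ⊆ Sd G (C ∪ SY ∪ SO) H Y →
        ∃ S, S ⊆ OA G C SY SO H R Y O F ∪ OB G C SY SO H R Y O F ∧
          Gd G d F S (paint c₀ (H ∩ C) R f) c') ∧
      (¬ F ⊆ Sd G (C ∪ SO ∪ SY) H O → ¬ F ⊆ Sd G (C ∪ SY ∪ SO) H Y →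
        Gd G d F ∅ (paint c₀ (H ∩ C) R f) c') := by
    intro F
    by_cases hF : IsCmp G (C \ H) F
    · by_cases h1 : F ⊆ Sd G (C ∪ SO ∪ SY) H O
      · obtain ⟨S, c', hS, hc'⟩ := GN_side hCN hCJ1 hCJ2 hfree hT hN hf ih1 ih2 hF h1 (hlt F hF)
        exact ⟨c', fun _ => ⟨fun _ => ⟨S, hS, hc'⟩, fun h2 => (hnb F hF h1 h2).elim,
          fun h _ => absurd h1 h⟩⟩
      · by_cases h2 : F ⊆ Sd G (C ∪ SY ∪ SO) H Y
        · obtain ⟨S, c', hS, hc'⟩ := GN_side hCN hCJ1 hCJ2 hfree hT.symm hN.symm hf ih1 ih2 hF h2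
            (hlt F hF)
          exact ⟨c', fun _ => ⟨fun h => absurd h h1, fun _ => ⟨S, hS, hc'⟩, fun _ h => absurd h2 h⟩⟩
        · obtain ⟨B, hB⟩ := hCM V G d C O Y SO SY Dl H R P c₀ f hT hN hf F hF h1 h2
          obtain ⟨c', hc'⟩ := ih2 _ _ _ _ _ (hlt F hF) hB
          exact ⟨c', fun _ => ⟨fun h => absurd h h1, fun h => absurd h h2, fun _ _ => hc'⟩⟩
    · exact ⟨c₀, fun h => absurd h hF⟩
  choose cF hcF using key
  obtain ⟨c, hc1, hc2⟩ := hGL4 V G (C \ H) (paint c₀ (H ∩ C) R f) cF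
  refine ⟨c, hT, hN, hf, ?_, ?_, ?_, hfvis, ?_, ?_, ?_⟩
  · intro v hv
    rw [hc1 v (fun h => h.2 hv.1.1)]
    unfold paint
    rw [if_neg hv.2, if_pos hv.1]
  · intro v hv
    rw [hc1 v (fun h => h.2 (hN.sub hv).1)]
    unfold paint
    rw [if_pos hv]
  · intro v hv
    rw [hc1 v (fun h => hv h.1)]
    unfold paint
    rw [if_neg (fun h => hv (hN.sub h).2), if_neg (fun h => hv h.2)]
  · intro F hF hFO
    obtain ⟨S, hS, hg⟩ := (hcF F hF).1 hFO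
    exact GN_tr hTR4 hF hS (fun u hu => GN_out hT hN hu) hg hc1 (hc2 F hF)
  · intro F hF hFY
    obtain ⟨S, hS, hg⟩ := (hcF F hF).2.1 hFY
    exact GN_tr hTR4 hF hS (fun u hu => GN_out hT.symm hN.symm hu) hg hc1 (hc2 F hF)
  · intro F hF h1 h2
    exact GN_tr hTR4 hF subset_rfl (fun u hu => absurd hu (Set.notMem_empty u))
      ((hcF F hF).2.2 h1 h2) hc1 (hc2 F hF)

end Pool.K4
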