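import Pool.Agent.Work.MP_768e99_four.Interface

/-!
# Block LK1: a link between `O` and the new root outside a child which does not touch `M`
(typed by helper6)
-/

set_option autoImplicit false

namespace Pool.K4

open Pool.Agent.Work.MP_768e99_co Pool.K3F

theorem LK1_single {V : Type} (G : SimpleGraph V) (x : V) : Conn G {x} := by
  refine ⟨Set.singleton_nonempty x, ?_⟩
  intro T hT hne hcl
  obtain ⟨y, hy⟩ := hne
  have h1 : y = x := hT hy
  intro z hz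
  have h2 : z = x := hz
  rw [h2, ← h1]
  exact hy

theorem p_LK1 (hSDF : Stmt_SDF) (hTH : Stmt_TH) (hBAS : Stmt_BAS) (hELT : Stmt_ELT)
    (hCMP : Stmt_CMP) (hDJ : Stmt_DJ) (hCN1 : Stmt_CN1) : Stmt_LK1 := by
  intro V G d C O Y SO SY Dl H R P c st nd F hF hFO hnt
  have hM : (H ∩ C) \ R ⊆ Nw G C SO SY H R Y := fun x hx => Or.inr hx
  obtain ⟨hE1, -, -⟩ := hELT V G d C O Y SO SY Dl H R P c st nd
  -- an element of `SO` avoids `F ∪ O ∪ Y'`
  have hSOd : ∀ z ∈ SO, z ∉ F ∪ O ∪ Nw G C SO SY H R Y := by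
    intro z hz
    have h0 := Set.disjoint_left.1 st.dSO hz
    rintro ((h | h) | h)
    · exact h0 (Or.inl (Or.inl (hF.2.1 h).1))
    · exact h0 (Or.inl (Or.inr h))
    · exact hE1 z (Or.inl hz) h
  obtain ⟨a, ha, x, hx, hax⟩ := hTH V G C H F st.conn nd.ne hF
  have hxR : x ∈ R := by
    by_contra hR
    exact hnt ⟨a, ha, x, ⟨hx, hR⟩, hax⟩
  have hdeg := nd.degR x hxR
  have hne : (nb G x (H ∩ C)).Nonempty := by
    rw [Set.nonempty_iff_ne_empty]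
    intro h
    rw [h, Set.ncard_empty] at hdeg
    omega
  obtain ⟨y, hy, hxy⟩ := hne
  have hyR : y ∉ R := fun h => nd.ind x hxR y h hxy
  have hyM : y ∈ (H ∩ C) \ R := ⟨hy, hyR⟩
  obtain ⟨y', hy', w, hw, hyw⟩ := nd.sideO.2 y hy.1
  have hy'' : y' = y := hy'
  subst hy''
  rcases hw with hw | hw
  · exact Or.inl ⟨w, hw, y', hM hyM, hyw.symm⟩
  · right
    obtain ⟨⟨hwU, hwH⟩, hwO⟩ := hw
    rcases hwU with (hwC | hwSO) | hwSY
    · -- `w ∈ C \ H`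
      obtain ⟨h1, -, h3, -⟩ := hCMP V G (C \ H)
      obtain ⟨hF2, hw2⟩ := h1 w ⟨hwC, hwH⟩
      have hneF : Cmp G (C \ H) w ≠ F := by
        intro h
        rw [h] at hw2
        exact hnt ⟨w, hw2, y', hyM, hyw.symm⟩
      obtain ⟨hs1, hs2, -, -⟩ := hSDF V G d C O Y SO SY Dl H R P c st nd _ hF2
      have hsub : Cmp G (C \ H) w ⊆ Sd G (C ∪ SO ∪ SY) H O := by
        rcases hs1 with h | h
        · exact h
        · exact absurd (⟨⟨Or.inl (Or.inl hwC), hwH⟩, hwO⟩ : w ∈ Sd G (C ∪ SO ∪ SY) H O)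
            (Set.disjoint_left.1 h hw2)
      obtain ⟨-, -, -, hB⟩ := hBAS V G d C O Y SO SY Dl H R P c st nd
      obtain ⟨hdN, -⟩ := hB _ hF2 hsub
      have hdF : Disjoint (Cmp G (C \ H) w) F := h3 _ _ hF2 hF hneF
      have hdO : Disjoint (Cmp G (C \ H) w) O :=
        Set.disjoint_of_subset_left (fun x hx => (hF2.2.1 hx).1) st.dCO
      have hdis : Disjoint (Cmp G (C \ H) w) (F ∪ O ∪ Nw G C SO SY H R Y) :=
        Set.disjoint_union_right.2 ⟨Set.disjoint_union_right.2 ⟨hdF, hdO⟩, hdN⟩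
      have htY : Tch G (Cmp G (C \ H) w) (Nw G C SO SY H R Y) :=
        ⟨w, hw2, y', hM hyM, hyw.symm⟩
      rcases hs2 hsub with ht | ⟨z, hz, hzt⟩
      · exact ⟨Cmp G (C \ H) w, hF2.1, hdis, ht, htY⟩
      · refine ⟨Cmp G (C \ H) w ∪ {z}, ?_, ?_, ?_, ?_⟩
        · exact hCN1 V G _ _ hF2.1 (LK1_single G z) (Or.inl hzt)
        · refine Set.disjoint_union_left.2 ⟨hdis, ?_⟩
          rw [Set.disjoint_singleton_left]
          exact hSOd z hz.1
        · exact (st.sO z hz.1).2.1.symm.mono Set.subset_union_right subset_rfl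
        · exact htY.mono Set.subset_union_left subset_rfl
    · -- `w ∈ SO`
      refine ⟨{w}, LK1_single G w, ?_, (st.sO w hwSO).2.1.symm, ⟨w, rfl, y', hM hyM, hyw.symm⟩⟩
      rw [Set.disjoint_singleton_left]
      exact hSOd w hwSO
    · -- `w ∈ SY`
      exfalso
      obtain ⟨h1, -, -, -⟩ := hCMP V G ((C ∪ SO ∪ SY) \ H)
      obtain ⟨-, hw2⟩ := h1 w ⟨Or.inr hwSY, hwH⟩
      have hwY : Tch G (Cmp G ((C ∪ SO ∪ SY) \ H) w) Y :=
        (st.sY w hwSY).2.1.symm.mono (Set.singleton_subset_iff.2 hw2) subset_rfl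
      exact Set.disjoint_left.1 (hDJ V G (C ∪ SO ∪ SY) O Y H P nd.cut)
        (⟨⟨Or.inr hwSY, hwH⟩, hwO⟩ : w ∈ Sd G (C ∪ SO ∪ SY) H O)
        (⟨⟨Or.inr hwSY, hwH⟩, hwY⟩ : w ∈ Sd G (C ∪ SO ∪ SY) H Y)

end Pool.K4
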