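import Pool.Agent.Work.MP_768e99_four.Interface

/-!
# Block LK2: a link between `O` and the new root outside a child which does not touch `O`
-/

set_option autoImplicit false

namespace Pool.K4

open Pool.Agent.Work.MP_768e99_co Pool.K3F

theorem LK2_single {V : Type} (G : SimpleGraph V) (x : V) : Conn G {x} := by
  refine ⟨Set.singleton_nonempty x, ?_⟩
  intro T hT hne hcl
  obtain ⟨y, hy⟩ := hne
  have h1 : y = x := hT hy
  intro z hz
  have h2 : z = x := hz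
  rw [h2, ← h1]
  exact hy

theorem p_LK2 (hSDF : Stmt_SDF) (hTH : Stmt_TH) (hBAS : Stmt_BAS) (hELT : Stmt_ELT)
    (hCMP : Stmt_CMP) (hCN1 : Stmt_CN1) : Stmt_LK2 := by
  intro V G d C O Y SO SY Dl H R P c st nd F hF hFO hnt
  obtain ⟨c₀, hc₀, o, ho, hadj⟩ := st.tO
  have hM : (H ∩ C) \ R ⊆ Nw G C SO SY H R Y := fun x hx => Or.inr hx
  obtain ⟨hE1, hE2, -⟩ := hELT V G d C O Y SO SY Dl H R P c st nd
  by_cases hH : c₀ ∈ H
  · by_cases hR : c₀ ∈ R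
    · refine Or.inr ⟨{c₀}, LK2_single G c₀, ?_, ⟨c₀, rfl, o, ho, hadj⟩, hE2 c₀ hH⟩
      rw [Set.disjoint_singleton_left]
      rintro ((h | h) | h)
      · exact (hF.2.1 h).2 hH
      · exact Set.disjoint_left.1 st.dCO hc₀ h
      · exact hE1 c₀ (Or.inr (Or.inl hR)) h
    · exact Or.inl ⟨o, ho, c₀, hM ⟨⟨hH, hc₀⟩, hR⟩, hadj.symm⟩
  · have hm : c₀ ∈ C \ H := ⟨hc₀, hH⟩
    obtain ⟨h1, -, h3, -⟩ := hCMP V G (C \ H)
    obtain ⟨hF2, hc2⟩ := h1 c₀ hm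
    have ht2 : Tch G (Cmp G (C \ H) c₀) O := ⟨c₀, hc2, o, ho, hadj⟩
    have hne : Cmp G (C \ H) c₀ ≠ F := by
      intro h
      rw [h] at ht2
      exact hnt ht2
    obtain ⟨-, -, hs3, -⟩ := hSDF V G d C O Y SO SY Dl H R P c st nd _ hF2
    have hsub := hs3 ht2
    obtain ⟨-, -, -, hB⟩ := hBAS V G d C O Y SO SY Dl H R P c st nd
    obtain ⟨hdN, -⟩ := hB _ hF2 hsub
    have hdF : Disjoint (Cmp G (C \ H) c₀) F := h3 _ _ hF2 hF hne
    have hdO : Disjoint (Cmp G (C \ H) c₀) O :=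
      Set.disjoint_of_subset_left (fun x hx => (hF2.2.1 hx).1) st.dCO
    have hdis : Disjoint (Cmp G (C \ H) c₀) (F ∪ O ∪ Nw G C SO SY H R Y) :=
      Set.disjoint_union_right.2 ⟨Set.disjoint_union_right.2 ⟨hdF, hdO⟩, hdN⟩
    obtain ⟨a, ha, h, hh, hah⟩ := hTH V G C H _ st.conn nd.ne hF2
    by_cases hR : h ∈ R
    · refine Or.inr ⟨Cmp G (C \ H) c₀ ∪ {h}, ?_, ?_, ?_, ?_⟩
      · exact hCN1 V G _ _ hF2.1 (LK2_single G h) (Or.inl ⟨a, ha, h, rfl, hah⟩)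
      · refine Set.disjoint_union_left.2 ⟨hdis, ?_⟩
        rw [Set.disjoint_singleton_left]
        rintro ((h | h) | h)
        · exact (hF.2.1 h).2 hh.1
        · exact Set.disjoint_left.1 st.dCO hh.2 h
        · exact hE1 _ (Or.inr (Or.inl hR)) h
      · exact ht2.mono Set.subset_union_left subset_rfl
      · exact (hE2 h hh.1).mono Set.subset_union_right subset_rfl
    · refine Or.inr ⟨Cmp G (C \ H) c₀, hF2.1, hdis, ht2, ⟨a, ha, h, hM ⟨hh, hR⟩, hah⟩⟩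

end Pool.K4
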