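import Pool.Agent.Work.MP_768e99_four.Interface

/-!
# Block NBF (typed by helper72): the neighbours of a child on the side of `O`
-/

set_option autoImplicit false

namespace Pool.K4

open Pool.Agent.Work.MP_768e99_co Pool.K3F

theorem p_NBF (hCMP : Stmt_CMP) (hDJ : Stmt_DJ) : Stmt_NBF := by
  intro V G d C O Y SO SY Dl H R P c hT hN F hF hFS x hx u hxu
  have hxU : x ∈ (C ∪ SO ∪ SY) \ H := ⟨Or.inl (Or.inl (hF.2.1 hx).1), (hF.2.1 hx).2⟩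
  obtain ⟨h1, h2, -, -⟩ := hCMP V G ((C ∪ SO ∪ SY) \ H)
  obtain ⟨hCx, hxm⟩ := h1 x hxU
  have hd := hDJ V G (C ∪ SO ∪ SY) O Y H P hN.cut
  have hnY : ¬ Tch G (Cmp G ((C ∪ SO ∪ SY) \ H) x) Y := fun h =>
    Set.disjoint_left.mp hd (hFS hx) ⟨hxU, h⟩
  rcases hT.out x (hF.2.1 hx).1 u hxu with h | h | h | h | h | h
  · by_cases hH : u ∈ H
    · by_cases hR : u ∈ R
      · exact Or.inr (Or.inr (Or.inr (Or.inr (Or.inl hR))))
      · exact Or.inr (Or.inr (Or.inl ⟨⟨hH, h⟩, hR⟩))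
    · exact Or.inl (hF.2.2 x hx u ⟨h, hH⟩ hxu)
  · exact Or.inr (Or.inl h)
  · exact absurd ⟨x, hxm, u, h, hxu⟩ hnY
  · by_cases hH : u ∈ H
    · exact Or.inr (Or.inr (Or.inr (Or.inr (Or.inr (Or.inl ⟨hH, h⟩)))))
    · exact Or.inr (Or.inr (Or.inr (Or.inl ⟨h, hH⟩)))
  · by_cases hH : u ∈ H
    · exact Or.inr (Or.inr (Or.inr (Or.inr (Or.inr (Or.inr (Or.inl ⟨hH, h⟩))))))
    · exfalso
      have huU : u ∈ (C ∪ SO ∪ SY) \ H := ⟨Or.inr h, hH⟩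
      have hum := hCx.2.2 x hxm u huU hxu
      obtain ⟨-, ⟨b, hb, u', hu', hbu⟩, -⟩ := hT.sY u h
      rw [Set.mem_singleton_iff] at hu'
      subst hu'
      exact hnY ⟨u', hum, b, hb, hbu.symm⟩
  · exact Or.inr (Or.inr (Or.inr (Or.inr (Or.inr (Or.inr (Or.inr h))))))

end Pool.K4
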