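import Pool.Agent.Work.MP_768e99_four.Interface

/-!
# Block NBM (typed by helper72): the neighbours of a child on neither side
-/

set_option autoImplicit false

namespace Pool.K4

open Pool.Agent.Work.MP_768e99_co Pool.K3F

theorem p_NBM (hSDF : Stmt_SDF) (_hCMP : Stmt_CMP) : Stmt_NBM := by
  intro V G d C O Y SO SY Dl H R P c hT hN F hF hnO hnY x hx u hxu
  obtain ⟨-, -, a3, a4⟩ := hSDF V G d C O Y SO SY Dl H R P c hT hN F hF
  obtain ⟨-, -, b3, b4⟩ := hSDF V G d C Y O SY SO Dl H R P c hT.symm hN.symm F hF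
  rcases hT.out x (hF.2.1 hx).1 u hxu with h | h | h | h | h | h
  · by_cases hH : u ∈ H
    · by_cases hR : u ∈ R
      · exact Or.inr (Or.inr (Or.inl hR))
      · exact Or.inr (Or.inl ⟨⟨hH, h⟩, hR⟩)
    · exact Or.inl (hF.2.2 x hx u ⟨h, hH⟩ hxu)
  · exact absurd (a3 ⟨x, hx, u, h, hxu⟩) hnO
  · exact absurd (b3 ⟨x, hx, u, h, hxu⟩) hnY
  · by_cases hH : u ∈ H
    · exact Or.inr (Or.inr (Or.inr (Or.inl ⟨hH, h⟩)))
    · exact absurd (a4 u ⟨h, hH⟩ ⟨x, hx, u, rfl, hxu⟩) hnO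
  · by_cases hH : u ∈ H
    · exact Or.inr (Or.inr (Or.inr (Or.inr (Or.inl ⟨hH, h⟩))))
    · exact absurd (b4 u ⟨h, hH⟩ ⟨x, hx, u, rfl, hxu⟩) hnY
  · exact Or.inr (Or.inr (Or.inr (Or.inr (Or.inr h))))

end Pool.K4
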