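import Pool.Agent.Work.MP_768e99_four.Interface

set_option autoImplicit false

/-! Block NC4. -/

namespace Pool.K4

open Pool.Agent.Work.MP_768e99_co Pool.K3F

theorem p_NC4 (hCMP : Stmt_CMP) : Stmt_NC4 := by
  intro V G d C O Y SO SY Dl H R P c₀ c f h x hx u hu hadj hc
  by_cases hxH : x ∈ H
  · by_cases hxR : x ∈ R
    · have h1 : c₀ u = 3 := by
        rw [← h.off u hu, hc]
        exact h.cR x hxR
      rcases h.st.out x hx u hadj with h2 | h2 | h2 | h2 | h2 | h2
      · exact absurd h2 hu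
      · obtain ⟨o, ho, ho'⟩ := h.st.cO
        exact absurd ((ho' x hx u h2 hadj).symm.trans h1) ho
      · obtain ⟨o, ho, ho'⟩ := h.st.cY
        exact absurd ((ho' x hx u h2 hadj).symm.trans h1) ho
      · exact Or.inl h2
      · exact Or.inr h2
      · exact absurd hadj (h.nd.noD x hxR u h2)
    · have h1 : c x = f := h.cf x ⟨⟨hxH, hx⟩, hxR⟩
      refine absurd ?_ (h.fvis x hx u hu hadj)
      rw [← h.off u hu, hc, h1]
  · obtain ⟨hF, hxF⟩ := (hCMP V G (C \ H)).1 x ⟨hx, hxH⟩
    have huF : u ∉ Cmp G (C \ H) x := fun h1 => hu (hF.2.1 h1).1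
    by_cases h1 : Cmp G (C \ H) x ⊆ Sd G (C ∪ SO ∪ SY) H O
    · rcases (h.kO _ hF h1).conf x hxF u huF hadj hc with h2 | h2
      · exact Or.inl h2.1.1
      · rcases h2.1 with h3 | h3
        · exact absurd (h.nd.sub h3).2 hu
        · exact Or.inr h3.2
    · by_cases h1' : Cmp G (C \ H) x ⊆ Sd G (C ∪ SY ∪ SO) H Y
      · rcases (h.kY _ hF h1').conf x hxF u huF hadj hc with h2 | h2
        · exact Or.inr h2.1.1
        · rcases h2.1 with h3 | h3
          · exact absurd (h.nd.sub h3).2 hu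
          · exact Or.inl h3.2
      · exact absurd ((h.k0 _ hF h1 h1').conf x hxF u huF hadj hc) (Set.notMem_empty u)

end Pool.K4
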