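import Pool.Agent.Work.MP_768e99_four.Interface

set_option autoImplicit false

/-! Block NF4. -/

namespace Pool.K4

open Pool.Agent.Work.MP_768e99_co Pool.K3F

theorem p_NF4 (hCF : Stmt_CF) (_hSDF : Stmt_SDF) (hCMP : Stmt_CMP) : Stmt_NF4 := by
  intro V _ G d C O Y SO SY Dl H R P c₀ c f h u hu
  have huC : u ∉ C := fun h1 =>
    Set.disjoint_left.mp h.st.dSO hu (Or.inl (Or.inl h1))
  have huSY : u ∉ SY := fun h1 => Set.disjoint_left.mp h.st.dSS hu h1
  have huR : u ∉ R := fun h1 => huC (h.nd.sub h1).2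
  have hcu : c u = 3 := by
    rw [h.off u huC]
    exact h.st.cS u (Or.inl hu)
  -- the vertices of the set
  have key : ∀ x, x ∈ C → G.Adj u x → c x = c u → x ∈ R ∨
      (u ∉ H ∧ x ∈ C \ H ∧ x ∈ Sd G (C ∪ SO ∪ SY) H O) ∨
      (u ∈ H ∧ x ∈ C \ H ∧ x ∈ Sd G (C ∪ SY ∪ SO) H Y) := by
    intro x hx hadj hc
    by_cases hxH : x ∈ H
    · left
      by_contra hxR
      exact h.f3 (by rw [← h.cf x ⟨⟨hxH, hx⟩, hxR⟩, hc, hcu])
    · right
      obtain ⟨hF, hxF⟩ := (hCMP V G (C \ H)).1 x ⟨hx, hxH⟩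
      have huF : u ∉ Cmp G (C \ H) x := fun h1 => huC (hF.2.1 h1).1
      by_cases h1 : Cmp G (C \ H) x ⊆ Sd G (C ∪ SO ∪ SY) H O
      · left
        refine ⟨?_, ⟨hx, hxH⟩, h1 hxF⟩
        rcases (h.kO _ hF h1).conf x hxF u huF hadj.symm hc.symm with h2 | h2
        · exact h2.1.2
        · rcases h2.1 with h3 | h3
          · exact absurd h3 huR
          · exact absurd h3.2 huSY
      · by_cases h1' : Cmp G (C \ H) x ⊆ Sd G (C ∪ SY ∪ SO) H Y
        · right
          refine ⟨?_, ⟨hx, hxH⟩, h1' hxF⟩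
          rcases (h.kY _ hF h1').conf x hxF u huF hadj.symm hc.symm with h2 | h2
          · exact absurd h2.1.1 huSY
          · rcases h2.1 with h3 | h3
            · exact absurd h3 huR
            · exact h3.1
        · exact absurd ((h.k0 _ hF h1 h1').conf x hxF u huF hadj.symm hc.symm)
            (Set.notMem_empty u)
  by_cases huH : u ∈ H
  · refine le_trans (Set.ncard_le_ncard ?_ (Set.toFinite _))
      (hCF V G d C Y O SY SO Dl H R P c₀ c f h.symm u (Or.inr (Or.inr ⟨huH, hu⟩))).1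
    rintro x ⟨hx, hadj, hc⟩
    rcases key x hx hadj hc with h1 | h1 | h1
    · exact absurd (h.nd.noS x h1 u huH hadj.symm) huC
    · exact absurd huH h1.1
    · exact ⟨h1.2.1, h1.2.2, hadj, hc⟩
  · have hcf := hCF V G d C O Y SO SY Dl H R P c₀ c f h u (Or.inl ⟨hu, huH⟩)
    by_cases hR : ∃ x ∈ R, G.Adj u x
    · have h0 := hcf.2 ⟨hu, huH⟩ hR
      refine le_trans (Set.ncard_le_ncard ?_ (Set.toFinite _)) h.nd.card
      rintro x ⟨hx, hadj, hc⟩
      rcases key x hx hadj hc with h1 | h1 | h1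
      · exact h1
      · have h2 : x ∈ {y | y ∈ C \ H ∧ y ∈ Sd G (C ∪ SO ∪ SY) H O ∧ G.Adj u y ∧ c y = c u} :=
          ⟨h1.2.1, h1.2.2, hadj, hc⟩
        rw [h0] at h2
        exact absurd h2 (Set.notMem_empty x)
      · exact absurd h1.1 huH
    · refine le_trans (Set.ncard_le_ncard ?_ (Set.toFinite _)) hcf.1
      rintro x ⟨hx, hadj, hc⟩
      rcases key x hx hadj hc with h1 | h1 | h1
      · exact absurd ⟨x, h1, hadj⟩ hR
      · exact ⟨h1.2.1, h1.2.2, hadj, hc⟩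
      · exact absurd h1.1 huH

end Pool.K4
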