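import Pool.Agent.Work.MP_768e99_four.Interface

set_option autoImplicit false

namespace Pool.K4

open Pool.Agent.Work.MP_768e99_co Pool.K3F

theorem p_NG4 (hNC : Stmt_NC4) (hNM : Stmt_NM4) (hNR : Stmt_NR4) (hNF : Stmt_NF4) :
    Stmt_NG4 := by
  intro V _ G d C O Y SO SY Dl H R P c₀ c f hd hN
  refine ⟨hN.off, ?_, ?_, ?_⟩
  · intro x hx
    by_cases h : x ∈ R
    · exact le_trans (hNR V G d C O Y SO SY Dl H R P c₀ c f hN x h) hd
    · exact hNM V G d C O Y SO SY Dl H R P c₀ c f hN x hx h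
  · intro x hx u hu hxu hcu
    exact hNC V G d C O Y SO SY Dl H R P c₀ c f hN x hx u hu hxu hcu
  · rintro u (hu | hu)
    · exact hNF V G d C O Y SO SY Dl H R P c₀ c f hN u hu
    · exact hNF V G d C Y O SY SO Dl H R P c₀ c f hN.symm u hu

end Pool.K4
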