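import Pool.Agent.Work.MP_768e99_four.Interface

set_option autoImplicit false

namespace Pool.K4

open Pool.Agent.Work.MP_768e99_co Pool.K3F

theorem p_NM4 (hCMP : Pool.K3F.Stmt_CMP) (_hNC4 : Stmt_NC4) : Stmt_NM4 := by
  intro V _ G d C O Y SO SY Dl H R P c₀ c f hN x hx hxR
  have hsubF : ∀ F, IsCmp G (C \ H) F → F ⊆ C \ H := fun F hF => hF.2.1
  have hgd : ∀ y ∈ C \ H, ∃ F S, y ∈ F ∧ IsCmp G (C \ H) F ∧ Gd G d F S c c ∧
      ∀ u ∈ S, u ∉ C ∨ u ∈ R := by
    intro y hy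
    obtain ⟨h1, h2⟩ := (hCMP V G (C \ H)).1 y hy
    have hSO : ∀ u ∈ SO, u ∉ C := fun u hu huC =>
      Set.disjoint_left.1 hN.st.dSO hu (Or.inl (Or.inl huC))
    have hSY : ∀ u ∈ SY, u ∉ C := fun u hu huC =>
      Set.disjoint_left.1 hN.st.dSY hu (Or.inl (Or.inl huC))
    by_cases ha : Cmp G (C \ H) y ⊆ Sd G (C ∪ SO ∪ SY) H O
    · refine ⟨_, _, h2, h1, hN.kO _ h1 ha, ?_⟩
      rintro u (hu | hu)
      · exact Or.inl (hSO u hu.1.1)
      · rcases hu.1 with h | h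
        · exact Or.inr h
        · exact Or.inl (hSY u h.2)
    · by_cases hb : Cmp G (C \ H) y ⊆ Sd G (C ∪ SY ∪ SO) H Y
      · refine ⟨_, _, h2, h1, hN.kY _ h1 hb, ?_⟩
        rintro u (hu | hu)
        · exact Or.inl (hSY u hu.1.1)
        · rcases hu.1 with h | h
          · exact Or.inr h
          · exact Or.inl (hSO u h.2)
      · refine ⟨_, _, h2, h1, hN.k0 _ h1 ha hb, ?_⟩
        intro u hu
        exact absurd hu (Set.notMem_empty u)
  by_cases hxH : x ∈ H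
  · have hxM : x ∈ (H ∩ C) \ R := ⟨⟨hxH, hx⟩, hxR⟩
    have hcx : c x = f := hN.cf x hxM
    refine le_trans (Set.ncard_le_ncard ?_ (Set.toFinite _)) (hN.nd.degM x hxM)
    rintro y ⟨hxy, hcy⟩
    rw [hcx] at hcy
    refine ⟨?_, hxy⟩
    by_cases hyC : y ∈ C
    · by_cases hyR : y ∈ R
      · exact absurd (hcy.symm.trans (hN.cR y hyR)) hN.f3
      · by_cases hyH : y ∈ H
        · exact ⟨⟨hyH, hyC⟩, hyR⟩
        · exfalso
          obtain ⟨F, S, hyF, hF, hG, hS⟩ := hgd y ⟨hyC, hyH⟩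
          have hxF : x ∉ F := fun h => (hsubF F hF h).2 hxH
          have := hG.conf y hyF x hxF hxy.symm (hcx.trans hcy.symm)
          rcases hS x this with h | h
          · exact h hx
          · exact hxR h
    · exfalso
      have h1 := hN.fvis x hx y hyC hxy
      rw [hN.off y hyC] at hcy
      exact h1 hcy
  · obtain ⟨F, S, hxF, _, hG, _⟩ := hgd x ⟨hx, hxH⟩
    exact hG.defect x hxF

end Pool.K4
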