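import Pool.Agent.Work.MP_768e99_four.Interface

set_option autoImplicit false

/-! Block NR4. -/

namespace Pool.K4

open Pool.Agent.Work.MP_768e99_co Pool.K3F

theorem p_NR4 (hNC : Stmt_NC4) (hCF : Stmt_CF) (_hSDF : Stmt_SDF) (hCMP : Stmt_CMP) :
    Stmt_NR4 := by
  classical
  intro V _ G d C O Y SO SY Dl H R P c₀ c f h x hxR
  have hxHC := h.nd.sub hxR
  have hx3 : c x = 3 := h.cR x hxR
  have hsub : {y | G.Adj x y ∧ c y = c x} ⊆ ((nb G x SO ∪ nb G x SY) ∪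
      {y | y ∈ C \ H ∧ y ∈ Sd G (C ∪ SO ∪ SY) H O ∧ G.Adj x y ∧ c y = c x}) ∪
      {y | y ∈ C \ H ∧ y ∈ Sd G (C ∪ SY ∪ SO) H Y ∧ G.Adj x y ∧ c y = c x} := by
    rintro y ⟨hadj, hc⟩
    by_cases hyC : y ∈ C
    · by_cases hyH : y ∈ H
      · exfalso
        by_cases hyR : y ∈ R
        · exact h.nd.ind x hxR y hyR hadj
        · have h1 := h.cf y ⟨⟨hyH, hyC⟩, hyR⟩
          exact h.f3 (by rw [← h1, hc, hx3])
      · obtain ⟨hF, hyF⟩ := (hCMP V G (C \ H)).1 y ⟨hyC, hyH⟩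
        have hxF : x ∉ Cmp G (C \ H) y := fun h1 => (hF.2.1 h1).2 hxHC.1
        by_cases h1 : Cmp G (C \ H) y ⊆ Sd G (C ∪ SO ∪ SY) H O
        · exact Or.inl (Or.inr ⟨⟨hyC, hyH⟩, h1 hyF, hadj, hc⟩)
        · by_cases h2 : Cmp G (C \ H) y ⊆ Sd G (C ∪ SY ∪ SO) H Y
          · exact Or.inr ⟨⟨hyC, hyH⟩, h2 hyF, hadj, hc⟩
          · exact absurd ((h.k0 _ hF h1 h2).conf y hyF x hxF hadj.symm hc.symm)
              (Set.notMem_empty x)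
    · rcases hNC V G d C O Y SO SY Dl H R P c₀ c f h x hxHC.2 y hyC hadj hc with h1 | h1
      · exact Or.inl (Or.inl (Or.inl ⟨h1, hadj⟩))
      · exact Or.inl (Or.inl (Or.inr ⟨h1, hadj⟩))
  have hfew := h.st.few x hxHC.2
  have hA := (hCF V G d C O Y SO SY Dl H R P c₀ c f h x (Or.inr (Or.inl hxR))).1
  have hB := (hCF V G d C Y O SY SO Dl H R P c₀ c f h.symm x (Or.inr (Or.inl hxR))).1
  have h1 := Set.ncard_le_ncard hsub (Set.toFinite _)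
  have h2 := Set.ncard_union_le ((nb G x SO ∪ nb G x SY) ∪
      {y | y ∈ C \ H ∧ y ∈ Sd G (C ∪ SO ∪ SY) H O ∧ G.Adj x y ∧ c y = c x})
      {y | y ∈ C \ H ∧ y ∈ Sd G (C ∪ SY ∪ SO) H Y ∧ G.Adj x y ∧ c y = c x}
  have h3 := Set.ncard_union_le (nb G x SO ∪ nb G x SY)
      {y | y ∈ C \ H ∧ y ∈ Sd G (C ∪ SO ∪ SY) H O ∧ G.Adj x y ∧ c y = c x}
  have h4 := Set.ncard_union_le (nb G x SO) (nb G x SY)
  omega

end Pool.K4
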