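import Pool.Agent.Work.MP_768e99_four.Interface

set_option autoImplicit false

namespace Pool.K4

open Pool.Agent.Work.MP_768e99_co Pool.K3F

theorem p_PAIR4 (h1 : Stmt_LNK4) (h2 : Stmt_K3) : Stmt_PAIR4 := by
  intro V _ G s C O Y H P hfree hreg hcut x₁ hx₁ x₂ hx₂ hne hadj
  by_contra hcon
  push Not at hcon
  obtain ⟨X, hXC, hXc, hx₁X, hx₂X, y₁, y₂, hy⟩ := h1 V G C O Y H P hreg hcut x₁ hx₁ x₂ hx₂ hne hadj
  set N := nb G x₁ H ∪ nb G x₂ H with hN
  set I : Set V := N \ {y₁, y₂} with hI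
  have hIN : I ⊆ N := Set.diff_subset
  have hIH : ∀ y ∈ I, y ∈ H := by
    intro y hy
    rcases hIN hy with h | h
    · exact h.1
    · exact h.1
  have hcard : s ≤ I.ncard := by
    have h3 : N.ncard ≤ I.ncard + ({y₁, y₂} : Set V).ncard := by
      have h4 : N ⊆ I ∪ {y₁, y₂} := by
        intro z hz
        by_cases hz' : z ∈ ({y₁, y₂} : Set V)
        · exact Or.inr hz'
        · exact Or.inl ⟨hz, hz'⟩
      exact (Set.ncard_le_ncard h4 (Set.toFinite _)).trans (Set.ncard_union_le _ _)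
    have h5 : ({y₁, y₂} : Set V).ncard ≤ 2 := by
      have h6 := Set.ncard_insert_le y₁ ({y₂} : Set V)
      rw [Set.ncard_singleton] at h6
      exact h6
    omega
  refine hfree (h2 V G s X O Y V I P hXc hreg.connO hreg.connY
    (hreg.dCO.mono_left hXC) (hreg.dCY.mono_left hXC) hreg.dOY ?_ ?_ hcard)
  · intro y hyI
    have hyH := hIH y hyI
    obtain ⟨hc, hyP, hPC, -, hO, hY⟩ := hcut.path y hyH
    have hne1 : y ≠ y₁ := fun h => hyI.2 (by rw [h]; exact Or.inl rfl)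
    have hne2 : y ≠ y₂ := fun h => hyI.2 (by rw [h]; exact Or.inr rfl)
    refine ⟨hc, hy y (hIN hyI) hne1 hne2, (hreg.dCO.mono_left hPC).symm,
      (hreg.dCY.mono_left hPC).symm, ?_, hO, hY⟩
    rcases hIN hyI with h | h
    · exact ⟨y, hyP, x₁, hx₁X, h.2.symm⟩
    · exact ⟨y, hyP, x₂, hx₂X, h.2.symm⟩
  · intro y hyI y' hyI' hyy
    exact hcut.dj y (hIH y hyI) y' (hIH y' hyI') hyy

end Pool.K4
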