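import Pool.Agent.Work.MP_768e99_four.Interface

/-!
# Four colours for `K_{3,s}`-minor-free graphs: block `PUR`
-/

set_option autoImplicit false

namespace Pool.K4

open Pool.Agent.Work.MP_768e99_co Pool.K3F

theorem PUR_single {V : Type} (G : SimpleGraph V) (x : V) : Conn G {x} := by
  refine ⟨⟨x, rfl⟩, ?_⟩
  rintro T hT ⟨y, hy⟩ _ z hz
  have h1 : y = x := hT hy
  have h2 : z = x := hz
  rw [h2, ← h1]
  exact hy

theorem p_PUR (hUR : Stmt_UR) (hDEG : Stmt_DEG4) (hK3 : Stmt_K3) : Stmt_PUR := by
  intro V _ G d C O Y SO SY Dl H P c hfree hst hcut x hx hcard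
  classical
  have hreg := hUR V G C O Y SO SY Dl c hst
  have hlt := hDEG V G (d + 2) (C ∪ SO ∪ SY) O Y H P hfree hreg hcut x hx.1
  constructor
  · intro u hu hadj
    by_contra huC
    have hsub : insert u (nb G x (H ∩ C)) ⊆ nb G x H := by
      rintro w (rfl | hw)
      · exact ⟨hu, hadj⟩
      · exact ⟨hw.1.1, hw.2⟩
    have hnot : u ∉ nb G x (H ∩ C) := fun h => huC h.1.2
    have h1 := Set.ncard_le_ncard hsub (Set.toFinite _)
    rw [Set.ncard_insert_of_notMem hnot (Set.toFinite _)] at h1
    omega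
  · intro u hu hadj
    obtain ⟨K, k1, k2, k3, k4, k5⟩ := hst.cl u hu
    let B : Option V → Set V := fun o => match o with
      | none => K
      | some y => P y
    let I : Set (Option V) := insert none (some '' nb G x (H ∩ C))
    have hIc : d + 2 ≤ I.ncard := by
      have h1 : (none : Option V) ∉ some '' nb G x (H ∩ C) := by
        rintro ⟨y, _, hy⟩
        cases hy
      have h2 : I.ncard = (some '' nb G x (H ∩ C)).ncard + 1 :=
        Set.ncard_insert_of_notMem h1 (Set.toFinite _)
      rw [h2, Set.ncard_image_of_injective _ (Option.some_injective V)]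
      omega
    have hKC : Disjoint K C := k3.mono_right (fun a ha => Or.inl (Or.inl (Or.inl (Or.inl ha))))
    have hKO : Disjoint K O := k3.mono_right (fun a ha => Or.inl (Or.inl (Or.inl (Or.inr ha))))
    have hKY : Disjoint K Y := k3.mono_right (fun a ha => Or.inl (Or.inl (Or.inr ha)))
    have hKU : Disjoint K (C ∪ SO ∪ SY) := k3.mono_right (by
      rintro a ((ha | ha) | ha)
      · exact Or.inl (Or.inl (Or.inl (Or.inl ha)))
      · exact Or.inl (Or.inr ha)
      · exact Or.inr ha)
    have hxU : x ∈ C ∪ SO ∪ SY := hcut.sub hx.1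
    refine hfree (hK3 V G (d + 2) {x} O Y (Option V) I B (PUR_single G x) hreg.connO hreg.connY
      ?_ ?_ hreg.dOY ?_ ?_ hIc)
    · rw [Set.disjoint_singleton_left]
      exact fun h => Set.disjoint_left.mp hreg.dCO hxU h
    · rw [Set.disjoint_singleton_left]
      exact fun h => Set.disjoint_left.mp hreg.dCY hxU h
    · intro o ho
      rcases ho with rfl | ⟨y, hy, rfl⟩
      · refine ⟨k1, ?_, hKO.symm, hKY.symm, ⟨u, k2, x, rfl, hadj.symm⟩, k4, k5⟩
        rw [Set.disjoint_singleton_left]
        exact fun h => Set.disjoint_left.mp hKC h hx.2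
      · obtain ⟨⟨hyH, hyC⟩, hadj'⟩ := hy
        obtain ⟨h1, h2, h3, h4, h5, h6⟩ := hcut.path y hyH
        refine ⟨h1, ?_, (hreg.dCO.mono_left h3).symm, (hreg.dCY.mono_left h3).symm,
          ⟨y, h2, x, rfl, hadj'.symm⟩, h5, h6⟩
        rw [Set.disjoint_singleton_left]
        intro h
        have h7 : x ∈ P y ∩ H := ⟨h, hx.1⟩
        rw [h4] at h7
        have h8 : x = y := h7
        rw [h8] at hadj'
        exact G.irrefl hadj'
    · intro o ho o' ho' hne
      rcases ho with rfl | ⟨y, hy, rfl⟩
      · rcases ho' with rfl | ⟨y', hy', rfl⟩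
        · exact absurd rfl hne
        · exact hKU.mono_right (hcut.path y' hy'.1.1).2.2.1
      · rcases ho' with rfl | ⟨y', hy', rfl⟩
        · exact (hKU.mono_right (hcut.path y hy.1.1).2.2.1).symm
        · exact hcut.dj y hy.1.1 y' hy'.1.1 (fun h => hne (by rw [h]))

end Pool.K4
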