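import Pool.Agent.Work.MP_768e99_four.Interface

set_option autoImplicit false

namespace Pool.K4

open Pool.Agent.Work.MP_768e99_co Pool.K3F

lemma RM4_nb_mono {V : Type} (G : SimpleGraph V) (x : V) {S T : Set V} (h : S ⊆ T) :
    nb G x S ⊆ nb G x T := fun _ hy => ⟨h hy.1, hy.2⟩

lemma RM4_max {V : Type} [Fintype V] (G : SimpleGraph V) (S : Set V) :
    ∃ T ⊆ S, (∀ x ∈ T, ∀ y ∈ T, ¬ G.Adj x y) ∧ ∀ v ∈ S, v ∉ T → ∃ w ∈ T, G.Adj v w := by
  classical
  obtain ⟨T, hT, hmax⟩ := Set.exists_max_image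
    {T : Set V | T ⊆ S ∧ ∀ x ∈ T, ∀ y ∈ T, ¬ G.Adj x y} (fun T => T.ncard) (Set.toFinite _)
    ⟨∅, Set.empty_subset _, fun x hx => absurd hx (Set.notMem_empty x)⟩
  refine ⟨T, hT.1, hT.2, ?_⟩
  intro v hvS hvT
  by_contra hno
  push Not at hno
  have hins : insert v T ∈ {T : Set V | T ⊆ S ∧ ∀ x ∈ T, ∀ y ∈ T, ¬ G.Adj x y} := by
    refine ⟨Set.insert_subset hvS hT.1, ?_⟩
    intro x hx y hy
    rcases Set.mem_insert_iff.mp hx with hx' | hx'
    · rcases Set.mem_insert_iff.mp hy with hy' | hy'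
      · rw [hx', hy']
        exact G.loopless.irrefl _
      · rw [hx']
        exact hno y hy'
    · rcases Set.mem_insert_iff.mp hy with hy' | hy'
      · rw [hy']
        exact fun h => hno x hx' h.symm
      · exact hT.2 x hx' y hy'
  have h1 := hmax _ hins
  have h2 : (insert v T).ncard = T.ncard + 1 := Set.ncard_insert_of_notMem hvT (Set.toFinite T)
  rw [h2] at h1
  omega

theorem p_RM4 : Stmt_RM4 := by
  classical
  intro V _ G d H hdeg hq
  obtain ⟨R, hRS, hRi, hRm⟩ := RM4_max G {v | v ∈ H ∧ d + 1 ≤ (nb G v H).ncard}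
  have hRH : R ⊆ H := fun x hx => (hRS hx).1
  have hRd : ∀ x ∈ R, d + 1 ≤ (nb G x H).ncard := fun x hx => (hRS hx).2
  refine ⟨R, hRH, hRi, hq R hRH hRd hRi, ?_, hRd⟩
  intro v hv
  by_contra hcon
  push Not at hcon
  have hvd : d + 1 ≤ (nb G v H).ncard :=
    (Nat.succ_le_of_lt hcon).trans (Set.ncard_le_ncard (RM4_nb_mono G v Set.sdiff_subset)
      (Set.toFinite _))
  obtain ⟨w, hwR, hvw⟩ := hRm v ⟨hv.1, hvd⟩ hv.2
  have hw1 : w ∉ nb G v (H \ R) := fun h => h.1.2 hwR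
  have h1 : insert w (nb G v (H \ R)) ⊆ nb G v H := by
    apply Set.insert_subset
    · exact ⟨hRH hwR, hvw⟩
    · exact RM4_nb_mono G v Set.sdiff_subset
  have h2 := Set.ncard_le_ncard h1 (Set.toFinite _)
  rw [Set.ncard_insert_of_notMem hw1 (Set.toFinite _)] at h2
  have h5 := hdeg v hv.1
  omega

end Pool.K4
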