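import Pool.Agent.Work.MP_768e99_four.Interface

set_option autoImplicit false

namespace Pool.K4

open Pool.Agent.Work.MP_768e99_co Pool.K3F

lemma S14_colour : ∀ a : Fin 4, ∃ p : Fin 4, p ≠ a ∧ p ≠ 3 := by decide

lemma S14_choice {V : Type} (G : SimpleGraph V) (C A W B : Set V) (hC : C.Nonempty) :
    ∃ v ∈ C, (Tch G C B → Tch G B {v}) ∧ (¬ Tch G C B → Tch G C A → Tch G A {v}) ∧
      (¬ Tch G C B → ¬ Tch G C A → Tch G C W → Tch G W {v}) := by
  by_cases hB : Tch G C B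
  · obtain ⟨x, hx, y, hy, hxy⟩ := hB
    exact ⟨x, hx, fun _ => ⟨y, hy, x, rfl, hxy.symm⟩,
      fun h => absurd ⟨x, hx, y, hy, hxy⟩ h, fun h => absurd ⟨x, hx, y, hy, hxy⟩ h⟩
  · by_cases hA : Tch G C A
    · obtain ⟨x, hx, y, hy, hxy⟩ := hA
      exact ⟨x, hx, fun h => absurd h hB, fun _ _ => ⟨y, hy, x, rfl, hxy.symm⟩,
        fun _ h => absurd ⟨x, hx, y, hy, hxy⟩ h⟩
    · by_cases hW : Tch G C W
      · obtain ⟨x, hx, y, hy, hxy⟩ := hW
        exact ⟨x, hx, fun h => absurd h hB, fun _ h => absurd h hA,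
          fun _ _ _ => ⟨y, hy, x, rfl, hxy.symm⟩⟩
      · obtain ⟨x, hx⟩ := hC
        exact ⟨x, hx, fun h => absurd h hB, fun _ h => absurd h hA,
          fun _ _ h => absurd h hW⟩

theorem p_S14 (h1 : Stmt_T1A) (h2 : Stmt_T1B) (h3 : Stmt_GL4) (h4 : Stmt_TR4)
    (h5 : Pool.K3F.Stmt_CMP) : Stmt_S14 := by
  classical
  intro V _ G d C A W B c₀ hst ih2 ih1
  obtain ⟨v, hv, hvB, hvA, hvW⟩ := S14_choice G C A W B hst.conn.1
  obtain ⟨a, ha3, ha⟩ := hst.cA
  obtain ⟨p, hpa, hp3⟩ := S14_colour a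
  have hWC : ∀ u ∈ W, u ∉ C := fun u hu h =>
    (Set.disjoint_left.1 hst.dW) hu (Or.inl (Or.inl h))
  have hSv : v ∉ C \ {v} := by simp
  have hSC : C \ {v} ⊆ C := Set.diff_subset
  have hlt : ∀ F, IsCmp G (C \ {v}) F → F.ncard < C.ncard := by
    intro F hF
    exact Set.ncard_lt_ncard ⟨hF.2.1.trans hSC, fun h => hSv (hF.2.1 (h hv))⟩ (Set.toFinite _)
  have hex : ∀ F, ∃ cF : V → Fin 4, IsCmp G (C \ {v}) F →
      ∃ S', S' ⊆ W1 G C W F v ∧ Gd G d F S' (Function.update c₀ v p) cF := by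
    intro F
    by_cases hF : IsCmp G (C \ {v}) F
    · by_cases ht : Tch G F A
      · obtain ⟨c, hc⟩ := ih2 _ _ _ _ _ _ _ (hlt F hF)
          (h1 V G C A W B c₀ v p hst hv hp3 hvB F hF ht)
        exact ⟨c, fun _ => ⟨_, by simp, hc⟩⟩
      · obtain ⟨B', hB'⟩ := h2 V G C A W B c₀ v p hst hv hp3 hvB hvA hvW F hF ht
        obtain ⟨c, hc⟩ := ih1 _ _ _ _ _ (hlt F hF) hB'
        exact ⟨c, fun _ => ⟨_, Set.empty_subset _, hc⟩⟩
    · exact ⟨c₀, fun h => absurd h hF⟩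
  choose cF hcF using hex
  obtain ⟨c₁, hc₁⟩ : ∃ c₁ : V → Fin 4, c₁ = Function.update c₀ v p := ⟨_, rfl⟩
  have hc₁v : c₁ v = p := by rw [hc₁, Function.update_self]
  have hc₁n : ∀ w, w ≠ v → c₁ w = c₀ w := fun w hw => by rw [hc₁, Function.update_of_ne hw]
  rw [← hc₁] at hcF
  obtain ⟨c, hc1, hc2⟩ := h3 V G (C \ {v}) c₁ cF
  have key : ∀ F, IsCmp G (C \ {v}) F → Gd G d F (W1 G C W F v) c c := by
    intro F hF
    obtain ⟨S', hS', g⟩ := hcF F hF
    refine h4 V G d F S' (W1 G C W F v) c₁ (cF F) c (hc2 F hF) ?_ ?_ hS' ?_ g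
    · intro x hx u hxu
      by_cases huF : u ∈ F
      · exact hc2 F hF u huF
      · rw [g.off u huF]
        exact hc1 u (fun h => huF (hF.2.2 x hx u h hxu))
    · intro u hu
      have huC : u ∉ C := hWC u hu.1
      rw [g.off u (fun h => huC (hSC (hF.2.1 h)))]
      exact hc1 u (fun h => huC (hSC h))
    · exact Set.disjoint_left.2 fun u hu h => hWC u hu.1 (hSC (hF.2.1 h))
  have hcv : c v = p := by rw [hc1 v hSv, hc₁v]
  have hcout : ∀ u, u ∉ C → c u = c₀ u := by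
    intro u hu
    rw [hc1 u (fun h => hu (hSC h)), hc₁n u (fun h => hu (h ▸ hv))]
  have hcmp : ∀ x ∈ C, x ≠ v → ∃ F, IsCmp G (C \ {v}) F ∧ x ∈ F := fun x hx hne =>
    ⟨Cmp G (C \ {v}) x, ((h5 V G (C \ {v})).1 x ⟨hx, hne⟩).1,
      ((h5 V G (C \ {v})).1 x ⟨hx, hne⟩).2⟩
  have hvout : ∀ u, u ∉ C → G.Adj v u → c u ≠ c v := by
    intro u hu hvu he
    rw [hcout u hu, hcv] at he
    rcases hst.out v hv u hvu with h | h | h | h
    · exact hu h
    · exact hpa (he.symm.trans (ha v hv u h hvu))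
    · exact hp3 (he.symm.trans (hst.cW u h))
    · exact hp3 (he.symm.trans (hst.cB v hv u h hvu))
  refine ⟨c, ⟨hcout, ?_, ?_, ?_⟩⟩
  · intro x hx
    by_cases hxv : x = v
    · rw [hxv]
      have he : {y | G.Adj v y ∧ c y = c v} = ∅ := by
        ext y
        simp only [Set.mem_setOf_eq, Set.mem_empty_iff_false, iff_false, not_and]
        intro hvy hy
        by_cases hyC : y ∈ C
        · obtain ⟨F, hF, hyF⟩ := hcmp y hyC hvy.ne'
          have hw := (key F hF).conf y hyF v (fun h => hSv (hF.2.1 h)) hvy.symm hy.symm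
          exact hWC v hw.1 hv
        · exact hvout y hyC hvy hy
      rw [he, Set.ncard_empty]
      exact Nat.zero_le _
    · obtain ⟨F, hF, hxF⟩ := hcmp x hx hxv
      exact (key F hF).defect x hxF
  · intro x hx u hu hxu he
    by_cases hxv : x = v
    · rw [hxv] at hxu he
      exact absurd he (hvout u hu hxu)
    · obtain ⟨F, hF, hxF⟩ := hcmp x hx hxv
      exact ((key F hF).conf x hxF u (fun h => hu (hSC (hF.2.1 h))) hxu he).1
  · intro u hu
    have huC : u ∉ C := hWC u hu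
    have hin : ∀ x, x ∈ C → G.Adj u x → c x = c u →
        ∃ F, IsCmp G (C \ {v}) F ∧ x ∈ F ∧ u ∈ W1 G C W F v := by
      intro x hx hux he
      have hxv : x ≠ v := by
        intro h
        rw [h] at hux he
        exact hvout u huC hux.symm he.symm
      obtain ⟨F, hF, hxF⟩ := hcmp x hx hxv
      exact ⟨F, hF, hxF, (key F hF).conf x hxF u (fun h => huC (hSC (hF.2.1 h)))
        hux.symm he.symm⟩
    by_cases hne : ∃ x, x ∈ C ∧ G.Adj u x ∧ c x = c u
    · obtain ⟨x₀, hx₀, hux₀, he₀⟩ := hne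
      obtain ⟨F₀, hF₀, hxF₀, huW⟩ := hin x₀ hx₀ hux₀ he₀
      refine le_trans (Set.ncard_le_ncard ?_ (Set.toFinite _)) ((key F₀ hF₀).few u huW)
      rintro x ⟨hx, hux, he⟩
      obtain ⟨F, hF, hxF, _⟩ := hin x hx hux he
      have e : F = F₀ := huW.2.2.2 F hF ⟨x, hxF, u, rfl, hux.symm⟩
      exact ⟨e ▸ hxF, hux, he⟩
    · have he : {x | x ∈ C ∧ G.Adj u x ∧ c x = c u} = ∅ := by
        ext y
        simp only [Set.mem_setOf_eq, Set.mem_empty_iff_false, iff_false]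
        exact fun h => hne ⟨y, h⟩
      rw [he, Set.ncard_empty]
      exact Nat.zero_le _

end Pool.K4
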