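import Pool.Agent.Work.MP_768e99_four.Interface

/-!
# Four colours for `K_{3,s}`-minor-free graphs: block `S24`
-/

set_option autoImplicit false

namespace Pool.K4

open Pool.Agent.Work.MP_768e99_co Pool.K3F

theorem S24_col : ∀ o y : Fin 4, ∃ f : Fin 4, f ≠ 3 ∧ f ≠ o ∧ f ≠ y := by decide

theorem p_S24 (hND4 : Stmt_ND4) (hGN : Stmt_GN) (hNG4 : Stmt_NG4) : Stmt_S24 := by
  intro V _ G d C O Y SO SY Dl c₀ hd hfree hT hI2 hI1
  obtain ⟨H, R, P, hN⟩ := hND4 V G d C O Y SO SY Dl c₀ hd hfree hT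
  obtain ⟨o, -, hcO⟩ := hT.cO
  obtain ⟨y, -, hcY⟩ := hT.cY
  obtain ⟨f, hf3, hfo, hfy⟩ := S24_col o y
  have hfvis : ∀ x ∈ C, ∀ u, u ∉ C → G.Adj x u → c₀ u ≠ f := by
    intro x hx u hu hadj e
    rcases hT.out x hx u hadj with h | h | h | h | h | h
    · exact hu h
    · exact hfo (e.symm.trans (hcO x hx u h hadj))
    · exact hfy (e.symm.trans (hcY x hx u h hadj))
    · exact hf3 (e.symm.trans (hT.cS u (Or.inl h)))
    · exact hf3 (e.symm.trans (hT.cS u (Or.inr (Or.inl h))))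
    · exact hf3 (e.symm.trans (hT.cS u (Or.inr (Or.inr h))))
  obtain ⟨c, hc⟩ := hGN V G d C O Y SO SY Dl H R P c₀ f hfree hT hN hf3 hfvis hI2 hI1
  exact ⟨c, hNG4 V G d C O Y SO SY Dl H R P c₀ c f (by omega) hc⟩

end Pool.K4
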