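import Pool.Agent.Work.MP_768e99_four.Interface

/-!
# Block SDF (typed by helper72): a component of `C \ H` lies on the side of `O` or is disjoint
from it
-/

set_option autoImplicit false

namespace Pool.K4

open Pool.Agent.Work.MP_768e99_co Pool.K3F

/-- two points of a connected subset have the same component -/
theorem SDF_eq (hCMP : Stmt_CMP) {V : Type} {G : SimpleGraph V} {S F : Set V} (hc : Conn G F)
    (hs : F ⊆ S) {v w : V} (hv : v ∈ F) (hw : w ∈ F) : Cmp G S w = Cmp G S v := by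
  obtain ⟨h1, h2, -, h4⟩ := hCMP V G S
  obtain ⟨hC, hvC⟩ := h1 v (hs hv)
  exact h2 _ hC w (h4 _ hC F hs hc ⟨v, hv, hvC⟩ hw)

/-- adjacent points have the same component -/
theorem SDF_adj (hCMP : Stmt_CMP) {V : Type} {G : SimpleGraph V} {S : Set V} {v w : V}
    (hv : v ∈ S) (hw : w ∈ S) (h : G.Adj v w) : Cmp G S w = Cmp G S v := by
  obtain ⟨h1, h2, -, -⟩ := hCMP V G S
  obtain ⟨hC, hvC⟩ := h1 v hv
  exact h2 _ hC w (hC.2.2 v hvC w hw h)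

theorem p_SDF (hCMP : Stmt_CMP) (hDJ : Stmt_DJ) : Stmt_SDF := by
  intro V G d C O Y SO SY Dl H R P c hT hN F hF
  have hCU : C ⊆ C ∪ SO ∪ SY := fun x hx => Or.inl (Or.inl hx)
  have hFU : F ⊆ (C ∪ SO ∪ SY) \ H := fun x hx => ⟨hCU (hF.2.1 hx).1, (hF.2.1 hx).2⟩
  have key : ∀ v ∈ F, Tch G (Cmp G ((C ∪ SO ∪ SY) \ H) v) O →
      F ⊆ Sd G (C ∪ SO ∪ SY) H O := by
    intro v hv hvO w hw
    refine ⟨hFU hw, ?_⟩
    rw [SDF_eq hCMP hF.1 hFU hv hw]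
    exact hvO
  have hmem : ∀ v ∈ (C ∪ SO ∪ SY) \ H, v ∈ Cmp G ((C ∪ SO ∪ SY) \ H) v :=
    fun v hv => ((hCMP V G ((C ∪ SO ∪ SY) \ H)).1 v hv).2
  refine ⟨?_, ?_, ?_, ?_⟩
  · by_cases h : ∃ v ∈ F, Tch G (Cmp G ((C ∪ SO ∪ SY) \ H) v) O
    · obtain ⟨v, hv, hvO⟩ := h
      exact Or.inl (key v hv hvO)
    · right
      rw [Set.disjoint_left]
      intro v hv hvS
      exact h ⟨v, hv, hvS.2⟩
  · intro hFS
    by_contra hcon
    have hn1 : ¬ Tch G F O := fun h => hcon (Or.inl h)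
    have hn2 : ∀ z ∈ SO \ H, ¬ Tch G F {z} := fun z hz h => hcon (Or.inr ⟨z, hz, h⟩)
    have hFC : IsCmp G ((C ∪ SO ∪ SY) \ H) F := by
      refine ⟨hF.1, hFU, ?_⟩
      intro x hx y hy hxy
      obtain ⟨hyU, hyH⟩ := hy
      rcases hyU with (hyC | hyO) | hyY
      · exact hF.2.2 x hx y ⟨hyC, hyH⟩ hxy
      · exact absurd ⟨x, hx, y, rfl, hxy⟩ (hn2 y ⟨hyO, hyH⟩)
      · exfalso
        have hyS : y ∈ (C ∪ SO ∪ SY) \ H := ⟨Or.inr hyY, hyH⟩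
        have he := SDF_adj hCMP (hFU hx) hyS hxy
        obtain ⟨-, ⟨b, hb, y', hy', hby⟩, -⟩ := hT.sY y hyY
        rw [Set.mem_singleton_iff] at hy'
        subst hy'
        have hYt : Tch G (Cmp G ((C ∪ SO ∪ SY) \ H) y') Y :=
          ⟨y', hmem y' hyS, b, hb, hby.symm⟩
        have hd := hDJ V G (C ∪ SO ∪ SY) O Y H P hN.cut
        refine Set.disjoint_left.mp hd (hFS hx) ⟨hFU hx, ?_⟩
        rw [← he]
        exact hYt
    obtain ⟨v, hv⟩ := hF.1.1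
    have := (hFS hv).2
    rw [(hCMP V G ((C ∪ SO ∪ SY) \ H)).2.1 F hFC v hv] at this
    exact hn1 this
  · rintro ⟨v, hv, o, ho, hvo⟩
    exact key v hv ⟨v, hmem v (hFU hv), o, ho, hvo⟩
  · rintro z hz ⟨v, hv, z', hz', hvz⟩
    rw [Set.mem_singleton_iff] at hz'
    subst hz'
    have hzS : z' ∈ (C ∪ SO ∪ SY) \ H := ⟨Or.inl (Or.inr hz.1), hz.2⟩
    have he := SDF_adj hCMP (hFU hv) hzS hvz
    obtain ⟨-, ⟨b, hb, z'', hz'', hbz⟩, -⟩ := hT.sO z' hz.1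
    rw [Set.mem_singleton_iff] at hz''
    subst hz''
    refine key v hv ?_
    rw [← he]
    exact ⟨z'', hmem z'' hzS, b, hb, hbz.symm⟩

end Pool.K4
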