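import Pool.Agent.Work.MP_768e99_four.Interface

set_option autoImplicit false

namespace Pool.K4

open Pool.Agent.Work.MP_768e99_co Pool.K3F

theorem p_SIDE4 (hCN2 : Stmt_CN2) (hCMP : Stmt_CMP) : Stmt_SIDE4 := by
  intro V G C O Y H P hR hc
  obtain ⟨c1, c2, -, -⟩ := hCMP V G (C \ H)
  let Q : Set V := Y ∪ ⋃₀ {F | IsCmp G (C \ H) F ∧ Tch G F Y}
  have hQc : Conn G Q := hCN2 V G Y _ hR.connY fun F hF => ⟨hF.1.1, Or.inl hF.2⟩
  have hQY : ∀ v, v ∈ Q ↔ v ∈ Y ∨ (v ∈ C \ H ∧ Tch G (Cmp G (C \ H) v) Y) := by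
    intro v
    constructor
    · rintro (h | ⟨F, ⟨hF1, hF2⟩, hv⟩)
      · exact Or.inl h
      · refine Or.inr ⟨hF1.2.1 hv, ?_⟩
        rw [c2 F hF1 v hv]
        exact hF2
    · rintro (h | ⟨h1, h2⟩)
      · exact Or.inl h
      · exact Or.inr ⟨_, ⟨(c1 v h1).1, h2⟩, (c1 v h1).2⟩
  have hadj : ∀ h ∈ H, ∃ u ∈ Q, G.Adj h u := by
    intro h hh
    obtain ⟨p1, p2, p3, p4, -, w, hw, y, hy, hwy⟩ := hc.path h hh
    by_cases hwh : w = h
    · exact ⟨y, (hQY y).2 (Or.inl hy), hwh ▸ hwy⟩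
    · have hPH : ∀ b ∈ P h, b ∈ H → b = h := by
        intro b hb1 hb2
        have h1 : b ∈ P h ∩ H := ⟨hb1, hb2⟩
        rw [p4] at h1
        exact h1
      have hwC : w ∈ C \ H := ⟨p3 hw, fun hwH => hwh (hPH w hw hwH)⟩
      obtain ⟨hD, hwD⟩ := c1 w hwC
      by_contra hcon
      push Not at hcon
      have hDY : Tch G (Cmp G (C \ H) w) Y := ⟨w, hwD, y, hy, hwy⟩
      have h1 : P h ⊆ Cmp G (C \ H) w ∩ P h := by
        refine p1.2 _ Set.inter_subset_right ⟨w, hwD, hw⟩ ?_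
        intro a ha b hb hab
        refine ⟨?_, hb⟩
        by_cases hbH : b ∈ H
        · exfalso
          have hbh := hPH b hb hbH
          refine hcon a ((hQY a).2 (Or.inr ⟨hD.2.1 ha.1, ?_⟩)) ?_
          · rw [c2 _ hD a ha.1]
            exact hDY
          · rw [← hbh]
            exact hab.symm
        · exact hD.2.2 a ha.1 b ⟨p3 hb, hbH⟩ hab
      exact (hD.2.1 (h1 p2).1).2 hh
  have hRt : Y ∪ Sd G C H Y = Q := by
    ext v
    rw [hQY]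
    rfl
  rw [hRt]
  refine ⟨hQc, ?_⟩
  intro h hh
  obtain ⟨u, hu, hadj'⟩ := hadj h hh
  exact ⟨h, rfl, u, hu, hadj'⟩

end Pool.K4
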