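import Pool.Agent.Work.MP_768e99_four.Interface

/-!
Block T1A: child of the region with at most one root touching the root.
-/

set_option autoImplicit false

namespace Pool.K4

open Pool.Agent.Work.MP_768e99_co Pool.K3F

theorem T1A_sub {V : Type} {G : SimpleGraph V} {C W F : Set V} {v : V} : W1 G C W F v ⊆ W :=
  fun _ h => h.1

theorem p_T1A (hCMP : Stmt_CMP) (hTH : Stmt_TH) (hCN1 : Stmt_CN1) : Stmt_T1A := by
  classical
  intro V _ G C A W B c₀ v p h hv hp hB F hF hFA
  have hFC : F ⊆ C := fun x hx => (hF.2.1 hx).1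
  have hFv : v ∉ F := fun hx => (hF.2.1 hx).2 rfl
  have hvA : v ∉ A := fun hx => Set.disjoint_left.1 h.dCA hv hx
  have hWC : ∀ w ∈ W, w ∉ C := fun w hw hx =>
    Set.disjoint_left.1 h.dW hw (Or.inl (Or.inl hx))
  have hWA : ∀ w ∈ W, w ∉ A := fun w hw hx =>
    Set.disjoint_left.1 h.dW hw (Or.inl (Or.inr hx))
  have hWB : ∀ w ∈ W, w ∉ B := fun w hw hx =>
    Set.disjoint_left.1 h.dW hw (Or.inr hx)
  have hAne : A.Nonempty := by
    obtain ⟨x, hx, y, hy, hxy⟩ := hFA
    exact ⟨y, hy⟩
  have hTv : ∀ F₂, IsCmp G (C \ {v}) F₂ → Tch G F₂ {v} := by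
    intro F₂ hF₂
    exact (hTH V G C {v} F₂ h.conn ⟨v, rfl, hv⟩ hF₂).mono (fun _ hx => hx)
      Set.inter_subset_left
  have hcase : ∀ u, Tch G F {u} → u ∉ F → u ∉ A → u ≠ v →
      u ∈ W ∨ (u ∈ B ∧ ∃ x ∈ F, G.Adj x u) := by
    intro u hu huF huA huv
    obtain ⟨x, hx, y, hy, hxy⟩ := hu
    rw [Set.mem_singleton_iff] at hy
    subst hy
    rcases h.out x (hFC hx) y hxy with h1 | h1 | h1 | h1
    · exact absurd (hF.2.2 x hx y ⟨h1, huv⟩ hxy) huF
    · exact absurd h1 huA
    · exact Or.inl h1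
    · exact Or.inr ⟨h1, x, hx, hxy⟩
  refine
    { conn := hF.1
      connO := ?_
      connY := Conn.singleton v
      dCO := ?_
      dCY := ?_
      dOY := ?_
      dSO := ?_
      dSY := Set.empty_disjoint _
      dSS := Set.disjoint_empty _
      out := ?_
      tO := hFA
      tY := hTv F hF
      cO := ?_
      cY := ?_
      cS := ?_
      sO := ?_
      sY := fun z hz => absurd hz (Set.notMem_empty z)
      cl := ?_
      few := ?_ }
  · rcases h.connA with h1 | h1
    · exact absurd h1 hAne.ne_empty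
    · exact h1
  · exact h.dCA.mono_left hFC
  · exact Set.disjoint_singleton_right.2 hFv
  · exact Set.disjoint_singleton_right.2 hvA
  · rw [Set.disjoint_left]
    rintro w hw ((h1 | h1) | h1)
    · exact hWC w hw.1 (hFC h1)
    · exact hWA w hw.1 h1
    · rw [Set.mem_singleton_iff] at h1
      subst h1
      exact hWC w hw.1 hv
  · intro x hx u hxu
    by_cases h1 : u ∈ F
    · exact Or.inl h1
    by_cases h2 : u ∈ A
    · exact Or.inr (Or.inl h2)
    by_cases h3 : u = v
    · exact Or.inr (Or.inr (Or.inl h3))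
    by_cases h4 : u ∈ W1 G C W F v
    · exact Or.inr (Or.inr (Or.inr (Or.inl h4)))
    · exact Or.inr (Or.inr (Or.inr (Or.inr (Or.inr
        ⟨⟨x, hx, u, rfl, hxu⟩, h1, h2, h3, h4⟩))))
  · obtain ⟨a, ha, ha'⟩ := h.cA
    refine ⟨a, ha, ?_⟩
    intro x hx u hu hxu
    have huv : u ≠ v := fun e => hvA (e ▸ hu)
    rw [Function.update_of_ne huv]
    exact ha' x (hFC hx) u hu hxu
  · refine ⟨p, hp, ?_⟩
    intro x hx u hu hxu
    rw [Set.mem_singleton_iff] at hu
    subst hu
    simp
  · rintro u (h1 | h1 | ⟨h1, h2, h3, h4, h5⟩)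
    · have huv : u ≠ v := fun e => hWC u h1.1 (e ▸ hv)
      rw [Function.update_of_ne huv]
      exact h.cW u h1.1
    · exact absurd h1 (Set.notMem_empty u)
    · rw [Function.update_of_ne h4]
      rcases hcase u h1 h2 h3 h4 with h6 | ⟨h6, x, hx, hxu⟩
      · exact h.cW u h6
      · exact h.cB x (hFC hx) u h6 hxu
  · intro z hz
    refine ⟨hz.2.1, h.sA z hz.1, ?_⟩
    rintro ⟨x, hx, y, hy, hxy⟩
    rw [Set.mem_singleton_iff] at hx hy
    subst hx; subst hy
    exact hz.2.2.1 hxy.symm
  · rintro u ⟨h1, h2, h3, h4, h5⟩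
    rcases hcase u h1 h2 h3 h4 with h6 | ⟨h6, x, hx, hxu⟩
    · -- `u ∈ W`
      have hAu : Tch G {u} A := (h.sA u h6).symm
      by_cases h7 : G.Adj u v
      · refine ⟨{u}, Conn.singleton u, rfl, ?_, hAu, ⟨u, rfl, v, rfl, h7⟩⟩
        rw [Set.disjoint_left]
        rintro w hw hw'
        rw [Set.mem_singleton_iff] at hw
        subst hw
        rcases hw' with (((h8 | h8) | h8) | h8) | h8
        · exact h2 h8
        · exact h3 h8
        · exact h4 h8
        · exact h5 h8
        · exact h8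
      · have h8 : ∃ F₂, IsCmp G (C \ {v}) F₂ ∧ Tch G F₂ {u} ∧ F₂ ≠ F := by
          by_contra hcon
          push Not at hcon
          exact h5 ⟨h6, h1, h7, hcon⟩
        obtain ⟨F₂, hF₂, hF₂u, hne⟩ := h8
        have hF₂C : F₂ ⊆ C := fun x hx => (hF₂.2.1 hx).1
        have hdj : Disjoint F₂ F := (hCMP V G (C \ {v})).2.2.1 F₂ F hF₂ hF hne
        refine ⟨{u} ∪ F₂, hCN1 V G {u} F₂ (Conn.singleton u) hF₂.1 (Or.inl hF₂u.symm),
          Or.inl rfl, ?_, hAu.mono Set.subset_union_left (fun _ hx => hx),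
          (hTv F₂ hF₂).mono Set.subset_union_right (fun _ hx => hx)⟩
        rw [Set.disjoint_left]
        rintro w (hw | hw) hw'
        · rw [Set.mem_singleton_iff] at hw
          subst hw
          rcases hw' with (((h8 | h8) | h8) | h8) | h8
          · exact h2 h8
          · exact h3 h8
          · exact h4 h8
          · exact h5 h8
          · exact h8
        · rcases hw' with (((h8 | h8) | h8) | h8) | h8
          · exact Set.disjoint_left.1 hdj hw h8
          · exact Set.disjoint_left.1 h.dCA (hF₂C hw) h8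
          · exact (hF₂.2.1 hw).2 h8
          · exact hWC w h8.1 (hF₂C hw)
          · exact h8
    · -- `u ∈ B`
      have hCB : Tch G C B := ⟨x, hFC hx, u, h6, hxu⟩
      have hBc : Conn G B := by
        rcases h.connB with h7 | h7
        · rw [h7] at h6
          exact absurd h6 (Set.notMem_empty u)
        · exact h7
      refine ⟨B, hBc, h6, ?_, h.tAB hAne hCB, hB hCB⟩
      rw [Set.disjoint_left]
      rintro w hw hw'
      rcases hw' with (((h8 | h8) | h8) | h8) | h8
      · exact Set.disjoint_left.1 h.dCB (hFC h8) hw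
      · exact Set.disjoint_left.1 h.dAB h8 hw
      · rw [Set.mem_singleton_iff] at h8
        subst h8
        exact Set.disjoint_left.1 h.dCB hv hw
      · exact hWB w h8.1 hw
      · exact h8
  · intro x hx
    constructor
    · refine le_trans (Set.ncard_le_ncard ?_ (Set.toFinite _)) (h.few x (hFC hx))
      intro y hy
      exact ⟨hy.1.1, hy.2⟩
    · have : nb G x (∅ : Set V) = ∅ := by
        ext y
        simp [nb]
      rw [this]
      simp

end Pool.K4
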