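import Pool.Agent.Work.MP_768e99_four.Interface

/-!
# MP_768e99_co, block T1B: a child which does not touch the root
-/

set_option autoImplicit false

namespace Pool.K4

open Pool.Agent.Work.MP_768e99_co Pool.K3F

theorem T1B_mono {V : Type} {G : SimpleGraph V} {S S' T T' : Set V} (h : Tch G S T)
    (hS : S ⊆ S') (hT : T ⊆ T') : Tch G S' T' := by
  obtain ⟨x, hx, y, hy, hxy⟩ := h
  exact ⟨x, hS hx, y, hT hy, hxy⟩

theorem T1B_single {V : Type} {G : SimpleGraph V} (v : V) : Conn G {v} := by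
  refine ⟨⟨v, rfl⟩, ?_⟩
  rintro T hT ⟨x, hx⟩ -
  have h : x = v := hT hx
  rw [h] at hx
  intro y hy
  have h' : y = v := hy
  rw [h']; exact hx

theorem T1B_union {V : Type} {G : SimpleGraph V} {S T : Set V} (hS : Conn G S) (hT : Conn G T)
    (h : Tch G S T) : Conn G (S ∪ T) := by
  obtain ⟨x, hx, y, hy, hxy⟩ := h
  refine ⟨⟨x, Or.inl hx⟩, ?_⟩
  intro Z hZ hne hcl
  have hSZ : (Z ∩ S).Nonempty → S ⊆ Z := by
    intro hn
    have h1 := hS.2 (Z ∩ S) Set.inter_subset_right hn (by
      rintro a ⟨ha, haS⟩ b hb hab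
      exact ⟨hcl a ha b (Or.inl hb) hab, hb⟩)
    exact fun a ha => (h1 ha).1
  have hTZ : (Z ∩ T).Nonempty → T ⊆ Z := by
    intro hn
    have h1 := hT.2 (Z ∩ T) Set.inter_subset_right hn (by
      rintro a ⟨ha, haS⟩ b hb hab
      exact ⟨hcl a ha b (Or.inr hb) hab, hb⟩)
    exact fun a ha => (h1 ha).1
  obtain ⟨z, hz⟩ := hne
  rcases hZ hz with hzS | hzT
  · have h1 := hSZ ⟨z, hz, hzS⟩
    have h2 : y ∈ Z := hcl x (h1 hx) y (Or.inr hy) hxy
    exact Set.union_subset h1 (hTZ ⟨y, h2, hy⟩)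
  · have h1 := hTZ ⟨z, hz, hzT⟩
    have h2 : x ∈ Z := hcl y (h1 hy) x (Or.inl hx) hxy.symm
    exact Set.union_subset (hSZ ⟨x, h2, hx⟩) h1

theorem T1B_conn {V : Type} {G : SimpleGraph V} {S W : Set V} (hS : Conn G S)
    (h : ∀ w ∈ W, Tch G S {w}) : Conn G (S ∪ W) := by
  obtain ⟨x, hx⟩ := hS.1
  refine ⟨⟨x, Or.inl hx⟩, ?_⟩
  intro Z hZ hne hcl
  have hSZ : (Z ∩ S).Nonempty → S ⊆ Z := by
    intro hn
    have h1 := hS.2 (Z ∩ S) Set.inter_subset_right hn (by
      rintro a ⟨ha, haS⟩ b hb hab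
      exact ⟨hcl a ha b (Or.inl hb) hab, hb⟩)
    exact fun a ha => (h1 ha).1
  have hn : (Z ∩ S).Nonempty := by
    obtain ⟨z, hz⟩ := hne
    rcases hZ hz with hzS | hzW
    · exact ⟨z, hz, hzS⟩
    · obtain ⟨a, ha, b, hb, hab⟩ := h z hzW
      have hb' : b = z := hb
      rw [hb'] at hab
      exact ⟨a, hcl z hz a (Or.inl ha) hab.symm, ha⟩
  have hS' := hSZ hn
  refine Set.union_subset hS' ?_
  intro w hw
  obtain ⟨a, ha, b, hb, hab⟩ := h w hw
  have hb' : b = w := hb
  rw [hb'] at hab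
  exact hcl a (hS' ha) w (Or.inr hw) hab

theorem p_T1B (_h1 : Pool.K3F.Stmt_CMP) (_h2 : Stmt_TH) : Stmt_T1B := by
  intro V G C A W B c₀ v p hT hv hp hB hA hW F hF hFA
  classical
  have hFC : F ⊆ C := fun x hx => (hF.2.1 hx).1
  have hFv : v ∉ F := fun h => (hF.2.1 h).2 rfl
  have hCA : ∀ x ∈ C, x ∉ A := fun x hx hxA => Set.disjoint_left.1 hT.dCA hx hxA
  have hCB : ∀ x ∈ C, x ∉ B := fun x hx hxB => Set.disjoint_left.1 hT.dCB hx hxB
  have hCW : ∀ x ∈ C, x ∉ W := fun x hx hxW =>
    Set.disjoint_left.1 hT.dW hxW (Or.inl (Or.inl hx))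
  have hWA : A = ∅ → W = ∅ := by
    intro hA0
    rw [Set.eq_empty_iff_forall_notMem]
    intro w hw
    obtain ⟨a, ha, -⟩ := hT.sA w hw
    rw [hA0] at ha
    exact ha
  have hAW : A = ∅ ∨ Conn G (A ∪ W) := by
    rcases hT.connA with h | h
    · exact Or.inl h
    · exact Or.inr (T1B_conn h hT.sA)
  -- the new set
  have key : ∀ B' : Set V, A ∪ W ⊆ B' → B' ⊆ A ∪ W ∪ B → (Tch G C B → B ⊆ B') →
      (B' = ∅ ∨ Conn G B') → (Tch G F B' → Tch G B' {v}) →
      T1 G F {v} ∅ B' (Function.update c₀ v p) := by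
    intro B' h1 h2 h3 h4 h5
    have hB'C : ∀ x ∈ C, x ∉ B' := by
      intro x hx hxB
      rcases h2 hxB with (h | h) | h
      · exact hCA x hx h
      · exact hCW x hx h
      · exact hCB x hx h
    refine ⟨hF.1, Or.inr (T1B_single v), h4, ?_, ?_, ?_, ?_, ?_, ?_, ?_, ?_, ?_, fun _ => h5, ?_⟩
    · rw [Set.disjoint_singleton_right]; exact hFv
    · rw [Set.disjoint_left]
      exact fun x hx => hB'C x (hFC hx)
    · rw [Set.disjoint_singleton_left]
      exact hB'C v hv
    · exact Set.empty_disjoint _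
    · intro x hx u hxu
      rcases hT.out x (hFC hx) u hxu with h | h | h | h
      · by_cases huv : u = v
        · exact Or.inr (Or.inl huv)
        · exact Or.inl (hF.2.2 x hx u ⟨h, huv⟩ hxu)
      · exact absurd ⟨x, hx, u, h, hxu⟩ hFA
      · exact Or.inr (Or.inr (Or.inr (h1 (Or.inr h))))
      · exact Or.inr (Or.inr (Or.inr (h3 ⟨x, hFC hx, u, h, hxu⟩ h)))
    · refine ⟨p, hp, ?_⟩
      intro x _ u hu _
      have hu' : u = v := hu
      rw [hu', Function.update_self]
    · intro u hu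
      exact absurd hu (Set.notMem_empty u)
    · intro x hx u hu hxu
      have huv : u ≠ v := by
        rintro rfl
        exact hB'C u hv hu
      rw [Function.update_of_ne huv]
      rcases h2 hu with (h | h) | h
      · exact absurd ⟨x, hx, u, h, hxu⟩ hFA
      · exact hT.cW u h
      · exact hT.cB x (hFC hx) u h hxu
    · intro w hw
      exact absurd hw (Set.notMem_empty w)
    · intro x _
      have h6 : nb G x (∅ : Set V) = ∅ := by
        rw [Set.eq_empty_iff_forall_notMem]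
        rintro y ⟨hy, -⟩
        exact hy
      rw [h6, Set.ncard_empty]
      omega
  by_cases hCBt : Tch G C B
  · refine ⟨A ∪ W ∪ B, key _ Set.subset_union_left le_rfl (fun _ => Set.subset_union_right) ?_ ?_⟩
    · right
      have hBc : Conn G B := by
        rcases hT.connB with h | h
        · exfalso
          obtain ⟨x, hx, y, hy, -⟩ := hCBt
          rw [h] at hy
          exact hy
        · exact h
      rcases hAW with h | h
      · rw [hWA h, h]
        simpa using hBc
      · apply T1B_union h hBc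
        have hAn : A.Nonempty := by
          rcases Set.eq_empty_or_nonempty A with h0 | h0
          · exfalso
            obtain ⟨z, hz⟩ := h.1
            rw [h0, hWA h0] at hz
            simp at hz
          · exact h0
        obtain ⟨b, hb, a, ha, hab⟩ := hT.tAB hAn hCBt
        exact ⟨a, Or.inl ha, b, hb, hab.symm⟩
    · intro _
      exact T1B_mono (hB hCBt) Set.subset_union_right le_rfl
  · refine ⟨A ∪ W, key _ le_rfl Set.subset_union_left (fun h => absurd h hCBt) ?_ ?_⟩
    · rcases hAW with h | h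
      · left
        rw [h, hWA h]
        simp
      · exact Or.inr h
    · rintro ⟨x, hx, y, hy, hxy⟩
      rcases hy with hy | hy
      · exact absurd ⟨x, hx, y, hy, hxy⟩ hFA
      · by_cases hCAt : Tch G C A
        · exact T1B_mono (hA hCBt hCAt) Set.subset_union_left le_rfl
        · exact T1B_mono (hW hCBt hCAt ⟨x, hFC hx, y, hy, hxy⟩) Set.subset_union_right le_rfl

end Pool.K4
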