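import Pool.Agent.Work.MP_768e99_four.Interface

set_option autoImplicit false

namespace Pool.K4

open Pool.Agent.Work.MP_768e99_co Pool.K3F

theorem p_TH : Stmt_TH := by
  intro V G C H F hC hne hF
  obtain ⟨hFc, hFs, hFcl⟩ := hF
  by_contra hno
  have hcl : ∀ x ∈ F, ∀ y ∈ C, G.Adj x y → y ∈ F := by
    intro x hx y hy hxy
    by_cases hyH : y ∈ H
    · exact absurd ⟨x, hx, y, ⟨hyH, hy⟩, hxy⟩ hno
    · exact hFcl x hx y ⟨hy, hyH⟩ hxy
  have hFC : F ⊆ C := fun x hx => (hFs hx).1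
  have hFne : F.Nonempty := hFc.1
  have hall : F = C := Set.Subset.antisymm hFC (hC.2 F hFC hFne hcl)
  obtain ⟨h, hh, hhC⟩ := hne
  have : h ∈ F := by rw [hall]; exact hhC
  exact (hFs this).2 hh

end Pool.K4
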