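import Pool.Agent.Work.MP_768e99_four.Interface

/-!
# Four colours for `K_{3,s}`-minor-free graphs: block `TR4`
-/

set_option autoImplicit false

namespace Pool.K4

open Pool.Agent.Work.MP_768e99_co Pool.K3F

theorem p_TR4 : Stmt_TR4 := by
  intro V G d F S S' c₁ c' c hF hN hS' hSS hdis h
  have key : ∀ x ∈ F, {y | G.Adj x y ∧ c y = c x} = {y | G.Adj x y ∧ c' y = c' x} := by
    intro x hx
    ext y
    simp only [Set.mem_ofPred_eq]
    constructor
    · rintro ⟨h1, h2⟩
      refine ⟨h1, ?_⟩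
      rw [← hN x hx y h1, ← hF x hx, h2]
    · rintro ⟨h1, h2⟩
      refine ⟨h1, ?_⟩
      rw [hN x hx y h1, hF x hx, h2]
  have hconf : ∀ x ∈ F, ∀ u, u ∉ F → G.Adj x u → c u = c x → u ∈ S := by
    intro x hx u hu hadj hc
    refine h.conf x hx u hu hadj ?_
    rw [← hN x hx u hadj, ← hF x hx, hc]
  refine ⟨fun v _ => rfl, ?_, ?_, ?_⟩
  · intro x hx
    rw [key x hx]
    exact h.defect x hx
  · intro x hx u hu hadj hc
    exact hSS (hconf x hx u hu hadj hc)
  · intro u hu
    by_cases huS : u ∈ S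
    · have e : {x | x ∈ F ∧ G.Adj u x ∧ c x = c u} = {x | x ∈ F ∧ G.Adj u x ∧ c' x = c' u} := by
        ext x
        simp only [Set.mem_ofPred_eq]
        constructor
        · rintro ⟨h1, h2, h3⟩
          refine ⟨h1, h2, ?_⟩
          rw [← hF x h1, ← hS' u hu, h3]
        · rintro ⟨h1, h2, h3⟩
          refine ⟨h1, h2, ?_⟩
          rw [hF x h1, hS' u hu, h3]
      rw [e]
      exact h.few u huS
    · have e : {x | x ∈ F ∧ G.Adj u x ∧ c x = c u} = ∅ := by
        ext x
        simp only [Set.mem_ofPred_eq, Set.mem_empty_iff_false, iff_false]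
        rintro ⟨h1, h2, h3⟩
        exact huS (hconf x h1 u (Set.disjoint_left.1 hdis hu) h2.symm h3.symm)
      rw [e, Set.ncard_empty]
      exact Nat.zero_le _

end Pool.K4
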