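import Pool.Agent.Work.MP_768e99_four.Interface

set_option autoImplicit false

namespace Pool.K4

open Pool.Agent.Work.MP_768e99_co Pool.K3F

theorem p_TSA (hELT : Stmt_ELT) : Stmt_TSA := by
  intro V G d C O Y SO SY Dl H R P c hT hN F hF _
  obtain ⟨e1, e2, e3⟩ := hELT V G d C O Y SO SY Dl H R P c hT hN
  have hFC : ∀ v ∈ F, v ∈ C ∧ v ∉ H := fun v hv => hF.2.1 hv
  have hSO : ∀ z ∈ SO, z ∉ C ∧ z ∉ O := by
    intro z hz
    have h := Set.disjoint_left.1 hT.dSO hz
    exact ⟨fun h' => h (Or.inl (Or.inl h')), fun h' => h (Or.inl (Or.inr h'))⟩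
  refine ⟨?_, ?_, ?_⟩
  · intro z hz
    obtain ⟨K, k1, k2, k3, k4, k5⟩ := hT.cl z hz
    refine ⟨K, k1, k2, ?_, k4, ?_⟩
    · rw [Set.disjoint_union_right, Set.disjoint_union_right]
      refine ⟨⟨?_, ?_⟩, e3 K k3⟩
      · exact k3.mono_right fun v hv => Or.inl (Or.inl (Or.inl (Or.inl (hFC v hv).1)))
      · exact k3.mono_right fun v hv => Or.inl (Or.inl (Or.inl (Or.inr hv)))
    · exact k5.mono subset_rfl fun v hv => Or.inl (Or.inl hv)
  · rintro z ⟨hzH, hzS⟩
    refine ⟨{z}, Conn.singleton z, rfl, ?_, (hT.sO z hzS).2.1.symm, e2 z hzH⟩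
    rw [Set.disjoint_singleton_left]
    rintro ((h | h) | h)
    · exact (hFC z h).2 hzH
    · exact (hSO z hzS).2 h
    · exact e1 z (Or.inl hzS) h
  · rintro z ⟨hzS, _⟩ x hxR hzx
    have hxHC := hN.sub hxR
    have hc : Conn G ({z} ∪ {x}) := by
      apply (Conn.singleton z).union
      intro u hu
      rw [Set.mem_singleton_iff] at hu
      subst hu
      exact ⟨z, rfl, hzx.symm⟩
    refine ⟨{z} ∪ {x}, hc, Or.inl rfl, ?_, ?_, ?_⟩
    · rw [Set.disjoint_union_left, Set.disjoint_singleton_left, Set.disjoint_singleton_left]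
      constructor
      · rintro ((h | h) | h)
        · exact (hSO z hzS).1 (hFC z h).1
        · exact (hSO z hzS).2 h
        · exact e1 z (Or.inl hzS) h
      · rintro ((h | h) | h)
        · exact (hFC x h).2 hxHC.1
        · exact Set.disjoint_left.1 hT.dCO hxHC.2 h
        · exact e1 x (Or.inr (Or.inl hxR)) h
    · exact (hT.sO z hzS).2.1.symm.mono Set.subset_union_left subset_rfl
    · exact (e2 x hxHC.1).mono Set.subset_union_right subset_rfl

end Pool.K4
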