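import Pool.Agent.Work.MP_768e99_four.Interface

/-!
# Block TSB: special vertices which see another child on the side of `O`
-/

set_option autoImplicit false

namespace Pool.K4

open Pool.Agent.Work.MP_768e99_co Pool.K3F

theorem TSB_disj {V : Type} {A F O Y : Set V} (h1 : Disjoint A F) (h2 : Disjoint A O)
    (h3 : Disjoint A Y) : Disjoint A (F ∪ O ∪ Y) := by
  rw [Set.disjoint_union_right, Set.disjoint_union_right]
  exact ⟨⟨h1, h2⟩, h3⟩

theorem p_TSB (hSDF : Stmt_SDF) (hTH : Stmt_TH) (hBAS : Stmt_BAS) (hELT : Stmt_ELT)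
    (hCMP : Stmt_CMP) (hCN1 : Stmt_CN1) : Stmt_TSB := by
  intro V G d C O Y SO SY Dl H R P c st nd F F₂ hF hF2 hne hFO hF2O z hz hz2
  obtain ⟨_, _, _, hb⟩ := hBAS V G d C O Y SO SY Dl H R P c st nd
  obtain ⟨he1, he2, _⟩ := hELT V G d C O Y SO SY Dl H R P c st nd
  have hFF : Disjoint F₂ F := (hCMP V G (C \ H)).2.2.1 F₂ F hF2 hF (Ne.symm hne)
  have hF2C : F₂ ⊆ C := fun x hx => (hF2.2.1 hx).1
  have hFC : F ⊆ C := fun x hx => (hF.2.1 hx).1
  have hF2d : Disjoint F₂ (F ∪ O ∪ Nw G C SO SY H R Y) :=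
    TSB_disj hFF (st.dCO.mono_left hF2C) (hb F₂ hF2 hF2O).1
  have hone : ∀ w, w ∈ SO ∨ w ∈ R ∨ w ∈ H ∩ SY →
      Disjoint ({w} : Set V) (F ∪ O ∪ Nw G C SO SY H R Y) := by
    intro w hw
    refine TSB_disj ?_ ?_ ?_
    · rw [Set.disjoint_singleton_left]
      intro hwF
      rcases hw with h | h | h
      · exact Set.disjoint_left.1 st.dSO h (Or.inl (Or.inl (hFC hwF)))
      · exact (hF.2.1 hwF).2 (nd.sub h).1
      · exact (hF.2.1 hwF).2 h.1
    · rw [Set.disjoint_singleton_left]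
      intro hwO
      rcases hw with h | h | h
      · exact Set.disjoint_left.1 st.dSO h (Or.inl (Or.inr hwO))
      · exact Set.disjoint_left.1 st.dCO (nd.sub h).2 hwO
      · exact Set.disjoint_left.1 st.dSY h.2 (Or.inl (Or.inr hwO))
    · rw [Set.disjoint_singleton_left]
      exact he1 w hw
  have hK1 : Conn G (F₂ ∪ {z}) := hCN1 V G F₂ {z} hF2.1 (Conn.singleton z) (Or.inl hz2)
  have hzK : z ∈ F₂ ∪ {z} := Or.inr rfl
  have hz3 : z ∈ SO ∨ z ∈ R ∨ z ∈ H ∩ SY := by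
    rcases hz with h | h | h
    · exact Or.inl h.1
    · exact Or.inr (Or.inl h)
    · exact Or.inr (Or.inr h)
  have hd1 : Disjoint (F₂ ∪ {z}) (F ∪ O ∪ Nw G C SO SY H R Y) := by
    rw [Set.disjoint_union_left]
    exact ⟨hF2d, hone z hz3⟩
  by_cases hzS : z ∈ SO \ H
  · have htO : Tch G (F₂ ∪ {z}) O :=
      (st.sO z hzS.1).2.1.symm.mono (Set.subset_union_right) (le_refl O)
    obtain ⟨x, hx, h, hh, hadj⟩ := hTH V G C H F₂ st.conn nd.ne hF2
    by_cases hR : h ∈ R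
    · have ht : Tch G (F₂ ∪ {z}) {h} := ⟨x, Or.inl hx, h, rfl, hadj⟩
      refine ⟨(F₂ ∪ {z}) ∪ {h}, hCN1 V G _ _ hK1 (Conn.singleton h) (Or.inl ht), Or.inl hzK, ?_, ?_, ?_⟩
      · rw [Set.disjoint_union_left]
        exact ⟨hd1, hone h (Or.inr (Or.inl hR))⟩
      · exact htO.mono Set.subset_union_left (le_refl O)
      · exact (he2 h hh.1).mono Set.subset_union_right (le_refl _)
    · refine ⟨F₂ ∪ {z}, hK1, hzK, hd1, htO, ⟨x, Or.inl hx, h, ?_, hadj⟩⟩
      unfold Nw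
      exact Or.inr ⟨hh, hR⟩
  · have hzH : z ∈ H := by
      rcases hz with h | h | h
      · exact absurd h hzS
      · exact (nd.sub h).1
      · exact h.1
    have htY : Tch G (F₂ ∪ {z}) (Nw G C SO SY H R Y) :=
      (he2 z hzH).mono Set.subset_union_right (le_refl _)
    rcases (hSDF V G d C O Y SO SY Dl H R P c st nd F₂ hF2).2.1 hF2O with h | ⟨z', hz', ht'⟩
    · exact ⟨F₂ ∪ {z}, hK1, hzK, hd1, h.mono Set.subset_union_left (le_refl O), htY⟩
    · have ht : Tch G (F₂ ∪ {z}) {z'} := ht'.mono Set.subset_union_left (le_refl _)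
      refine ⟨(F₂ ∪ {z}) ∪ {z'}, hCN1 V G _ _ hK1 (Conn.singleton z') (Or.inl ht), Or.inl hzK, ?_, ?_, ?_⟩
      · rw [Set.disjoint_union_left]
        exact ⟨hd1, hone z' (Or.inl hz'.1)⟩
      · exact (st.sO z' hz'.1).2.1.symm.mono Set.subset_union_right (le_refl O)
      · exact htY.mono Set.subset_union_left (le_refl _)

end Pool.K4
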