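import Pool.Agent.Work.MP_768e99_four.Interface

/-!
# Block UR of MP_768e99_four (typed by helper49)
-/

set_option autoImplicit false

namespace Pool.K4

open Pool.Agent.Work.MP_768e99_co Pool.K3F

theorem p_UR : Stmt_UR := by
  intro V G C O Y SO SY Dl c h
  have hadj : ∀ z, Tch G C {z} → ∃ u ∈ C, G.Adj z u := by
    rintro z ⟨x, hx, y, hy, hxy⟩
    rw [Set.mem_singleton_iff] at hy
    subst hy
    exact ⟨x, hx, hxy.symm⟩
  have h1 : Conn G (C ∪ SO) := h.conn.union fun z hz => hadj z (h.sO z hz).1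
  have h2 : Conn G (C ∪ SO ∪ SY) := h1.union fun z hz => by
    obtain ⟨u, hu, hzu⟩ := hadj z (h.sY z hz).1
    exact ⟨u, Or.inl hu, hzu⟩
  have hSO := h.dSO
  have hSY := h.dSY
  simp only [Set.disjoint_union_right] at hSO hSY
  refine ⟨h2, h.connO, h.connY, ?_, ?_, h.dOY, ?_, ?_⟩
  · simp only [Set.disjoint_union_left]
    exact ⟨⟨h.dCO, hSO.1.2⟩, hSY.1.2⟩
  · simp only [Set.disjoint_union_left]
    exact ⟨⟨h.dCY, hSO.2⟩, hSY.2⟩
  · obtain ⟨x, hx, y, hy, hxy⟩ := h.tO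
    exact ⟨x, Or.inl (Or.inl hx), y, hy, hxy⟩
  · obtain ⟨x, hx, y, hy, hxy⟩ := h.tY
    exact ⟨x, Or.inl (Or.inl hx), y, hy, hxy⟩

end Pool.K4
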