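import Pool.Agent.Work.MP_768e99_five.Final
import Pool.Agent.Work.MP_768e99_four.B_CUT4
import Pool.Agent.Work.MP_768e99_four.B_DEG4
import Pool.Agent.Work.MP_768e99_four.B_LNK4
import Pool.Agent.Work.MP_768e99_four.B_PAIR4
import Pool.Agent.Work.MP_768e99_four.B_QUAD4
import Pool.Agent.Work.MP_768e99_four.B_SIDE4
import Pool.Agent.Work.MP_768e99_four.B_UR
import Pool.Agent.Work.MP_768e99_four.B_RM4
import Pool.Agent.Work.MP_768e99_four.B_PUR
import Pool.Agent.Work.MP_768e99_four.B_ND4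
import Pool.Agent.Work.MP_768e99_four.B_DJ
import Pool.Agent.Work.MP_768e99_four.B_TH
import Pool.Agent.Work.MP_768e99_four.B_SDF
import Pool.Agent.Work.MP_768e99_four.B_NBF
import Pool.Agent.Work.MP_768e99_four.B_NBM
import Pool.Agent.Work.MP_768e99_four.B_ELT
import Pool.Agent.Work.MP_768e99_four.B_BAS
import Pool.Agent.Work.MP_768e99_four.B_TSA
import Pool.Agent.Work.MP_768e99_four.B_TSB
import Pool.Agent.Work.MP_768e99_four.B_FEW4
import Pool.Agent.Work.MP_768e99_four.B_CN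
import Pool.Agent.Work.MP_768e99_four.B_LK1
import Pool.Agent.Work.MP_768e99_four.B_LK2
import Pool.Agent.Work.MP_768e99_four.B_CJ1
import Pool.Agent.Work.MP_768e99_four.B_CJ2
import Pool.Agent.Work.MP_768e99_four.B_CM
import Pool.Agent.Work.MP_768e99_four.B_GL4
import Pool.Agent.Work.MP_768e99_four.B_TR4
import Pool.Agent.Work.MP_768e99_four.B_GN
import Pool.Agent.Work.MP_768e99_four.B_NC4
import Pool.Agent.Work.MP_768e99_four.B_NM4
import Pool.Agent.Work.MP_768e99_four.B_CF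
import Pool.Agent.Work.MP_768e99_four.B_NR4
import Pool.Agent.Work.MP_768e99_four.B_NF4
import Pool.Agent.Work.MP_768e99_four.B_NG4
import Pool.Agent.Work.MP_768e99_four.B_S24
import Pool.Agent.Work.MP_768e99_four.B_T1A
import Pool.Agent.Work.MP_768e99_four.B_T1B
import Pool.Agent.Work.MP_768e99_four.B_S14
import Pool.Agent.Work.MP_768e99_four.B_ALL4
import Pool.Agent.Work.MP_768e99_four.B_FIN4

/-!
# Four colours for `K_{3,s}`-minor-free graphs: assembly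
-/

set_option autoImplicit false

namespace Pool.K4

open Pool.Agent.Work.MP_768e99_co Pool.K3F

/-- For `d ≥ 11` every finite graph without `K_{3,d+2}` minor is `(4, d)*`-colourable. -/
theorem four_type0 : Stmt_FIN4 := by
  have hK3 : Stmt_K3 := p_K3
  have hCMP : Stmt_CMP := p_CMP
  have hCN1 : Stmt_CN1 := p_CN1
  have hCN2 : Stmt_CN2 := p_CN2
  have hHIT2 : Stmt_HIT2 := p_HIT2 (p_HIT hCMP)
  have hDEG := p_DEG4 hK3
  have hLNK := p_LNK4 hHIT2 hCN1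
  have hPAIR := p_PAIR4 hLNK hK3
  have hQUAD := p_QUAD4 hPAIR hK3 hCN1
  have hSIDE := p_SIDE4 hCN2 hCMP
  have hUR := p_UR
  have hPUR := p_PUR hUR hDEG hK3
  have hND4 := p_ND4 hUR p_CUT4 hSIDE hDEG hQUAD p_RM4 hPUR
  have hDJ := p_DJ hCMP
  have hTH := p_TH
  have hSDF := p_SDF hCMP hDJ
  have hNBF := p_NBF hCMP hDJ
  have hNBM := p_NBM hSDF hCMP
  have hELT := p_ELT hDJ hCMP
  have hBAS := p_BAS hCMP hDJ hNBF hELT
  have hTSA := p_TSA hELT
  have hTSB := p_TSB hSDF hTH hBAS hELT hCMP hCN1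
  have hFEW := p_FEW4 hK3
  have hCN := p_CN hBAS hELT hNBF hTSA hFEW
  have hLK1 := p_LK1 hSDF hTH hBAS hELT hCMP hDJ hCN1
  have hLK2 := p_LK2 hSDF hTH hBAS hELT hCMP hCN1
  have hCJ1 := p_CJ1 hBAS hELT hNBF hTSA hFEW hLK1 hCN2 hTH
  have hCJ2 := p_CJ2 hBAS hELT hNBF hTSA hFEW hLK2 hCN2
  have hCM := p_CM hBAS hELT hNBM hSDF hCMP hCN2 hCN1
  have hGL := p_GL4 hCMP
  have hGN := p_GN hCN hCJ1 hCJ2 hCM hGL p_TR4
  have hNC := p_NC4 hCMP
  have hNM := p_NM4 hCMP hNC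
  have hCF := p_CF hSDF hTSA hTSB hCMP
  have hNR := p_NR4 hNC hCF hSDF hCMP
  have hNF := p_NF4 hCF hSDF hCMP
  have hNG := p_NG4 hNC hNM hNR hNF
  have hS2 := p_S24 hND4 hGN hNG
  have hS1 := p_S14 (p_T1A hCMP hTH hCN1) (p_T1B hCMP hTH) hGL p_TR4 hCMP
  exact p_FIN4 (p_ALL4 hS2 hS1 hGL p_TR4 hCMP)

end Pool.K4
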