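import Pool.Agent.Work.MP_768e99_four.Interface

set_option autoImplicit false

namespace Pool.K4

open Pool.Agent.Work.MP_768e99_co Pool.K3F

theorem p_CF (hSDF : Stmt_SDF) (hTSA : Stmt_TSA) (hTSB : Stmt_TSB)
    (hCMP : Pool.K3F.Stmt_CMP) : Stmt_CF := by
  intro V _ G d C O Y SO SY Dl H R P c₀ c f hN z hz
  have hzF : ∀ F, IsCmp G (C \ H) F → z ∉ F := by
    intro F hF h
    have h1 := hF.2.1 h
    rcases hz with hz | hz | hz
    · exact Set.disjoint_left.1 hN.st.dSO hz.1 (Or.inl (Or.inl h1.1))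
    · exact h1.2 (hN.nd.sub hz).1
    · exact h1.2 hz.1
  have key : ∀ y, y ∈ C \ H → y ∈ Sd G (C ∪ SO ∪ SY) H O → G.Adj z y → c y = c z →
      IsCmp G (C \ H) (Cmp G (C \ H) y) ∧ y ∈ Cmp G (C \ H) y ∧
      Cmp G (C \ H) y ⊆ Sd G (C ∪ SO ∪ SY) H O ∧
      Tch G (Cmp G (C \ H) y) {z} ∧
      z ∈ OA G C SO SY H R O Y (Cmp G (C \ H) y) ∪ OB G C SO SY H R O Y (Cmp G (C \ H) y) ∧
      ¬ TS G (Cmp G (C \ H) y) O (Nw G C SO SY H R Y) z := by
    intro y hy hyS hzy hcy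
    obtain ⟨h1, h2⟩ := (hCMP V G (C \ H)).1 y hy
    have hsub : Cmp G (C \ H) y ⊆ Sd G (C ∪ SO ∪ SY) H O := by
      rcases (hSDF V G d C O Y SO SY Dl H R P c₀ hN.st hN.nd _ h1).1 with h | h
      · exact h
      · exact absurd hyS (Set.disjoint_left.1 h h2)
    have hmem := (hN.kO _ h1 hsub).conf y h2 z (hzF _ h1) hzy.symm hcy.symm
    refine ⟨h1, h2, hsub, ⟨y, h2, z, rfl, hzy.symm⟩, hmem, ?_⟩
    rcases hmem with h | h
    · exact h.2.2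
    · exact h.2.2
  constructor
  · rcases Set.eq_empty_or_nonempty
      {y | y ∈ C \ H ∧ y ∈ Sd G (C ∪ SO ∪ SY) H O ∧ G.Adj z y ∧ c y = c z} with he | hne
    · rw [he]
      simp
    · obtain ⟨y0, h01, h02, h03, h04⟩ := hne
      obtain ⟨k1, k2, k3, k4, k5, k6⟩ := key y0 h01 h02 h03 h04
      refine le_trans (Set.ncard_le_ncard ?_ (Set.toFinite _)) ((hN.kO _ k1 k3).few z k5)
      rintro y ⟨h1, h2, h3, h4⟩
      obtain ⟨m1, m2, m3, m4, m5, m6⟩ := key y h1 h2 h3 h4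
      have hEq : Cmp G (C \ H) y0 = Cmp G (C \ H) y := by
        by_contra hne
        exact k6 (hTSB V G d C O Y SO SY Dl H R P c₀ hN.st hN.nd _ _ k1 m1 hne k3 m3 z hz m4)
      refine ⟨?_, h3, h4⟩
      rw [hEq]
      exact m2
  · rintro hzS ⟨x, hxR, hzx⟩
    rw [Set.eq_empty_iff_forall_notMem]
    rintro y ⟨h1, h2, h3, h4⟩
    obtain ⟨m1, m2, m3, m4, m5, m6⟩ := key y h1 h2 h3 h4
    exact m6 ((hTSA V G d C O Y SO SY Dl H R P c₀ hN.st hN.nd _ m1 m3).2.2 z hzS x hxR hzx)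

end Pool.K4
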