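import Pool.Agent.Work.MP_768e99_four.Interface

/-!
# Block CN: normal child (helper86)
-/

set_option autoImplicit false

namespace Pool.K4

open Pool.Agent.Work.MP_768e99_co Pool.K3F

lemma CN_three {V : Type} {S T U : Set V} {z : V} :
    z ∉ S ∪ T ∪ U ↔ z ∉ S ∧ z ∉ T ∧ z ∉ U := by
  simp only [Set.mem_union, not_or, and_assoc]

lemma CN_disj {V : Type} {A B : Set V} (h : ∀ z ∈ A, z ∉ B) : Disjoint A B :=
  Set.disjoint_left.2 fun _ ha hb => h _ ha hb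

/-- the one-point link -/
lemma CN_ts {V : Type} {G : SimpleGraph V} {F O Y : Set V} {z : V} (h : z ∉ F ∪ O ∪ Y)
    (hO : Tch G {z} O) (hY : Tch G {z} Y) : TS G F O Y z :=
  ⟨{z}, Conn.singleton z, rfl, Set.disjoint_singleton_left.2 h, hO, hY⟩

lemma CN_paint_out {V : Type} {c₀ : V → Fin 4} {HC R : Set V} {f : Fin 4} {v : V} (h : v ∉ HC)
    (hR : R ⊆ HC) : paint c₀ HC R f v = c₀ v := by
  have h2 : v ∉ R := fun hv => h (hR hv)
  simp only [paint, if_neg h2, if_neg h]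

theorem p_CN (hBAS : Stmt_BAS) (hELT : Stmt_ELT) (hNBF : Stmt_NBF) (hTSA : Stmt_TSA)
    (hFEW4 : Stmt_FEW4) : Stmt_CN := by
  intro V _ G d C O Y SO SY Dl H R P c f hfree hT hN hf F hF hFA hFO hFM
  obtain ⟨b1, b2, b3, b4⟩ := hBAS V G d C O Y SO SY Dl H R P c hT hN
  obtain ⟨b5, b6⟩ := b4 F hF hFA
  obtain ⟨e1, e2, e3⟩ := hELT V G d C O Y SO SY Dl H R P c hT hN
  have nbf := hNBF V G d C O Y SO SY Dl H R P c hT hN F hF hFA
  obtain ⟨t1, t2, t3⟩ := hTSA V G d C O Y SO SY Dl H R P c hT hN F hF hFA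
  have few := hFEW4 V G d C O Y SO SY Dl H R P c hfree hT hN F hF hFA
  have hFC : ∀ x ∈ F, x ∈ C ∧ x ∉ H := fun x hx => hF.2.1 hx
  have hR : ∀ z ∈ R, z ∈ H ∧ z ∈ C := fun z hz => hN.sub hz
  have hSO : ∀ z ∈ SO, z ∉ C ∧ z ∉ O ∧ z ∉ Y := fun z hz =>
    CN_three.1 (Set.disjoint_left.1 hT.dSO hz)
  have hSY : ∀ z ∈ SY, z ∉ C ∧ z ∉ O ∧ z ∉ Y := fun z hz =>
    CN_three.1 (Set.disjoint_left.1 hT.dSY hz)
  have hO : ∀ z ∈ O, z ∉ C := fun z hz hc => Set.disjoint_left.1 hT.dCO hc hz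
  have hDl : ∀ z ∈ Dl, z ∉ C := by
    intro z hz hc
    obtain ⟨K, _, hzK, hK, _⟩ := hT.cl z hz
    exact Set.disjoint_left.1 hK hzK (Or.inl (Or.inl (Or.inl (Or.inl hc))))
  -- the one-sided vertices are outside `F ∪ O ∪ Y'`
  have hOA : ∀ z ∈ OA G C SO SY H R O Y F, z ∉ F ∪ O ∪ Nw G C SO SY H R Y := by
    rintro z ⟨⟨hz, _⟩, _, _⟩
    exact CN_three.2 ⟨fun h => (hSO z hz).1 (hFC z h).1, (hSO z hz).2.1, e1 z (Or.inl hz)⟩
  have hOB : ∀ z ∈ OB G C SO SY H R O Y F, z ∉ F ∪ O ∪ Nw G C SO SY H R Y := by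
    rintro z ⟨hz | hz, _, _⟩
    · exact CN_three.2 ⟨fun h => (hFC z h).2 (hR z hz).1, fun h => hO z h (hR z hz).2,
        e1 z (Or.inr (Or.inl hz))⟩
    · exact CN_three.2 ⟨fun h => (hFC z h).2 hz.1, (hSY z hz.2).2.1, e1 z (Or.inr (Or.inr hz))⟩
  have hOBH : ∀ z ∈ OB G C SO SY H R O Y F, z ∈ H := by
    rintro z ⟨hz | hz, _, _⟩
    · exact (hR z hz).1
    · exact hz.1
  have pout : ∀ v, v ∉ C → paint c (H ∩ C) R f v = c v := fun v hv =>
    CN_paint_out (fun h => hv h.2) hN.sub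
  have pR : ∀ v ∈ R, paint c (H ∩ C) R f v = 3 := by
    intro v hv
    simp only [paint, if_pos hv]
  refine
    { conn := hF.1
      connO := hT.connO
      connY := b1
      dCO := CN_disj fun z hz h => hO z h (hFC z hz).1
      dCY := b5
      dOY := b2
      dSO := CN_disj hOA
      dSY := CN_disj hOB
      dSS := CN_disj fun z hz h => hz.1.2 (hOBH z h)
      out := ?_
      tO := hFO
      tY := hFM.mono (le_refl _) fun z hz => Or.inr hz
      cO := ?_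
      cY := ?_
      cS := ?_
      sO := ?_
      sY := ?_
      cl := ?_
      few := few }
  · -- out
    intro x hx u hxu
    have hT1 : Tch G F {u} := ⟨x, hx, u, rfl, hxu⟩
    by_cases hts : TS G F O (Nw G C SO SY H R Y) u
    · rcases nbf x hx u hxu with h | h | h | h | h | h | h | h
      · exact Or.inl h
      · exact Or.inr (Or.inl h)
      · exact Or.inr (Or.inr (Or.inl (Or.inr h)))
      · exact Or.inr (Or.inr (Or.inr (Or.inr (Or.inr ⟨Or.inl h.1, hT1, hts⟩))))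
      · exact Or.inr (Or.inr (Or.inr (Or.inr (Or.inr ⟨Or.inr (Or.inl h), hT1, hts⟩))))
      · exact Or.inr (Or.inr (Or.inr (Or.inr (Or.inr ⟨Or.inl h.2, hT1, hts⟩))))
      · exact Or.inr (Or.inr (Or.inr (Or.inr (Or.inr ⟨Or.inr (Or.inr (Or.inl h)), hT1, hts⟩))))
      · exact Or.inr (Or.inr (Or.inr (Or.inr (Or.inr ⟨Or.inr (Or.inr (Or.inr h)), hT1, hts⟩))))
    · rcases nbf x hx u hxu with h | h | h | h | h | h | h | h
      · exact Or.inl h
      · exact Or.inr (Or.inl h)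
      · exact Or.inr (Or.inr (Or.inl (Or.inr h)))
      · exact Or.inr (Or.inr (Or.inr (Or.inl ⟨h, hT1, hts⟩)))
      · exact Or.inr (Or.inr (Or.inr (Or.inr (Or.inl ⟨Or.inl h, hT1, hts⟩))))
      · exact absurd (t2 u h) hts
      · exact Or.inr (Or.inr (Or.inr (Or.inr (Or.inl ⟨Or.inr h, hT1, hts⟩))))
      · exact absurd (t1 u h) hts
  · -- cO
    obtain ⟨o, ho, h⟩ := hT.cO
    refine ⟨o, ho, fun x hx u hu hxu => ?_⟩
    rw [pout u (hO u hu)]
    exact h x (hFC x hx).1 u hu hxu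
  · -- cY
    refine ⟨f, hf, fun x hx u hu hxu => ?_⟩
    have h := b6 x hx u hu hxu
    simp only [paint, if_neg h.2, if_pos h.1]
  · -- cS
    rintro u (h | h | h)
    · rw [pout u (hSO u h.1.1).1]
      exact hT.cS u (Or.inl h.1.1)
    · rcases h.1 with h | h
      · exact pR u h
      · rw [pout u (hSY u h.2).1]
        exact hT.cS u (Or.inr (Or.inl h.2))
    · rcases h.1 with h | h | h | h
      · rw [pout u (hSO u h).1]
        exact hT.cS u (Or.inl h)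
      · exact pR u h
      · rw [pout u (hSY u h.2).1]
        exact hT.cS u (Or.inr (Or.inl h.2))
      · rw [pout u (hDl u h)]
        exact hT.cS u (Or.inr (Or.inr h))
  · -- sO
    intro z hz
    have h1 := (hT.sO z hz.1.1).2.1
    exact ⟨hz.2.1, h1, fun h => hz.2.2 (CN_ts (hOA z hz) h1.symm h.symm)⟩
  · -- sY
    intro z hz
    have h1 := e2 z (hOBH z hz)
    exact ⟨hz.2.1, h1.symm, fun h => hz.2.2 (CN_ts (hOB z hz) h.symm h1)⟩
  · -- cl
    rintro v ⟨_, _, K, k1, k2, k3, k4, k5⟩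
    refine ⟨K, k1, k2, ?_, k4, k5⟩
    refine CN_disj fun z hz h => ?_
    rcases h with (h | h) | h
    · exact Set.disjoint_left.1 k3 hz h
    · exact h.2.2 ⟨K, k1, hz, k3, k4, k5⟩
    · exact h.2.2 ⟨K, k1, hz, k3, k4, k5⟩

end Pool.K4
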