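import Pool.Agent.Work.MP_768e99_four.Interface

/-! Block ND4 (helper58): the cut of a state. -/

set_option autoImplicit false

namespace Pool.K4

open Pool.Agent.Work.MP_768e99_co Pool.K3F

theorem ND4_mono {V : Type} [Fintype V] (G : SimpleGraph V) (x : V) (H C : Set V) :
    (nb G x (H ∩ C)).ncard ≤ (nb G x H).ncard :=
  Set.ncard_le_ncard (fun _ hy => ⟨hy.1.1, hy.2⟩) (Set.toFinite _)

theorem p_ND4 (hUR : Stmt_UR) (hCUT : Stmt_CUT4) (hSIDE : Stmt_SIDE4) (hDEG : Stmt_DEG4)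
    (hQUAD : Stmt_QUAD4) (hRM : Stmt_RM4) (hPUR : Stmt_PUR) : Stmt_ND4 := by
  intro V _ G d C O Y SO SY Dl c hd hfree hT
  have hRg := hUR V G C O Y SO SY Dl c hT
  obtain ⟨H, P, _, hcut⟩ := hCUT V G (C ∪ SO ∪ SY) O Y hRg
  have hne : (H ∩ C).Nonempty := by
    by_contra hemp
    rw [Set.not_nonempty_iff_eq_empty] at hemp
    refine hcut.sep C (fun x hx => ⟨Or.inl (Or.inl hx), fun hxH => ?_⟩) hT.conn ⟨hT.tO, hT.tY⟩
    have h1 : x ∈ H ∩ C := ⟨hxH, hx⟩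
    rw [hemp] at h1
    exact h1
  have hpar : Par (d + 2) d 2 2 := by
    refine ⟨rfl, by omega, rfl, by omega, by omega, by omega⟩
  obtain ⟨R, hRsub, hind, hcard, hM, hRd⟩ := hRM V G d (H ∩ C)
    (fun x hx => lt_of_le_of_lt (ND4_mono G x H C)
      (hDEG V G (d + 2) (C ∪ SO ∪ SY) O Y H P hfree hRg hcut x hx.1))
    (fun T hT1 hT2 hT3 => hQUAD V G (d + 2) d 2 2 (C ∪ SO ∪ SY) O Y H P hpar hfree hRg hcut T
      (fun x hx => (hT1 hx).1) (fun x hx => le_trans (hT2 x hx) (ND4_mono G x H C)) hT3)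
  have hpur := fun (x : V) (hx : x ∈ R) =>
    hPUR V G d C O Y SO SY Dl H P c hfree hT hcut x (hRsub hx) (hRd x hx)
  have hRg' : Rg G (C ∪ SO ∪ SY) Y O :=
    ⟨hRg.conn, hRg.connY, hRg.connO, hRg.dCY, hRg.dCO, hRg.dOY.symm, hRg.tY, hRg.tO⟩
  exact ⟨H, R, P,
    { cut := hcut
      ne := hne
      sub := hRsub
      ind := hind
      card := hcard
      degM := hM
      degR := hRd
      noS := fun x hx u hu hxu => (hpur x hx).1 u hu hxu
      noD := fun x hx u hu => (hpur x hx).2 u hu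
      sideO := hSIDE V G (C ∪ SO ∪ SY) Y O H P hRg' hcut.symm
      sideY := hSIDE V G (C ∪ SO ∪ SY) O Y H P hRg hcut }⟩

end Pool.K4
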