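import Pool.Agent.Work.MP_768e99_five.Interface

/-!
# Four colours for `K_{3,s}`-minor-free graphs (note 3468): definitions

`Conn`, `KM` are those of `Work/MP_768e99_co`; `Tch` (two sets touch), `nb`, `Free`, `Cmp`,
`IsCmp`, `IsCut` are those of `Work/MP_768e99_five/Defs.lean` (namespace `Pool.K3F`).
The special colour `D` is `3 : Fin 4`.
-/

set_option autoImplicit false

namespace Pool.K4

open Pool.Agent.Work.MP_768e99_co Pool.K3F

/-- A region `U` with two roots (for the cuts). -/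
structure Rg {V : Type} (G : SimpleGraph V) (U O Y : Set V) : Prop where
  conn : Conn G U
  connO : Conn G O
  connY : Conn G Y
  dCO : Disjoint U O
  dCY : Disjoint U Y
  dOY : Disjoint O Y
  tO : Tch G U O
  tY : Tch G U Y

/-- `A_Y`: the vertices of `U - H` whose component in `U - H` touches `Y`. -/
def Sd {V : Type} (G : SimpleGraph V) (U H Y : Set V) : Set V :=
  {v | v ∈ U \ H ∧ Tch G (Cmp G (U \ H) v) Y}

/-- The new root on the side of `Y`: `Y`, `A_Y` and the cut vertices in `C` outside `R`. -/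
def Nw {V : Type} (G : SimpleGraph V) (C SO SY H R Y : Set V) : Set V :=
  Y ∪ Sd G (C ∪ SO ∪ SY) H Y ∪ ((H ∩ C) \ R)

/-- `v` is linked to both roots outside the region `F` (two-sided). -/
def TS {V : Type} (G : SimpleGraph V) (F O Y : Set V) (v : V) : Prop :=
  ∃ K : Set V, Conn G K ∧ v ∈ K ∧ Disjoint K (F ∪ O ∪ Y) ∧ Tch G K O ∧ Tch G K Y

/-- **State with two roots** `O`, `Y`; `SO`, `SY` are the one-sided special vertices, `Dl` the
two-sided ones; everything outside `C` is coloured by `c`. -/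
structure T2 {V : Type} (G : SimpleGraph V) (C O Y SO SY Dl : Set V) (c : V → Fin 4) :
    Prop where
  conn : Conn G C
  connO : Conn G O
  connY : Conn G Y
  dCO : Disjoint C O
  dCY : Disjoint C Y
  dOY : Disjoint O Y
  dSO : Disjoint SO (C ∪ O ∪ Y)
  dSY : Disjoint SY (C ∪ O ∪ Y)
  dSS : Disjoint SO SY
  out : ∀ x ∈ C, ∀ u, G.Adj x u → u ∈ C ∨ u ∈ O ∨ u ∈ Y ∨ u ∈ SO ∨ u ∈ SY ∨ u ∈ Dl
  tO : Tch G C O
  tY : Tch G C Y
  cO : ∃ o : Fin 4, o ≠ 3 ∧ ∀ x ∈ C, ∀ u ∈ O, G.Adj x u → c u = o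
  cY : ∃ y : Fin 4, y ≠ 3 ∧ ∀ x ∈ C, ∀ u ∈ Y, G.Adj x u → c u = y
  cS : ∀ u, u ∈ SO ∨ u ∈ SY ∨ u ∈ Dl → c u = 3
  sO : ∀ z ∈ SO, Tch G C {z} ∧ Tch G O {z} ∧ ¬ Tch G Y {z}
  sY : ∀ z ∈ SY, Tch G C {z} ∧ Tch G Y {z} ∧ ¬ Tch G O {z}
  cl : ∀ v ∈ Dl, ∃ K : Set V, Conn G K ∧ v ∈ K ∧ Disjoint K (C ∪ O ∪ Y ∪ SO ∪ SY) ∧
    Tch G K O ∧ Tch G K Y
  few : ∀ v ∈ C, (nb G v SO).ncard ≤ 2 ∧ (nb G v SY).ncard ≤ 2

/-- **State with at most one root** `A` (possibly empty, possibly not seen from `C`); `W` are the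
one-sided special vertices, `B` is a connected set (or empty) of which only special vertices are
seen. -/
structure T1 {V : Type} (G : SimpleGraph V) (C A W B : Set V) (c : V → Fin 4) : Prop where
  conn : Conn G C
  connA : A = ∅ ∨ Conn G A
  connB : B = ∅ ∨ Conn G B
  dCA : Disjoint C A
  dCB : Disjoint C B
  dAB : Disjoint A B
  dW : Disjoint W (C ∪ A ∪ B)
  out : ∀ x ∈ C, ∀ u, G.Adj x u → u ∈ C ∨ u ∈ A ∨ u ∈ W ∨ u ∈ B
  cA : ∃ a : Fin 4, a ≠ 3 ∧ ∀ x ∈ C, ∀ u ∈ A, G.Adj x u → c u = a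
  cW : ∀ u ∈ W, c u = 3
  cB : ∀ x ∈ C, ∀ u ∈ B, G.Adj x u → c u = 3
  sA : ∀ w ∈ W, Tch G A {w}
  tAB : A.Nonempty → Tch G C B → Tch G B A
  few : ∀ v ∈ C, (nb G v W).ncard ≤ 2

/-- **Good extension** `c` of `c₀` to `C`; conflicts only with `S`, at most two each. -/
structure Gd {V : Type} (G : SimpleGraph V) (d : ℕ) (C S : Set V) (c₀ c : V → Fin 4) :
    Prop where
  off : ∀ v, v ∉ C → c v = c₀ v
  defect : ∀ x ∈ C, {y | G.Adj x y ∧ c y = c x}.ncard ≤ d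
  conf : ∀ x ∈ C, ∀ u, u ∉ C → G.Adj x u → c u = c x → u ∈ S
  few : ∀ u ∈ S, {x | x ∈ C ∧ G.Adj u x ∧ c x = c u}.ncard ≤ 2

/-- **The cut of a state**: `H` is a minimum cut of `U = C ∪ SO ∪ SY` between `O` and `Y`, `R` is
the set of its new special vertices. -/
structure Nd {V : Type} (G : SimpleGraph V) (d : ℕ) (C O Y SO SY Dl H R : Set V)
    (P : V → Set V) : Prop where
  cut : IsCut G O Y (C ∪ SO ∪ SY) H P
  ne : (H ∩ C).Nonempty
  sub : R ⊆ H ∩ C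
  ind : ∀ x ∈ R, ∀ y ∈ R, ¬ G.Adj x y
  card : R.ncard ≤ 2
  degM : ∀ v ∈ (H ∩ C) \ R, (nb G v ((H ∩ C) \ R)).ncard ≤ d
  degR : ∀ x ∈ R, d + 1 ≤ (nb G x (H ∩ C)).ncard
  noS : ∀ x ∈ R, ∀ u ∈ H, G.Adj x u → u ∈ C
  noD : ∀ x ∈ R, ∀ u ∈ Dl, ¬ G.Adj x u
  sideO : Conn G (O ∪ Sd G (C ∪ SO ∪ SY) H O) ∧
    ∀ h ∈ H, Tch G {h} (O ∪ Sd G (C ∪ SO ∪ SY) H O)
  sideY : Conn G (Y ∪ Sd G (C ∪ SO ∪ SY) H Y) ∧
    ∀ h ∈ H, Tch G {h} (Y ∪ Sd G (C ∪ SO ∪ SY) H Y)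

/-- One-sided special vertices seen from the child `F` on the side of `O`, attached to `O`. -/
def OA {V : Type} (G : SimpleGraph V) (C SO SY H R O Y F : Set V) : Set V :=
  {z | z ∈ SO \ H ∧ Tch G F {z} ∧ ¬ TS G F O (Nw G C SO SY H R Y) z}

/-- One-sided special vertices seen from the child `F` on the side of `O`, attached to the new
root `Nw .. Y`. -/
def OB {V : Type} (G : SimpleGraph V) (C SO SY H R O Y F : Set V) : Set V :=
  {z | (z ∈ R ∨ z ∈ H ∩ SY) ∧ Tch G F {z} ∧ ¬ TS G F O (Nw G C SO SY H R Y) z}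

/-- Two-sided special vertices seen from the child `F` on the side of `O`. -/
def OD {V : Type} (G : SimpleGraph V) (C SO SY Dl H R O Y F : Set V) : Set V :=
  {z | (z ∈ SO ∨ z ∈ R ∨ z ∈ H ∩ SY ∨ z ∈ Dl) ∧ Tch G F {z} ∧
    TS G F O (Nw G C SO SY H R Y) z}

open Classical in
/-- Colour `R` by `3` and the rest of `H ∩ C` by `f`. -/
noncomputable def paint {V : Type} (c₀ : V → Fin 4) (HC R : Set V) (f : Fin 4) : V → Fin 4 :=
  fun v => if v ∈ R then 3 else if v ∈ HC then f else c₀ v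

/-- The result of gluing. -/
structure Nod {V : Type} (G : SimpleGraph V) (d : ℕ) (C O Y SO SY Dl H R : Set V)
    (P : V → Set V) (c₀ c : V → Fin 4) (f : Fin 4) : Prop where
  st : T2 G C O Y SO SY Dl c₀
  nd : Nd G d C O Y SO SY Dl H R P
  f3 : f ≠ 3
  cf : ∀ v ∈ (H ∩ C) \ R, c v = f
  cR : ∀ v ∈ R, c v = 3
  off : ∀ v, v ∉ C → c v = c₀ v
  fvis : ∀ x ∈ C, ∀ u, u ∉ C → G.Adj x u → c₀ u ≠ f
  kO : ∀ F, IsCmp G (C \ H) F → F ⊆ Sd G (C ∪ SO ∪ SY) H O →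
    Gd G d F (OA G C SO SY H R O Y F ∪ OB G C SO SY H R O Y F) c c
  kY : ∀ F, IsCmp G (C \ H) F → F ⊆ Sd G (C ∪ SY ∪ SO) H Y →
    Gd G d F (OA G C SY SO H R Y O F ∪ OB G C SY SO H R Y O F) c c
  k0 : ∀ F, IsCmp G (C \ H) F → ¬ F ⊆ Sd G (C ∪ SO ∪ SY) H O →
    ¬ F ⊆ Sd G (C ∪ SY ∪ SO) H Y → Gd G d F ∅ c c

theorem T2.symm {V : Type} {G : SimpleGraph V} {C O Y SO SY Dl : Set V} {c : V → Fin 4}
    (h : T2 G C O Y SO SY Dl c) : T2 G C Y O SY SO Dl c where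
  conn := h.conn
  connO := h.connY
  connY := h.connO
  dCO := h.dCY
  dCY := h.dCO
  dOY := h.dOY.symm
  dSO := by rw [Set.union_right_comm]; exact h.dSY
  dSY := by rw [Set.union_right_comm]; exact h.dSO
  dSS := h.dSS.symm
  out := by
    intro x hx u hu
    rcases h.out x hx u hu with h | h | h | h | h | h <;> simp [h]
  tO := h.tY
  tY := h.tO
  cO := h.cY
  cY := h.cO
  cS := by
    intro u hu
    apply h.cS
    rcases hu with h | h | h <;> simp [h]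
  sO := h.sY
  sY := h.sO
  cl := by
    intro v hv
    obtain ⟨K, h1, h2, h3, h4, h5⟩ := h.cl v hv
    refine ⟨K, h1, h2, ?_, h5, h4⟩
    simp only [Set.disjoint_union_right] at h3 ⊢
    tauto
  few := fun v hv => (h.few v hv).symm

theorem Nd.symm {V : Type} {G : SimpleGraph V} {d : ℕ} {C O Y SO SY Dl H R : Set V}
    {P : V → Set V} (h : Nd G d C O Y SO SY Dl H R P) : Nd G d C Y O SY SO Dl H R P where
  cut := by rw [Set.union_right_comm]; exact h.cut.symm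
  ne := h.ne
  sub := h.sub
  ind := h.ind
  card := h.card
  degM := h.degM
  degR := h.degR
  noS := h.noS
  noD := h.noD
  sideO := by rw [Set.union_right_comm]; exact h.sideY
  sideY := by rw [Set.union_right_comm]; exact h.sideO

theorem Nod.symm {V : Type} {G : SimpleGraph V} {d : ℕ} {C O Y SO SY Dl H R : Set V}
    {P : V → Set V} {c₀ c : V → Fin 4} {f : Fin 4}
    (h : Nod G d C O Y SO SY Dl H R P c₀ c f) : Nod G d C Y O SY SO Dl H R P c₀ c f where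
  st := h.st.symm
  nd := h.nd.symm
  f3 := h.f3
  cf := h.cf
  cR := h.cR
  off := h.off
  fvis := h.fvis
  kO := h.kY
  kY := h.kO
  k0 := fun F hF h1 h2 => h.k0 F hF h2 h1

end Pool.K4
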