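import Pool.Agent.Work.MP_768e99_four.Defs

/-!
# Four colours for `K_{3,s}`-minor-free graphs (note 3468): blocks

Block `X` is one file `B_X.lean` in this folder: import this file, `namespace Pool.K4`, the open
line below, `theorem p_X : Stmt_X`; the blocks in the column `uses` are hypotheses of `p_X` in
that order. Names `K3`, `CN2`, `CMP`, `HIT2`, `CN1` in the column `uses` are
`Pool.K3F.Stmt_K3` etc. (write `(hK3 : Stmt_K3)`: the namespace `Pool.K3F` is open).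
Auxiliary lemmas are prefixed `X_`.

`M` below is `(H ∩ C) \ R`, `U` is `C ∪ SO ∪ SY`, `A_O = Sd G U H O`, `A_Y = Sd G U H Y`,
`Y' = Nw G C SO SY H R Y = Y ∪ A_Y ∪ M`. The components of `C \ H` inside `A_O` are the children
on the side of `O`; those on the side of `Y` are treated by `T2.symm`, `Nd.symm`, `Nod.symm`.
-/

set_option autoImplicit false

namespace Pool.K4

open Pool.Agent.Work.MP_768e99_co Pool.K3F

/-! ### The cut library for a region `U` (copies of the blocks of MP_768e99_five, `Reg` without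
its field `out`) -/

/-- **CUT4.** Copy of `B_CUT.lean` of MP_768e99_five. -/
def Stmt_CUT4 : Prop := ∀ (V : Type) [Fintype V] (G : SimpleGraph V) (U O Y : Set V),
  Rg G U O Y → ∃ (H : Set V) (P : V → Set V), H.Nonempty ∧ IsCut G O Y U H P

/-- **DEG4.** Copy of `B_DEG.lean`. -/
def Stmt_DEG4 : Prop := ∀ (V : Type) [Fintype V] (G : SimpleGraph V) (s : ℕ) (U O Y H : Set V)
  (P : V → Set V), Free G s → Rg G U O Y → IsCut G O Y U H P → ∀ x ∈ H, (nb G x H).ncard < s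

/-- **LNK4.** Copy of `B_LNK.lean`. -/
def Stmt_LNK4 : Prop := ∀ (V : Type) [Fintype V] (G : SimpleGraph V) (U O Y H : Set V)
  (P : V → Set V), Rg G U O Y → IsCut G O Y U H P → ∀ x₁ ∈ H, ∀ x₂ ∈ H, x₁ ≠ x₂ →
  ¬ G.Adj x₁ x₂ → ∃ X ⊆ U, Conn G X ∧ x₁ ∈ X ∧ x₂ ∈ X ∧ ∃ y₁ y₂, ∀ y ∈ nb G x₁ H ∪ nb G x₂ H,
    y ≠ y₁ → y ≠ y₂ → Disjoint X (P y)

/-- **PAIR4.** Copy of `B_PAIR.lean`. -/
def Stmt_PAIR4 : Prop := ∀ (V : Type) [Fintype V] (G : SimpleGraph V) (s : ℕ) (U O Y H : Set V)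
  (P : V → Set V), Free G s → Rg G U O Y → IsCut G O Y U H P → ∀ x₁ ∈ H, ∀ x₂ ∈ H, x₁ ≠ x₂ →
  ¬ G.Adj x₁ x₂ → (nb G x₁ H ∪ nb G x₂ H).ncard ≤ s + 1

/-- **QUAD4.** Copy of `B_QUAD.lean`. -/
def Stmt_QUAD4 : Prop := ∀ (V : Type) [Fintype V] (G : SimpleGraph V) (s d c K : ℕ)
  (U O Y H : Set V) (P : V → Set V), Par s d c K → Free G s → Rg G U O Y →
  IsCut G O Y U H P → ∀ T ⊆ H, (∀ x ∈ T, d + 1 ≤ (nb G x H).ncard) →
  (∀ x ∈ T, ∀ y ∈ T, ¬ G.Adj x y) → T.ncard ≤ c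

/-- **SIDE4.** `Y ∪ A_Y` is connected and every vertex of the cut is adjacent to it. Proof: the
components of `U \ H` touching `Y` are connected and touch `Y` (CN2). Let `h ∈ H`; `P h` is
connected, contains `h` and touches `Y`, say `w ∈ P h` is adjacent to `Y`. If `w = h` fine. Else
`w ∈ U \ H` (`P h ∩ H = {h}`); `D = Cmp G (U \ H) w` touches `Y`; `P h` is connected and contains
`h ∉ D`, so some `a ∈ D ∩ P h` is adjacent to some `b ∈ P h \ D`; `b ∈ U \ H` would give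
`b ∈ D`, so `b = h`. (As in `B_SIDE.lean`.) -/
def Stmt_SIDE4 : Prop := ∀ (V : Type) (G : SimpleGraph V) (U O Y H : Set V) (P : V → Set V),
  Rg G U O Y → IsCut G O Y U H P →
  Conn G (Y ∪ Sd G U H Y) ∧ ∀ h ∈ H, Tch G {h} (Y ∪ Sd G U H Y)

/-- **UR.** `U = C ∪ SO ∪ SY` is a region (every special vertex in `SO ∪ SY` touches `C`). -/
def Stmt_UR : Prop := ∀ (V : Type) (G : SimpleGraph V) (C O Y SO SY Dl : Set V) (c : V → Fin 4),
  T2 G C O Y SO SY Dl c → Rg G (C ∪ SO ∪ SY) O Y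

/-- **RM4.** A maximal set `R` of pairwise nonadjacent vertices of `H` with at least `d + 1`
neighbours in `H` (finite graphs only). A vertex `v ∈ H \ R` with `d + 1` neighbours in `H \ R`
would have a neighbour in `R` too, so `d + 2` neighbours in `H`. -/
def Stmt_RM4 : Prop := ∀ (V : Type) [Fintype V] (G : SimpleGraph V) (d : ℕ) (H : Set V),
  (∀ x ∈ H, (nb G x H).ncard < d + 2) →
  (∀ T ⊆ H, (∀ x ∈ T, d + 1 ≤ (nb G x H).ncard) → (∀ x ∈ T, ∀ y ∈ T, ¬ G.Adj x y) →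
    T.ncard ≤ 2) →
  ∃ R ⊆ H, (∀ x ∈ R, ∀ y ∈ R, ¬ G.Adj x y) ∧ R.ncard ≤ 2 ∧
    (∀ v ∈ H \ R, (nb G v (H \ R)).ncard ≤ d) ∧ ∀ x ∈ R, d + 1 ≤ (nb G x H).ncard

/-- **PUR.** A vertex `x ∈ H ∩ C` with at least `d + 1` neighbours in `H ∩ C` has no neighbour in
`H \ C` (DEG4 with `s = d + 2`: at most `d + 1` neighbours in `H`) and none in `Dl`: for
`v ∈ Dl` adjacent to `x` take `K` from `T2.cl`; centres `{x}`, `O`, `Y`, leaves `P y` for the
`d + 1` neighbours `y ∈ H ∩ C` (in `U`, so disjoint from `K`) and `K` (K3 with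
`ι = Option V`). -/
def Stmt_PUR : Prop := ∀ (V : Type) [Fintype V] (G : SimpleGraph V) (d : ℕ)
  (C O Y SO SY Dl H : Set V) (P : V → Set V) (c : V → Fin 4), Free G (d + 2) →
  T2 G C O Y SO SY Dl c → IsCut G O Y (C ∪ SO ∪ SY) H P → ∀ x ∈ H ∩ C,
  d + 1 ≤ (nb G x (H ∩ C)).ncard → (∀ u ∈ H, G.Adj x u → u ∈ C) ∧ ∀ u ∈ Dl, ¬ G.Adj x u

/-- **ND4.** The cut of a state (UR, CUT4, SIDE4 twice (with `IsCut.symm`), DEG4, QUAD4 for
`c = K = 2`, RM4 for `H ∩ C`, PUR). `H ∩ C` is nonempty: otherwise `C ⊆ U \ H` is connected and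
touches `O` and `Y`. -/
def Stmt_ND4 : Prop := ∀ (V : Type) [Fintype V] (G : SimpleGraph V) (d : ℕ)
  (C O Y SO SY Dl : Set V) (c : V → Fin 4), 11 ≤ d → Free G (d + 2) →
  T2 G C O Y SO SY Dl c → ∃ (H R : Set V) (P : V → Set V), Nd G d C O Y SO SY Dl H R P

/-! ### Children on the side of `O` -/

/-- **DJ.** `A_O` and `A_Y` are disjoint (`sep` for a component of `U \ H`). -/
def Stmt_DJ : Prop := ∀ (V : Type) (G : SimpleGraph V) (U O Y H : Set V) (P : V → Set V),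
  IsCut G O Y U H P → Disjoint (Sd G U H O) (Sd G U H Y)

/-- **TH.** Every component of `C \ H` touches `H ∩ C` (`C` is connected, `H ∩ C ≠ ∅`). -/
def Stmt_TH : Prop := ∀ (V : Type) (G : SimpleGraph V) (C H F : Set V), Conn G C →
  (H ∩ C).Nonempty → IsCmp G (C \ H) F → Tch G F (H ∩ C)

/-- **SDF.** A component `F` of `C \ H` lies in `A_O` or is disjoint from it; if it lies in `A_O`
it touches `O` or some `z ∈ SO \ H`; if it touches `O` or some `z ∈ SO \ H` it lies in `A_O`.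
Proof: `F` is a connected subset of `U \ H`, so it lies in one component of `U \ H`. If
`F ⊆ A_O` touches neither `O` nor `SO \ H`, then `F` is closed in `U \ H` (a neighbour
`w ∈ SY \ H` touches `Y`, and then `Cmp G (U \ H) w` would touch `O` and `Y`), so it is a
component of `U \ H` and touches `O`. For the last part: `z ∈ SO` is adjacent to `O`
(`T2.sO`). -/
def Stmt_SDF : Prop := ∀ (V : Type) (G : SimpleGraph V) (d : ℕ) (C O Y SO SY Dl H R : Set V)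
  (P : V → Set V) (c : V → Fin 4), T2 G C O Y SO SY Dl c → Nd G d C O Y SO SY Dl H R P →
  ∀ F, IsCmp G (C \ H) F →
  (F ⊆ Sd G (C ∪ SO ∪ SY) H O ∨ Disjoint F (Sd G (C ∪ SO ∪ SY) H O)) ∧
  (F ⊆ Sd G (C ∪ SO ∪ SY) H O → Tch G F O ∨ ∃ z ∈ SO \ H, Tch G F {z}) ∧
  (Tch G F O → F ⊆ Sd G (C ∪ SO ∪ SY) H O) ∧
  (∀ z ∈ SO \ H, Tch G F {z} → F ⊆ Sd G (C ∪ SO ∪ SY) H O)

/-- **NBF.** The neighbours of a child on the side of `O`. Proof: `T2.out`; `u ∈ Y` or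
`u ∈ SY \ H` (adjacent to `Y`) would make the component of `U \ H` containing `x` touch `Y`,
against DJ; `u ∈ C \ H` is in `F`. -/
def Stmt_NBF : Prop := ∀ (V : Type) (G : SimpleGraph V) (d : ℕ) (C O Y SO SY Dl H R : Set V)
  (P : V → Set V) (c : V → Fin 4), T2 G C O Y SO SY Dl c → Nd G d C O Y SO SY Dl H R P →
  ∀ F, IsCmp G (C \ H) F → F ⊆ Sd G (C ∪ SO ∪ SY) H O → ∀ x ∈ F, ∀ u, G.Adj x u →
  u ∈ F ∨ u ∈ O ∨ u ∈ (H ∩ C) \ R ∨ u ∈ SO \ H ∨ u ∈ R ∨ u ∈ H ∩ SO ∨ u ∈ H ∩ SY ∨ u ∈ Dl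

/-- **NBM.** The neighbours of a child `F` on neither side (SDF for both sides, the other one by
`T2.symm`, `Nd.symm`; `Set.union_right_comm`). -/
def Stmt_NBM : Prop := ∀ (V : Type) (G : SimpleGraph V) (d : ℕ) (C O Y SO SY Dl H R : Set V)
  (P : V → Set V) (c : V → Fin 4), T2 G C O Y SO SY Dl c → Nd G d C O Y SO SY Dl H R P →
  ∀ F, IsCmp G (C \ H) F → ¬ F ⊆ Sd G (C ∪ SO ∪ SY) H O → ¬ F ⊆ Sd G (C ∪ SY ∪ SO) H Y →
  ∀ x ∈ F, ∀ u, G.Adj x u →
  u ∈ F ∨ u ∈ (H ∩ C) \ R ∨ u ∈ R ∨ u ∈ H ∩ SO ∨ u ∈ H ∩ SY ∨ u ∈ Dl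

/-- **BAS.** The new root `Y'` is connected and disjoint from `O` and from `A_O`; a child on the
side of `O` is disjoint from it and sees only `M` of it. (`sideY` and `Conn.union` for `M ⊆ H`;
DJ; NBF.) -/
def Stmt_BAS : Prop := ∀ (V : Type) (G : SimpleGraph V) (d : ℕ) (C O Y SO SY Dl H R : Set V)
  (P : V → Set V) (c : V → Fin 4), T2 G C O Y SO SY Dl c → Nd G d C O Y SO SY Dl H R P →
  Conn G (Nw G C SO SY H R Y) ∧ Disjoint O (Nw G C SO SY H R Y) ∧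
  Disjoint (Sd G (C ∪ SO ∪ SY) H O) (Nw G C SO SY H R Y) ∧
  ∀ F, IsCmp G (C \ H) F → F ⊆ Sd G (C ∪ SO ∪ SY) H O →
    Disjoint F (Nw G C SO SY H R Y) ∧
    ∀ x ∈ F, ∀ u ∈ Nw G C SO SY H R Y, G.Adj x u → u ∈ (H ∩ C) \ R

/-- **ELT.** The special vertices and the new root: `SO`, `R`, `H ∩ SY` and the sets `K` of
`T2.cl` avoid `Y'`; the vertices of `H` outside `Y'` touch `Y'` (`sideY`). For `z ∈ SO \ H`:
`z ∈ A_O` as it is adjacent to `O`; use DJ. -/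
def Stmt_ELT : Prop := ∀ (V : Type) (G : SimpleGraph V) (d : ℕ) (C O Y SO SY Dl H R : Set V)
  (P : V → Set V) (c : V → Fin 4), T2 G C O Y SO SY Dl c → Nd G d C O Y SO SY Dl H R P →
  (∀ z, z ∈ SO ∨ z ∈ R ∨ z ∈ H ∩ SY → z ∉ Nw G C SO SY H R Y) ∧
  (∀ z ∈ H, Tch G {z} (Nw G C SO SY H R Y)) ∧
  ∀ K, Disjoint K (C ∪ O ∪ Y ∪ SO ∪ SY) → Disjoint K (Nw G C SO SY H R Y)

/-- **TSA.** Always two-sided for a child `F` on the side of `O`: `Dl` (the set `K` of `T2.cl`),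
`H ∩ SO` (`{z}`: adjacent to `O` by `T2.sO`, touches `Y'` by ELT), and `z ∈ SO \ H` adjacent to
some `x ∈ R` (`{z, x}`). -/
def Stmt_TSA : Prop := ∀ (V : Type) (G : SimpleGraph V) (d : ℕ) (C O Y SO SY Dl H R : Set V)
  (P : V → Set V) (c : V → Fin 4), T2 G C O Y SO SY Dl c → Nd G d C O Y SO SY Dl H R P →
  ∀ F, IsCmp G (C \ H) F → F ⊆ Sd G (C ∪ SO ∪ SY) H O →
  (∀ z ∈ Dl, TS G F O (Nw G C SO SY H R Y) z) ∧
  (∀ z ∈ H ∩ SO, TS G F O (Nw G C SO SY H R Y) z) ∧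
  ∀ z ∈ SO \ H, ∀ x ∈ R, G.Adj z x → TS G F O (Nw G C SO SY H R Y) z

/-- **TSB.** A special vertex which sees another child `F₂` on the side of `O` is two-sided for
`F`. Proof: `z ∈ SO \ H`: `F₂` touches some `h ∈ H ∩ C` (TH); `h ∈ M`: `K = {z} ∪ F₂`;
`h ∈ R`: `K = {z} ∪ F₂ ∪ {h}`, `h` touches `Y'` by ELT. `v ∈ R` or `v ∈ H ∩ SY` (touches `Y'`):
if `F₂` touches `O`, `K = {v} ∪ F₂`; otherwise `F₂` touches some `z' ∈ SO \ H` (SDF), which is
adjacent to `O`: `K = {v} ∪ F₂ ∪ {z'}`. Disjointness: different components; `F₂ ⊆ A_O`; ELT. -/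
def Stmt_TSB : Prop := ∀ (V : Type) (G : SimpleGraph V) (d : ℕ) (C O Y SO SY Dl H R : Set V)
  (P : V → Set V) (c : V → Fin 4), T2 G C O Y SO SY Dl c → Nd G d C O Y SO SY Dl H R P →
  ∀ F F₂, IsCmp G (C \ H) F → IsCmp G (C \ H) F₂ → F ≠ F₂ →
  F ⊆ Sd G (C ∪ SO ∪ SY) H O → F₂ ⊆ Sd G (C ∪ SO ∪ SY) H O →
  ∀ z, z ∈ SO \ H ∨ z ∈ R ∨ z ∈ H ∩ SY → Tch G F₂ {z} → TS G F O (Nw G C SO SY H R Y) z

/-- **FEW4.** At most two one-sided special vertices of each kind are adjacent to a vertex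
`v ∈ F`. Proof: `OA ⊆ SO`: `T2.few`. `OB ⊆ R ∪ (H ∩ SY)`: if `v` has no neighbour in `R`, then
`T2.few` for `SY`. Let `r ∈ R` be a neighbour of `v` and suppose `v` has two further neighbours
`u₁ ≠ u₂` in `R ∪ (H ∩ SY)`. They are not neighbours of `r` (`ind`, `noS`). Centres `{r, v}`,
`O`, `Y`; leaves `P y` for `y ∈ nb G r (H ∩ C)` (at least `d + 1`) and `P u₁`, `P u₂`, all but
the one containing `v` (the `P` are disjoint): at least `d + 2`. -/
def Stmt_FEW4 : Prop := ∀ (V : Type) [Fintype V] (G : SimpleGraph V) (d : ℕ)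
  (C O Y SO SY Dl H R : Set V) (P : V → Set V) (c : V → Fin 4), Free G (d + 2) →
  T2 G C O Y SO SY Dl c → Nd G d C O Y SO SY Dl H R P →
  ∀ F, IsCmp G (C \ H) F → F ⊆ Sd G (C ∪ SO ∪ SY) H O → ∀ v ∈ F,
  (nb G v (OA G C SO SY H R O Y F)).ncard ≤ 2 ∧ (nb G v (OB G C SO SY H R O Y F)).ncard ≤ 2

/-- **CN.** Normal child. All fields of `T2` from BAS, ELT, NBF, TSA, FEW4: `out`: NBF, and a seen
special vertex is in `OD` if it is two-sided, otherwise in `OA` or `OB` (`H ∩ SO` and `Dl` are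
two-sided by TSA); `sO`: if `z ∈ OA` touched `Y'`, then `K = {z}`; `sY`: `z ∈ OB` touches `Y'`
by ELT, if it touched `O`, then `K = {z}`; `cl`: the set `K` of a `z ∈ OD` contains no element
of `OA ∪ OB`, as this would be two-sided by the same `K`. -/
def Stmt_CN : Prop := ∀ (V : Type) [Fintype V] (G : SimpleGraph V) (d : ℕ)
  (C O Y SO SY Dl H R : Set V) (P : V → Set V) (c : V → Fin 4) (f : Fin 4), Free G (d + 2) →
  T2 G C O Y SO SY Dl c → Nd G d C O Y SO SY Dl H R P → f ≠ 3 →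
  ∀ F, IsCmp G (C \ H) F → F ⊆ Sd G (C ∪ SO ∪ SY) H O → Tch G F O → Tch G F ((H ∩ C) \ R) →
  T2 G F O (Nw G C SO SY H R Y) (OA G C SO SY H R O Y F) (OB G C SO SY H R O Y F)
    (OD G C SO SY Dl H R O Y F) (paint c (H ∩ C) R f)

/-- **LK1.** A link between `O` and `Y'` outside a child `F` on the side of `O` which does not
touch `M`. Proof: `F` touches some `x ∈ R` (TH); `x` has a neighbour `y ∈ H ∩ C` (`degR`), and
`y ∈ M` by `ind`. By `sideO` `y` is adjacent to `O` (first alternative) or to some `a ∈ A_O`: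
`a ∈ SO`: `K = {a}`. `a ∈ SY` is impossible (adjacent to `Y`, DJ). `a ∈ C \ H`:
`F'' = Cmp G (C \ H) a ≠ F` since `F` does not touch `M`; by SDF it lies in `A_O` and touches
`O` (`K = F''`) or some `z' ∈ SO \ H` (`K = F'' ∪ {z'}`). -/
def Stmt_LK1 : Prop := ∀ (V : Type) (G : SimpleGraph V) (d : ℕ) (C O Y SO SY Dl H R : Set V)
  (P : V → Set V) (c : V → Fin 4), T2 G C O Y SO SY Dl c → Nd G d C O Y SO SY Dl H R P →
  ∀ F, IsCmp G (C \ H) F → F ⊆ Sd G (C ∪ SO ∪ SY) H O → ¬ Tch G F ((H ∩ C) \ R) →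
  Tch G O (Nw G C SO SY H R Y) ∨ ∃ K, Conn G K ∧
    Disjoint K (F ∪ O ∪ Nw G C SO SY H R Y) ∧ Tch G K O ∧ Tch G K (Nw G C SO SY H R Y)

/-- **LK2.** The same for a child `F` on the side of `O` which does not touch `O`. Proof: some
`c₀ ∈ C` is adjacent to `O` (`T2.tO`). `c₀ ∈ M`: first alternative. `c₀ ∈ R`: `K = {c₀}` (ELT).
`c₀ ∉ H`: `F'' = Cmp G (C \ H) c₀ ≠ F`, in `A_O` by SDF, touches some `h ∈ H ∩ C` (TH);
`h ∈ M`: `K = F''`; `h ∈ R`: `K = F'' ∪ {h}`. -/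
def Stmt_LK2 : Prop := ∀ (V : Type) (G : SimpleGraph V) (d : ℕ) (C O Y SO SY Dl H R : Set V)
  (P : V → Set V) (c : V → Fin 4), T2 G C O Y SO SY Dl c → Nd G d C O Y SO SY Dl H R P →
  ∀ F, IsCmp G (C \ H) F → F ⊆ Sd G (C ∪ SO ∪ SY) H O → ¬ Tch G F O →
  Tch G O (Nw G C SO SY H R Y) ∨ ∃ K, Conn G K ∧
    Disjoint K (F ∪ O ∪ Nw G C SO SY H R Y) ∧ Tch G K O ∧ Tch G K (Nw G C SO SY H R Y)

/-- **CJ1.** Child on the side of `O` which touches `O` but not `M`: root `A = O`, `W = OA`,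
`B = Y' ∪ ⋃₀ {K | K connected, disjoint from F ∪ O ∪ Y' ∪ OA, touches Y'}` (connected by CN2).
`B` contains `OB` (`{z}`, ELT) and `OD` (its sets `K`: an element of `OA` in `K` would be
two-sided), and the link of LK1 (disjoint from `OA` for the same reason), so `B` touches `O`. -/
def Stmt_CJ1 : Prop := ∀ (V : Type) [Fintype V] (G : SimpleGraph V) (d : ℕ)
  (C O Y SO SY Dl H R : Set V) (P : V → Set V) (c : V → Fin 4) (f : Fin 4), Free G (d + 2) →
  T2 G C O Y SO SY Dl c → Nd G d C O Y SO SY Dl H R P → f ≠ 3 →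
  ∀ F, IsCmp G (C \ H) F → F ⊆ Sd G (C ∪ SO ∪ SY) H O → Tch G F O →
  ¬ Tch G F ((H ∩ C) \ R) →
  ∃ B, T1 G F O (OA G C SO SY H R O Y F) B (paint c (H ∩ C) R f)

/-- **CJ2.** Child on the side of `O` which does not touch `O`: root `A = Y'` (of which only `M`
can be seen), `W = OB`, `B = O ∪ ⋃₀ {K | K connected, disjoint from F ∪ O ∪ Y' ∪ OB,
touches O}`; it contains `OA` (`{z}`), `OD` and the link of LK2, so it touches `Y'`. -/
def Stmt_CJ2 : Prop := ∀ (V : Type) [Fintype V] (G : SimpleGraph V) (d : ℕ)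
  (C O Y SO SY Dl H R : Set V) (P : V → Set V) (c : V → Fin 4) (f : Fin 4), Free G (d + 2) →
  T2 G C O Y SO SY Dl c → Nd G d C O Y SO SY Dl H R P → f ≠ 3 →
  ∀ F, IsCmp G (C \ H) F → F ⊆ Sd G (C ∪ SO ∪ SY) H O → ¬ Tch G F O →
  ∃ B, T1 G F (Nw G C SO SY H R Y) (OB G C SO SY H R O Y F) B (paint c (H ∩ C) R f)

/-- **CM.** Child on neither side: root `A = Y'`, `W = ∅`,
`B = O ∪ ⋃₀ {K | K connected, disjoint from F ∪ O ∪ Y', touches O}`. It contains `Dl`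
(the `K` of `T2.cl`), and every `z ∈ R`, `H ∩ SO`, `H ∩ SY`: by `sideO` `z` is adjacent to `O`
(`K = {z}`) or to some `a ∈ A_O` (`K = {z} ∪ Cmp G (U \ H) a`, which lies in `A_O ∪ {z}`;
`F` is disjoint from `A_O` by SDF, `Y'` by BAS). `B` touches `Y'`: take `h ∈ H ∩ C`; if
`h ∈ R` it is in `B` and touches `Y'` (ELT); if `h ∈ M ⊆ Y'`, it is adjacent to `O` or to
`a ∈ A_O` (`K = Cmp G (U \ H) a`). Neighbours of `F`: NBM; `M` is the only part of `Y'` which is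
seen (`F` is disjoint from `Y'`: SDF for the other side). -/
def Stmt_CM : Prop := ∀ (V : Type) [Fintype V] (G : SimpleGraph V) (d : ℕ)
  (C O Y SO SY Dl H R : Set V) (P : V → Set V) (c : V → Fin 4) (f : Fin 4),
  T2 G C O Y SO SY Dl c → Nd G d C O Y SO SY Dl H R P → f ≠ 3 →
  ∀ F, IsCmp G (C \ H) F → ¬ F ⊆ Sd G (C ∪ SO ∪ SY) H O → ¬ F ⊆ Sd G (C ∪ SY ∪ SO) H Y →
  ∃ B, T1 G F (Nw G C SO SY H R Y) ∅ B (paint c (H ∩ C) R f)

/-! ### Gluing and the conclusions for a node -/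

/-- **GL4.** Pure gluing over the components of `S`. -/
def Stmt_GL4 : Prop := ∀ (V : Type) (G : SimpleGraph V) (S : Set V) (c₁ : V → Fin 4)
  (cF : Set V → V → Fin 4), ∃ c : V → Fin 4, (∀ v, v ∉ S → c v = c₁ v) ∧
    ∀ F, IsCmp G S F → ∀ v ∈ F, c v = cF F v

/-- **TR4.** `Gd` depends only on the colours of the region, its neighbours and `S`, and is
monotone in `S`: for `u ∈ S' \ S` (outside `F`) there is no conflict by `conf`, so the set is
empty. -/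
def Stmt_TR4 : Prop := ∀ (V : Type) (G : SimpleGraph V) (d : ℕ) (F S S' : Set V)
  (c₁ c' c : V → Fin 4), (∀ v ∈ F, c v = c' v) → (∀ x ∈ F, ∀ u, G.Adj x u → c u = c' u) →
  (∀ u ∈ S', c u = c' u) → S ⊆ S' → Disjoint S' F → Gd G d F S c₁ c' → Gd G d F S' c c

/-- **GN.** Gluing to a `Nod`. `c₁ = paint c₀ (H ∩ C) R f`; for every component `F` of `C \ H`
take a good extension `cF F` of `c₁` from the induction hypotheses (`F` has fewer elements than
`C` by `ne`): on the side of `O` by CN, CJ1, CJ2 (according to `Tch G F O`,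
`Tch G F ((H ∩ C) \ R)`), on the side of `Y` by the same blocks for `T2.symm`, `Nd.symm`,
otherwise CM. Glue by GL4 (`S = C \ H`), transfer by TR4 (`S' = OA ∪ OB`, disjoint from `F`; the
neighbours of `F` outside `F` are outside `C \ H`). -/
def Stmt_GN : Prop := ∀ (V : Type) [Fintype V] (G : SimpleGraph V) (d : ℕ)
  (C O Y SO SY Dl H R : Set V) (P : V → Set V) (c₀ : V → Fin 4) (f : Fin 4), Free G (d + 2) →
  T2 G C O Y SO SY Dl c₀ → Nd G d C O Y SO SY Dl H R P → f ≠ 3 →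
  (∀ x ∈ C, ∀ u, u ∉ C → G.Adj x u → c₀ u ≠ f) →
  (∀ (C' O' Y' SO' SY' Dl' : Set V) (c' : V → Fin 4), C'.ncard < C.ncard →
    T2 G C' O' Y' SO' SY' Dl' c' → ∃ c, Gd G d C' (SO' ∪ SY') c' c) →
  (∀ (C' A W B : Set V) (c' : V → Fin 4), C'.ncard < C.ncard → T1 G C' A W B c' →
    ∃ c, Gd G d C' W c' c) →
  ∃ c, Nod G d C O Y SO SY Dl H R P c₀ c f

/-- **NC4.** A vertex `x ∈ C` with a neighbour `u ∉ C` of its own colour: `u ∈ SO ∪ SY`. Proof:
`x ∈ M`: excluded by `fvis`. `x ∈ R` has colour `3`: `T2.out`, `cO`, `cY` (colours `≠ 3`),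
`noD`. `x ∈ F`, a component of `C \ H`: `conf` of `kO`, `kY` or `k0`; `OA ⊆ SO`,
`OB ⊆ R ∪ (H ∩ SY)`, `R ⊆ C`. -/
def Stmt_NC4 : Prop := ∀ (V : Type) (G : SimpleGraph V) (d : ℕ) (C O Y SO SY Dl H R : Set V)
  (P : V → Set V) (c₀ c : V → Fin 4) (f : Fin 4), Nod G d C O Y SO SY Dl H R P c₀ c f →
  ∀ x ∈ C, ∀ u, u ∉ C → G.Adj x u → c u = c x → u ∈ SO ∪ SY

/-- **NM4.** The defect of the vertices of `C \ R`. Proof: `x` in a component of `C \ H`:
`defect`. `x ∈ M`: a neighbour `y` of colour `f` is not outside `C` (`fvis`), not in `R`, not in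
a component `F` of `C \ H` (`conf` for `y` and `u = x` gives `x ∈ OA ∪ OB`, so `x ∈ SO`, `R` or
`SY`), so `y ∈ nb G x M`: `degM`. -/
def Stmt_NM4 : Prop := ∀ (V : Type) [Fintype V] (G : SimpleGraph V) (d : ℕ)
  (C O Y SO SY Dl H R : Set V) (P : V → Set V) (c₀ c : V → Fin 4) (f : Fin 4),
  Nod G d C O Y SO SY Dl H R P c₀ c f →
  ∀ x ∈ C, x ∉ R → {y | G.Adj x y ∧ c y = c x}.ncard ≤ d

/-- **CF.** Conflicts of a special vertex with the children on the side of `O`: at most two, and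
none for `z ∈ SO \ H` adjacent to some `x ∈ R`. Proof: let `y` be in the set, `F` its component
of `C \ H` (in `A_O` by SDF); `conf` for `y` and `u = z` gives `z ∈ OA ∪ OB`, so `z` is not
two-sided for `F`. With TSB: all such `y` lie in the same `F`; `few` of `kO`. The last part:
TSA. -/
def Stmt_CF : Prop := ∀ (V : Type) [Fintype V] (G : SimpleGraph V) (d : ℕ)
  (C O Y SO SY Dl H R : Set V) (P : V → Set V) (c₀ c : V → Fin 4) (f : Fin 4),
  Nod G d C O Y SO SY Dl H R P c₀ c f → ∀ z, z ∈ SO \ H ∨ z ∈ R ∨ z ∈ H ∩ SY →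
  {y | y ∈ C \ H ∧ y ∈ Sd G (C ∪ SO ∪ SY) H O ∧ G.Adj z y ∧ c y = c z}.ncard ≤ 2 ∧
  (z ∈ SO \ H → (∃ x ∈ R, G.Adj z x) →
    {y | y ∈ C \ H ∧ y ∈ Sd G (C ∪ SO ∪ SY) H O ∧ G.Adj z y ∧ c y = c z} = ∅)

/-- **NR4.** The defect of `x ∈ R`: at most 8. Proof: a neighbour `y` of colour `3` is in
`SO ∪ SY` (at most 4: `T2.few`) by NC4 or in `C`; in `C` it is not in `R` (`ind`), not in `M`
(colour `f`), so it is in a component `F` of `C \ H`, which lies in `A_O` or in `A_Y` (`k0` has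
no conflicts; the components of a vertex of `A_O`: SDF): at most `2 + 2` by CF for the node and
for `Nod.symm`. -/
def Stmt_NR4 : Prop := ∀ (V : Type) [Fintype V] (G : SimpleGraph V) (d : ℕ)
  (C O Y SO SY Dl H R : Set V) (P : V → Set V) (c₀ c : V → Fin 4) (f : Fin 4),
  Nod G d C O Y SO SY Dl H R P c₀ c f → ∀ x ∈ R, {y | G.Adj x y ∧ c y = c x}.ncard ≤ 8

/-- **NF4.** Conflicts of `u ∈ SO` with `C`: at most two. Proof: `c u = 3`, so `x ∉ M`. If
`u ∈ H`: not `x ∈ R` (`noS`: `u ∈ H` adjacent to `x ∈ R` is in `C`); `x` in a component `F` in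
`A_O`: `conf` gives `u ∈ OA ∪ OB`, impossible for `u ∈ H ∩ SO`; the components in `A_Y`: CF for
`Nod.symm` (`u ∈ H ∩ SO` there plays the role of `H ∩ SY`). If `u ∉ H`: a component in `A_Y` is
impossible (`conf`); if `u` is adjacent to some `x ∈ R`, only `x ∈ R` is possible (CF), at most
two (`card`); otherwise only the components in `A_O`: CF. -/
def Stmt_NF4 : Prop := ∀ (V : Type) [Fintype V] (G : SimpleGraph V) (d : ℕ)
  (C O Y SO SY Dl H R : Set V) (P : V → Set V) (c₀ c : V → Fin 4) (f : Fin 4),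
  Nod G d C O Y SO SY Dl H R P c₀ c f → ∀ u ∈ SO,
  {x | x ∈ C ∧ G.Adj u x ∧ c x = c u}.ncard ≤ 2

/-- **NG4.** A node gives a good extension (NC4, NM4, NR4, NF4 also for `Nod.symm`). -/
def Stmt_NG4 : Prop := ∀ (V : Type) [Fintype V] (G : SimpleGraph V) (d : ℕ)
  (C O Y SO SY Dl H R : Set V) (P : V → Set V) (c₀ c : V → Fin 4) (f : Fin 4), 8 ≤ d →
  Nod G d C O Y SO SY Dl H R P c₀ c f → Gd G d C (SO ∪ SY) c₀ c

/-- **S24.** The step for two roots: `f` different from `o`, `y`, `3`; ND4, GN, NG4. -/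
def Stmt_S24 : Prop := ∀ (V : Type) [Fintype V] (G : SimpleGraph V) (d : ℕ)
  (C O Y SO SY Dl : Set V) (c₀ : V → Fin 4), 11 ≤ d → Free G (d + 2) →
  T2 G C O Y SO SY Dl c₀ →
  (∀ (C' O' Y' SO' SY' Dl' : Set V) (c' : V → Fin 4), C'.ncard < C.ncard →
    T2 G C' O' Y' SO' SY' Dl' c' → ∃ c, Gd G d C' (SO' ∪ SY') c' c) →
  (∀ (C' A W B : Set V) (c' : V → Fin 4), C'.ncard < C.ncard → T1 G C' A W B c' →
    ∃ c, Gd G d C' W c' c) →
  ∃ c, Gd G d C (SO ∪ SY) c₀ c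

/-! ### The step for one root -/

/-- One-sided special vertices for the child `F` of `C \ {v}`. -/
def W1 {V : Type} (G : SimpleGraph V) (C W F : Set V) (v : V) : Set V :=
  {w | w ∈ W ∧ Tch G F {w} ∧ ¬ G.Adj w v ∧
    ∀ F₂, IsCmp G (C \ {v}) F₂ → Tch G F₂ {w} → F₂ = F}

open Classical in
/-- **T1A.** Child `F` of `C \ {v}` touching `A`: two roots `A` and `{v}`, `SO = W1`, `SY = ∅`,
two-sided: the other seen vertices. Proof: `F` touches `v` as `C` is connected. `cl`: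
`u ∈ B`: `K = B` (touches `A` by `tAB`, touches `v` by hypothesis); `u ∈ W` adjacent to `v`:
`K = {u}`; `u ∈ W` seen from another component `F₂`: `K = {u} ∪ F₂` (`F₂` touches `v`). -/
def Stmt_T1A : Prop := ∀ (V : Type) [Fintype V] (G : SimpleGraph V) (C A W B : Set V)
  (c₀ : V → Fin 4) (v : V) (p : Fin 4), T1 G C A W B c₀ → v ∈ C → p ≠ 3 →
  (Tch G C B → Tch G B {v}) → ∀ F, IsCmp G (C \ {v}) F → Tch G F A →
  T2 G F A {v} (W1 G C W F v) ∅
    {u | Tch G F {u} ∧ u ∉ F ∧ u ∉ A ∧ u ≠ v ∧ u ∉ W1 G C W F v} (Function.update c₀ v p)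

open Classical in
/-- **T1B.** Child `F` of `C \ {v}` not touching `A`: root `{v}`, `W = ∅`,
`B' = A ∪ W ∪ B` if `C` touches `B`, otherwise `A ∪ W` (`W = ∅` if `A = ∅` by `sA`). -/
def Stmt_T1B : Prop := ∀ (V : Type) (G : SimpleGraph V) (C A W B : Set V)
  (c₀ : V → Fin 4) (v : V) (p : Fin 4), T1 G C A W B c₀ → v ∈ C → p ≠ 3 →
  (Tch G C B → Tch G B {v}) → (¬ Tch G C B → Tch G C A → Tch G A {v}) →
  (¬ Tch G C B → ¬ Tch G C A → Tch G C W → Tch G W {v}) →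
  ∀ F, IsCmp G (C \ {v}) F → ¬ Tch G F A → ∃ B', T1 G F {v} ∅ B' (Function.update c₀ v p)

/-- **S14.** The step for one root. Proof: choose `v ∈ C` adjacent to a vertex of `B` if `C`
touches `B`, else adjacent to `A` if `C` touches `A`, else adjacent to `W` if possible, else any;
`p` different from `a` and `3`; children: T1A (good extensions for `S = W1 ∪ ∅`) and T1B
(`S = ∅`), glued by GL4 and TR4 (`S' = W1`). `v` has no neighbour of its colour: `conf` of the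
children (`v ∉ W`), colours `a`, `3` outside. For `w ∈ W` conflicts occur only in a component `F`
with `w ∈ W1 F`, and there is only one such `F`. -/
def Stmt_S14 : Prop := ∀ (V : Type) [Fintype V] (G : SimpleGraph V) (d : ℕ)
  (C A W B : Set V) (c₀ : V → Fin 4), T1 G C A W B c₀ →
  (∀ (C' O' Y' SO' SY' Dl' : Set V) (c' : V → Fin 4), C'.ncard < C.ncard →
    T2 G C' O' Y' SO' SY' Dl' c' → ∃ c, Gd G d C' (SO' ∪ SY') c' c) →
  (∀ (C' A W B : Set V) (c' : V → Fin 4), C'.ncard < C.ncard → T1 G C' A W B c' →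
    ∃ c, Gd G d C' W c' c) →
  ∃ c, Gd G d C W c₀ c

/-- **ALL4.** Strong induction on the number of vertices of the region (S24, S14); every
component of `G` is a state `T1 G F ∅ ∅ ∅`; glue the components of `Set.univ` (GL4, TR4). -/
def Stmt_ALL4 : Prop := ∀ (V : Type) [Fintype V] (G : SimpleGraph V) (d : ℕ), 11 ≤ d →
  Free G (d + 2) → DefColorable G 4 d

/-- **FIN4.** In terms of `HasBicliqueMinor` (`not_KM_of_not_minor`). -/
def Stmt_FIN4 : Prop := ∀ (d : ℕ), 11 ≤ d → ∀ (V : Type) [Fintype V] (G : SimpleGraph V),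
  ¬ HasBicliqueMinor G 3 (d + 2) → DefColorable G 4 d

end Pool.K4
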